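import Pool.Agent.H610.SqF.Main

set_option autoImplicit false

/-!
# Palindromes without small prime factors which are not squarefree
-/

namespace Pool.Agent.H610.SqF

open Finset Filter

/-- palindromes with an even number of digits are divisible by `b + 1` -/
lemma even_dvd {b : ℕ} (n : ℕ) (h1 : (Nat.digits b n).reverse = Nat.digits b n)
    (h2 : Even (Nat.digits b n).length) : b + 1 ∣ n := by
  have h3 : (b : ℤ) ≡ -1 [ZMOD ((b + 1 : ℕ) : ℤ)] := by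
    rw [Int.modEq_iff_dvd]
    refine ⟨-1, ?_⟩
    push_cast
    ring
  have h4 := Nat.ofDigits_zmodeq' (b : ℤ) (-1) (b + 1) h3 (Nat.digits b n)
  rw [Nat.ofDigits_neg_one] at h4
  obtain ⟨l, hl⟩ : ∃ l, l = (Nat.digits b n).map (fun n : ℕ => (n : ℤ)) := ⟨_, rfl⟩
  have h5 : l.reverse = l := by rw [hl, ← List.map_reverse, h1]
  have h6 : Even l.length := by rwa [hl, List.length_map]
  have h7 := l.alternatingSum_reverse
  rw [h5, _root_.pow_succ', h6.neg_one_pow, mul_one, neg_one_zsmul] at h7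
  have h8 : l.alternatingSum = 0 := by
    exact eq_zero_of_neg_eq h7.symm
  rw [← hl, h8] at h4
  have h9 : Nat.ofDigits (b : ℤ) (Nat.digits b n) = (n : ℤ) := by
    rw [← Nat.coe_ofDigits, Nat.ofDigits_digits]
  rw [h9] at h4
  have := (Int.modEq_zero_iff_dvd).1 h4
  exact_mod_cast this

/-- polynomial against exponential -/
lemma sq_pow_le {b : ℕ} (hb : 2 ≤ b) : ∀ᶠ H : ℕ in atTop, (H:ℝ) ^ 2 * (b:ℝ) ^ (H / 15) ≤ (b:ℝ) ^ H := by
  have hbr : (2:ℝ) ≤ b := by exact_mod_cast hb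
  have h1 := tendsto_pow_const_div_const_pow_of_one_lt 4 (show (1:ℝ) < 2 by norm_num)
  filter_upwards [h1.eventually_le_const (show (0:ℝ) < 1 by norm_num)] with H hH
  rw [div_le_one (by positivity)] at hH
  obtain ⟨c, hc⟩ : ∃ c, H = H / 15 + c := ⟨H - H / 15, by omega⟩
  have h2 : (H:ℝ) ^ 2 ≤ (b:ℝ) ^ c := by
    have h3 : ((H:ℝ) ^ 2) ^ 2 ≤ ((b:ℝ) ^ c) ^ 2 := by
      calc ((H:ℝ) ^ 2) ^ 2 = (H:ℝ) ^ 4 := by ring
        _ ≤ 2 ^ H := hH
        _ ≤ (b:ℝ) ^ H := pow_le_pow_left₀ (by norm_num) hbr H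
        _ ≤ (b:ℝ) ^ (c * 2) := pow_le_pow_right₀ (by linarith) (by omega)
        _ = ((b:ℝ) ^ c) ^ 2 := by rw [pow_mul]
    exact (pow_le_pow_iff_left₀ (by positivity) (by positivity) (by norm_num)).1 h3
  calc (H:ℝ) ^ 2 * (b:ℝ) ^ (H / 15) ≤ (b:ℝ) ^ c * (b:ℝ) ^ (H / 15) := by gcongr
    _ = (b:ℝ) ^ (H / 15 + c) := by rw [pow_add, mul_comm]
    _ = (b:ℝ) ^ H := by rw [← hc]

/-- large squares below `b ^ (2 H + 2)` -/
lemma squares_upto {b : ℕ} (hb : 2 ≤ b) : ∃ C : ℝ, 0 < C ∧ ∀ᶠ H : ℕ in atTop, ∀ G : Finset ℕ,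
    (∀ n ∈ G, ∃ h ≤ H, n ∈ FF b h ∧ ∃ d, b ^ (H / 15) ≤ d ∧ d ^ 2 ∣ n) →
    (G.card : ℝ) ≤ C * (b:ℝ) ^ H / (H:ℝ) ^ 2 := by
  classical
  have hb0 : 0 < b := by omega
  have hbr : (2:ℝ) ≤ b := by exact_mod_cast hb
  obtain ⟨s₀, h₀, ht⟩ := tail hb 3 (by norm_num)
  refine ⟨2 * b + 42 * 900 * (b:ℝ) ^ 5, by positivity, ?_⟩
  filter_upwards [sq_pow_le hb, eventually_ge_atTop (15 * (s₀ + h₀ + 1))] with H hH1 hH2 G hG
  obtain ⟨σ, hσ⟩ : ∃ σ, σ = H / 15 := ⟨_, rfl⟩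
  rw [← hσ] at hG hH1
  have hσ1 : 1 ≤ σ := by omega
  have hσ2 : s₀ ≤ σ := by omega
  have hσ3 : h₀ ≤ σ := by omega
  have hσr : (H:ℝ) ≤ 30 * σ := by
    have : H ≤ 30 * σ := by omega
    exact_mod_cast this
  have hHp : (0:ℝ) < H := by
    have : 0 < H := by omega
    exact_mod_cast this
  have hσp : (0:ℝ) < σ := by exact_mod_cast hσ1
  have h1 : G ⊆ (range (H + 1)).biUnion (fun h => (FF b h).filter (fun n => ∃ d, b ^ σ ≤ d ∧ d ^ 2 ∣ n)) := by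
    intro n hn
    obtain ⟨h, hh, h2, h3⟩ := hG n hn
    rw [mem_biUnion]
    exact ⟨h, mem_range.2 (by omega), mem_filter.2 ⟨h2, h3⟩⟩
  have h2 : (G.card : ℝ) ≤ ∑ h ∈ range (H + 1),
      (((FF b h).filter (fun n => ∃ d, b ^ σ ≤ d ∧ d ^ 2 ∣ n)).card : ℝ) := by
    exact_mod_cast (card_le_card h1).trans card_biUnion_le
  have h3 : ∀ h ∈ range (H + 1), (((FF b h).filter (fun n => ∃ d, b ^ σ ≤ d ∧ d ^ 2 ∣ n)).card : ℝ) ≤
      (if h < σ then (b:ℝ) ^ (h + 1) else 0) + 21 * (b:ℝ) ^ (h + 5) / (σ:ℝ) ^ 2 := by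
    intro h _
    by_cases hlt : h < σ
    · rw [if_pos hlt]
      have := (card_filter_le (FF b h) (fun n => ∃ d, b ^ σ ≤ d ∧ d ^ 2 ∣ n)).trans (card_FF_le hb0 h)
      have h4 : (((FF b h).filter (fun n => ∃ d, b ^ σ ≤ d ∧ d ^ 2 ∣ n)).card : ℝ) ≤ (b:ℝ) ^ (h + 1) := by
        exact_mod_cast this
      have h5 : (0:ℝ) ≤ 21 * (b:ℝ) ^ (h + 5) / (σ:ℝ) ^ 2 := by positivity
      linarith
    · rw [if_neg hlt, zero_add]
      push Not at hlt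
      exact ht h (by omega) σ hσ2 hlt
  have h4 : ∑ h ∈ range (H + 1), (if h < σ then (b:ℝ) ^ (h + 1) else 0) ≤ 2 * b * (b:ℝ) ^ σ := by
    rw [← sum_filter]
    have e1 : (range (H + 1)).filter (fun h => h < σ) ⊆ range (σ + 1) := by
      intro h hh
      rw [mem_filter] at hh
      exact mem_range.2 (by omega)
    refine (sum_le_sum_of_subset_of_nonneg e1 (fun h _ _ => by positivity)).trans ?_
    have e2 : ∑ h ∈ range (σ + 1), (b:ℝ) ^ (h + 1) = b * ∑ h ∈ range (σ + 1), (b:ℝ) ^ h := by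
      rw [mul_sum]
      exact sum_congr rfl fun h _ => by ring
    rw [e2]
    have := geom_le hb σ
    nlinarith
  have h5 : ∑ h ∈ range (H + 1), 21 * (b:ℝ) ^ (h + 5) / (σ:ℝ) ^ 2 ≤ 42 * (b:ℝ) ^ 5 * (b:ℝ) ^ H / (σ:ℝ) ^ 2 := by
    rw [← sum_div]
    apply div_le_div_of_nonneg_right _ (by positivity)
    have e2 : ∑ h ∈ range (H + 1), 21 * (b:ℝ) ^ (h + 5) = 21 * (b:ℝ) ^ 5 * ∑ h ∈ range (H + 1), (b:ℝ) ^ h := by
      rw [mul_sum]
      exact sum_congr rfl fun h _ => by ring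
    rw [e2]
    have := geom_le hb H
    have h6 : (0:ℝ) ≤ 21 * (b:ℝ) ^ 5 := by positivity
    nlinarith [mul_le_mul_of_nonneg_left this h6]
  have h6 : (G.card : ℝ) ≤ 2 * b * (b:ℝ) ^ σ + 42 * (b:ℝ) ^ 5 * (b:ℝ) ^ H / (σ:ℝ) ^ 2 := by
    refine h2.trans ((sum_le_sum h3).trans ?_)
    rw [sum_add_distrib]
    linarith
  refine h6.trans ?_
  have h7 : 2 * b * (b:ℝ) ^ σ ≤ 2 * b * (b:ℝ) ^ H / (H:ℝ) ^ 2 := by
    rw [le_div_iff₀ (by positivity)]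
    calc 2 * (b:ℝ) * (b:ℝ) ^ σ * (H:ℝ) ^ 2 = 2 * b * ((H:ℝ) ^ 2 * (b:ℝ) ^ σ) := by ring
      _ ≤ 2 * b * (b:ℝ) ^ H := by gcongr
  have h8 : 42 * (b:ℝ) ^ 5 * (b:ℝ) ^ H / (σ:ℝ) ^ 2 ≤ 42 * 900 * (b:ℝ) ^ 5 * (b:ℝ) ^ H / (H:ℝ) ^ 2 := by
    rw [div_le_div_iff₀ (by positivity) (by positivity)]
    have e : (H:ℝ) ^ 2 ≤ 900 * (σ:ℝ) ^ 2 := by nlinarith
    have e2 : (0:ℝ) ≤ 42 * (b:ℝ) ^ 5 * (b:ℝ) ^ H := by positivity
    nlinarith [mul_le_mul_of_nonneg_left e e2]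
  calc _ ≤ 2 * b * (b:ℝ) ^ H / (H:ℝ) ^ 2 + 42 * 900 * (b:ℝ) ^ 5 * (b:ℝ) ^ H / (H:ℝ) ^ 2 := add_le_add h7 h8
    _ = _ := by ring

/-- palindromes all of whose prime factors are large are squarefree up to a negligible number -/
theorem rough_not_squarefree {b : ℕ} (hb : 2 ≤ b) (ε : ℝ) (hε : 0 < ε) : ∀ᶠ x : ℕ in atTop,
    ∀ G : Finset ℕ, (∀ n ∈ G, n ∈ Icc 1 x ∧ (Nat.digits b n).reverse = Nat.digits b n ∧
      (∀ p ∈ n.primeFactorsList, (x : ℝ) ^ (1 / 30 : ℝ) < p) ∧ ¬ Squarefree n) →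
    (G.card : ℝ) ≤ ε * ((PX b x).card : ℝ) / Real.log x := by
  have hb0 : 0 < b := by omega
  have hbr : (2:ℝ) ≤ b := by exact_mod_cast hb
  have hlb : 0 < Real.log b := Real.log_pos (by linarith)
  obtain ⟨C, hC, hCH⟩ := squares_upto hb
  obtain ⟨H₀, hH₀⟩ := eventually_atTop.1 hCH
  obtain ⟨H₁, hH₁⟩ := exists_nat_gt (4 * C * b * Real.log b / ε)
  have hx30 : ∀ᶠ x : ℕ in atTop, ((b:ℝ) + 1) ≤ (x : ℝ) ^ (1 / 30 : ℝ) := by
    have h1 : Tendsto (fun x : ℕ => (x : ℝ) ^ (1 / 30 : ℝ)) atTop atTop :=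
      (tendsto_rpow_atTop (by norm_num)).comp tendsto_natCast_atTop_atTop
    exact h1.eventually_ge_atTop _
  filter_upwards [hx30, eventually_ge_atTop (b ^ (2 * (max H₀ H₁ + 2)))] with x hx1 hx2 G hG
  have hx0 : 1 ≤ x := le_trans (Nat.one_le_pow _ _ hb0) hx2
  obtain ⟨H', hH1, hH2⟩ := exists_H hb hx0
  have hHbig : max H₀ H₁ + 2 ≤ H' := by
    by_contra hcon
    push Not at hcon
    have : b ^ (2 * H' + 2) ≤ b ^ (2 * (max H₀ H₁ + 2)) := Nat.pow_le_pow_right hb0 (by omega)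
    omega
  obtain ⟨H, rfl⟩ : ∃ H, H' = H + 2 := ⟨H' - 2, by omega⟩
  have hkey : ∀ n ∈ G, ∃ h ≤ H + 2, n ∈ FF b h ∧ ∃ d, b ^ ((H + 2) / 15) ≤ d ∧ d ^ 2 ∣ n := by
    intro n hn
    obtain ⟨h1, h2, h3, h4⟩ := hG n hn
    rw [mem_Icc] at h1
    have hn0 : n ≠ 0 := by omega
    have hbig : ∀ p : ℕ, p.Prime → p ∣ n → b + 1 < p := by
      intro p hp hpn
      have := h3 p ((Nat.mem_primeFactorsList hn0).2 ⟨hp, hpn⟩)
      have h5 : ((b + 1 : ℕ) : ℝ) < p := by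
        push_cast
        linarith
      exact_mod_cast h5
    have hcop : n.Coprime b := by
      rw [Nat.coprime_iff_gcd_eq_one]
      by_contra hne
      obtain ⟨p, hp, hpg⟩ := Nat.exists_prime_and_dvd hne
      have h5 := hbig p hp (dvd_trans hpg (Nat.gcd_dvd_left _ _))
      have h6 := Nat.le_of_dvd hb0 (dvd_trans hpg (Nat.gcd_dvd_right _ _))
      omega
    have hodd : Odd (Nat.digits b n).length := by
      rw [← Nat.not_even_iff_odd]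
      intro hev
      have h5 := even_dvd n h2 hev
      obtain ⟨p, hp, hpb⟩ := Nat.exists_prime_and_dvd (show b + 1 ≠ 1 by omega)
      have h6 := hbig p hp (dvd_trans hpb h5)
      have h7 := Nat.le_of_dvd (by omega) hpb
      omega
    obtain ⟨h, hh⟩ := hodd
    have hlen : (Nat.digits b n).length ≤ 2 * (H + 2) + 2 := by
      rw [Nat.digits_length_le_iff (by omega)]
      omega
    refine ⟨h, by omega, (mem_FF_iff hb h n).2 ⟨h2, hh, hcop⟩, ?_⟩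
    rw [Nat.squarefree_iff_prime_squarefree] at h4
    push Not at h4
    obtain ⟨p, hp, hpn⟩ := h4
    rw [← pow_two] at hpn
    refine ⟨p, ?_, hpn⟩
    have h5 := h3 p ((Nat.mem_primeFactorsList hn0).2 ⟨hp, dvd_trans (dvd_pow_self p (by norm_num)) hpn⟩)
    have h6 : (b:ℝ) ^ ((H + 2) / 15) ≤ (x:ℝ) ^ (1 / 30 : ℝ) := by
      have h7 : ((b:ℝ) ^ ((H + 2) / 15)) ^ 30 ≤ (x:ℝ) := by
        rw [← pow_mul]
        calc (b:ℝ) ^ ((H + 2) / 15 * 30) ≤ (b:ℝ) ^ (2 * (H + 2)) :=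
              pow_le_pow_right₀ (by linarith) (by omega)
          _ ≤ x := by exact_mod_cast hH1
      calc (b:ℝ) ^ ((H + 2) / 15) = (((b:ℝ) ^ ((H + 2) / 15)) ^ 30) ^ (1 / 30 : ℝ) := by
            have e30 := Real.pow_rpow_inv_natCast (x := (b:ℝ) ^ ((H + 2) / 15)) (n := 30)
              (by positivity) (by norm_num)
            rw [one_div]
            exact_mod_cast e30.symm
        _ ≤ (x:ℝ) ^ (1 / 30 : ℝ) := Real.rpow_le_rpow (by positivity) h7 (by norm_num)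
    have h8 : ((b ^ ((H + 2) / 15) : ℕ) : ℝ) < p := by
      push_cast
      linarith
    exact_mod_cast h8.le
  have hfin := hH₀ (H + 2) (by omega) G hkey
  refine hfin.trans ?_
  -- comparison
  have hc1 := cand_lower hb hH1
  have hc2 : (Cand b x).card ≤ (PX b x).card := by
    apply card_le_card
    intro n hn
    unfold Cand at hn
    unfold PX
    rw [mem_filter] at hn ⊢
    exact ⟨hn.1, hn.2.1⟩
  have hP : (b:ℝ) ^ (H + 1) ≤ ((PX b x).card : ℝ) := by exact_mod_cast hc1.trans hc2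
  have hlog0 : 0 < Real.log x := by
    apply Real.log_pos
    have : 1 < x := by
      have : 2 ^ 1 ≤ b ^ (2 * (max H₀ H₁ + 2)) :=
        (Nat.pow_le_pow_left hb 1).trans (Nat.pow_le_pow_right hb0 (by omega))
      omega
    exact_mod_cast this
  have hlog : Real.log x ≤ (2 * (H + 2) + 2) * Real.log b := by
    have h1 : (x:ℝ) ≤ (b:ℝ) ^ (2 * (H + 2) + 2) := by exact_mod_cast hH2.le
    calc Real.log x ≤ Real.log ((b:ℝ) ^ (2 * (H + 2) + 2)) :=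
          Real.log_le_log (by exact_mod_cast hx0) h1
      _ = _ := by rw [Real.log_pow]; push_cast; ring
  have hHr : 4 * C * b * Real.log b / ε < ((H + 2 : ℕ) : ℝ) := by
    have : (H₁:ℝ) ≤ ((H + 2 : ℕ) : ℝ) := by exact_mod_cast (by omega : H₁ ≤ H + 2)
    linarith
  rw [div_lt_iff₀ hε] at hHr
  rw [div_le_div_iff₀ (by positivity) hlog0]
  have hH2p : (2:ℝ) ≤ ((H + 2 : ℕ) : ℝ) := by exact_mod_cast (by omega : 2 ≤ H + 2)
  obtain ⟨K, hK⟩ : ∃ K : ℝ, K = ((H + 2 : ℕ) : ℝ) := ⟨_, rfl⟩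
  have hlog' : Real.log x ≤ 4 * K * Real.log b := by
    refine hlog.trans ?_
    apply mul_le_mul_of_nonneg_right _ hlb.le
    rw [hK]
    push_cast
    linarith
  rw [← hK] at hHr hH2p ⊢
  have hBp : (0:ℝ) < (b:ℝ) ^ (H + 1) := by positivity
  have e1 : C * (b:ℝ) ^ (H + 2) * Real.log x ≤ C * (b:ℝ) ^ (H + 2) * (4 * K * Real.log b) := by
    apply mul_le_mul_of_nonneg_left hlog' (by positivity)
  have e2 : C * (b:ℝ) ^ (H + 2) * (4 * K * Real.log b) = (4 * C * b * Real.log b) * ((b:ℝ) ^ (H + 1) * K) := by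
    rw [show H + 2 = (H + 1) + 1 by ring, pow_succ (b:ℝ) (H + 1)]
    ring
  have e3 : (4 * C * b * Real.log b) * ((b:ℝ) ^ (H + 1) * K) ≤ (K * ε) * ((b:ℝ) ^ (H + 1) * K) := by
    apply mul_le_mul_of_nonneg_right hHr.le (by positivity)
  have e4 : (K * ε) * ((b:ℝ) ^ (H + 1) * K) ≤ ε * ((PX b x).card : ℝ) * K ^ 2 := by
    calc (K * ε) * ((b:ℝ) ^ (H + 1) * K) = ε * (b:ℝ) ^ (H + 1) * K ^ 2 := by ring
      _ ≤ _ := by gcongr
  linarith

end Pool.Agent.H610.SqF
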