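import Mathlib

set_option autoImplicit false

/-!
# Exceptional multipliers

`ρ` injective into `ZMod q`, `c` of absolute value one: for all but `H ^ 4` multipliers `a` modulo `q`
the points `arg (ψ (a ρ_r) c_r)` are well distributed at the scale `1 / H`.
-/

namespace Pool.Agent.H610.SqF

open Finset Complex

/-- `e(t)` -/
noncomputable def ee (t : ℝ) : ℂ := Complex.exp (2 * Real.pi * I * t)

lemma ee_add (s t : ℝ) : ee (s + t) = ee s * ee t := by
  unfold ee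
  rw [← Complex.exp_add]
  congr 1
  push_cast
  ring

lemma norm_ee (t : ℝ) : ‖ee t‖ = 1 := by
  unfold ee
  rw [show (2 * (Real.pi:ℂ) * I * t) = ((2 * Real.pi * t : ℝ) : ℂ) * I by push_cast; ring,
    Complex.norm_exp_ofReal_mul_I]

lemma ee_int (m : ℤ) : ee m = 1 := by
  unfold ee
  rw [show (2 * (Real.pi:ℂ) * I * ((m:ℝ):ℂ)) = (m:ℂ) * (2 * Real.pi * I) by push_cast; ring,
    Complex.exp_int_mul_two_pi_mul_I]

lemma ee_pow (t : ℝ) (n : ℕ) : ee t ^ n = ee (n * t) := by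
  unfold ee
  rw [← Complex.exp_nat_mul]
  congr 1
  push_cast
  ring

lemma ee_re (t : ℝ) : (ee t).re = Real.cos (2 * Real.pi * t) := by
  unfold ee
  rw [show (2 * (Real.pi:ℂ) * I * t) = ((2 * Real.pi * t : ℝ) : ℂ) * I by push_cast; ring,
    Complex.exp_ofReal_mul_I_re]

lemma ee_sub_int (t : ℝ) (m : ℤ) : ee (t - m) = ee t := by
  have h := ee_add (t - m) m
  rw [ee_int, mul_one, sub_add_cancel] at h
  exact h.symm

/-- lower bound of the geometric sum near an integer -/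
lemma geom_lower (H : ℕ) (hH : 0 < H) (t : ℝ) (m : ℤ) (h : |t - m| ≤ 1 / (6 * H)) :
    (H : ℝ) / 2 ≤ ‖∑ k ∈ range H, ee t ^ k‖ := by
  have h1 : (H:ℝ) / 2 ≤ (∑ k ∈ range H, ee t ^ k).re := by
    rw [Complex.re_sum]
    have : ∀ k ∈ range H, (1:ℝ) / 2 ≤ (ee t ^ k).re := by
      intro k hk
      rw [mem_range] at hk
      rw [← ee_sub_int t m, ee_pow, ee_re]
      have hk' : (k:ℝ) ≤ H := by exact_mod_cast hk.le
      have hH' : (0:ℝ) < H := by exact_mod_cast hH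
      have h2 : |2 * Real.pi * (k * (t - m))| ≤ Real.pi / 3 := by
        rw [abs_mul (2 * Real.pi), abs_of_pos (by positivity : (0:ℝ) < 2 * Real.pi),
          abs_mul (k:ℝ), abs_of_nonneg (Nat.cast_nonneg k)]
        have h3 : (k:ℝ) * |t - m| ≤ H * (1 / (6 * H)) :=
          mul_le_mul hk' h (abs_nonneg _) hH'.le
        have h4 : (H:ℝ) * (1 / (6 * H)) = 1 / 6 := by field_simp
        rw [h4] at h3
        have := Real.pi_pos
        nlinarith
      rw [← Real.cos_abs]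
      calc (1:ℝ) / 2 = Real.cos (Real.pi / 3) := Real.cos_pi_div_three.symm
        _ ≤ _ := Real.cos_le_cos_of_nonneg_of_le_pi (abs_nonneg _)
            (by have := Real.pi_pos; linarith) h2
    calc (H:ℝ) / 2 = ∑ k ∈ range H, (1:ℝ) / 2 := by
          rw [sum_const, card_range, nsmul_eq_mul]; ring
      _ ≤ _ := sum_le_sum this
  exact h1.trans (Complex.re_le_norm _)

/-- the mean square of the geometric sums -/
lemma sum_geom_sq {ι : Type} (s : Finset ι) (z : ι → ℂ) (hz : ∀ r ∈ s, ‖z r‖ = 1) (H : ℕ)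
    (N : ℝ) (h0 : (s.card : ℝ) ≤ N) (hk : ∀ k, 1 ≤ k → k < H → ‖∑ r ∈ s, z r ^ k‖ ≤ N / H) :
    ∑ r ∈ s, ‖∑ k ∈ range H, z r ^ k‖ ^ 2 ≤ 2 * H * N := by
  have hN : 0 ≤ N := (Nat.cast_nonneg _).trans h0
  rcases Nat.eq_zero_or_pos H with rfl | hH
  · simp
  have hH' : (0:ℝ) < H := by exact_mod_cast hH
  have e1 : ((∑ r ∈ s, ‖∑ k ∈ range H, z r ^ k‖ ^ 2 : ℝ) : ℂ) =
      ∑ k ∈ range H, ∑ l ∈ range H, ∑ r ∈ s, z r ^ k * (starRingEnd ℂ) (z r) ^ l := by
    push_cast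
    have : ∀ r ∈ s, ((‖∑ k ∈ range H, z r ^ k‖ : ℂ)) ^ 2 =
        ∑ k ∈ range H, ∑ l ∈ range H, z r ^ k * (starRingEnd ℂ) (z r) ^ l := by
      intro r _
      rw [← Complex.mul_conj', map_sum, sum_mul_sum]
      simp only [map_pow]
    rw [sum_congr rfl this, sum_comm]
    refine sum_congr rfl fun k _ => ?_
    rw [sum_comm]
  have e2 : ∀ k ∈ range H, ∀ l ∈ range H,
      ‖∑ r ∈ s, z r ^ k * (starRingEnd ℂ) (z r) ^ l‖ ≤ if k = l then N else N / H := by
    intro k hk' l hl'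
    rw [mem_range] at hk' hl'
    have zz : ∀ r ∈ s, z r * (starRingEnd ℂ) (z r) = 1 := by
      intro r hr
      rw [Complex.mul_conj', hz r hr]
      norm_num
    rcases lt_trichotomy k l with h | h | h
    · rw [if_neg (by omega)]
      have : ∀ r ∈ s, z r ^ k * (starRingEnd ℂ) (z r) ^ l = (starRingEnd ℂ) (z r ^ (l - k)) := by
        intro r hr
        conv_lhs => rw [show l = k + (l - k) by omega, pow_add, ← mul_assoc, ← mul_pow, zz r hr,
          one_pow, one_mul]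
        rw [map_pow]
      rw [sum_congr rfl this, ← map_sum, Complex.norm_conj]
      exact hk _ (by omega) (by omega)
    · rw [if_pos h]
      subst h
      have : ∀ r ∈ s, z r ^ k * (starRingEnd ℂ) (z r) ^ k = 1 := by
        intro r hr
        rw [← mul_pow, zz r hr, one_pow]
      rw [sum_congr rfl this, sum_const, nsmul_eq_mul, mul_one, Complex.norm_natCast]
      exact h0
    · rw [if_neg (by omega)]
      have : ∀ r ∈ s, z r ^ k * (starRingEnd ℂ) (z r) ^ l = z r ^ (k - l) := by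
        intro r hr
        conv_lhs => rw [show k = (k - l) + l by omega, pow_add, mul_assoc, ← mul_pow, zz r hr,
          one_pow, mul_one]
      rw [sum_congr rfl this]
      exact hk _ (by omega) (by omega)
  have e3 : ∑ r ∈ s, ‖∑ k ∈ range H, z r ^ k‖ ^ 2 =
      ‖((∑ r ∈ s, ‖∑ k ∈ range H, z r ^ k‖ ^ 2 : ℝ) : ℂ)‖ := by
    rw [Complex.norm_real, Real.norm_eq_abs, abs_of_nonneg (sum_nonneg fun _ _ => sq_nonneg _)]
  rw [e3, e1]
  refine (norm_sum_le _ _).trans ?_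
  calc ∑ k ∈ range H, ‖∑ l ∈ range H, ∑ r ∈ s, z r ^ k * (starRingEnd ℂ) (z r) ^ l‖
      ≤ ∑ k ∈ range H, ∑ l ∈ range H, (if k = l then N else N / H) := by
        refine sum_le_sum fun k hk' => (norm_sum_le _ _).trans ?_
        exact sum_le_sum fun l hl' => e2 k hk' l hl'
    _ ≤ ∑ k ∈ range H, ∑ l ∈ range H, ((if k = l then N else 0) + N / H) := by
        refine sum_le_sum fun k _ => sum_le_sum fun l _ => ?_
        split_ifs
        · have : 0 ≤ N / H := by positivity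
          linarith
        · linarith
    _ = 2 * H * N := by
        simp only [sum_add_distrib, sum_const, card_range, nsmul_eq_mul, sum_ite_eq, mem_range]
        rw [sum_congr rfl (fun k hk' => if_pos (mem_range.1 hk'))]
        rw [sum_const, card_range, nsmul_eq_mul]
        field_simp
        ring

/-- the number of points near integers -/
theorem window {ι : Type} (s : Finset ι) (z : ι → ℂ) (hz : ∀ r ∈ s, ‖z r‖ = 1) (H : ℕ)
    (hH : 0 < H) (N : ℝ) (h0 : (s.card : ℝ) ≤ N)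
    (hk : ∀ k, 1 ≤ k → k < H → ‖∑ r ∈ s, z r ^ k‖ ≤ N / H) (w : ℂ) (hw : ‖w‖ = 1) (t : ι → ℝ)
    (ht : ∀ r ∈ s, ee (t r) = z r * w) (T : Finset ι) (hTs : T ⊆ s)
    (hT : ∀ r ∈ T, ∃ m : ℤ, |t r - m| ≤ 1 / (6 * H)) : (T.card : ℝ) ≤ 8 * N / H := by
  have hH' : (0:ℝ) < H := by exact_mod_cast hH
  have hz' : ∀ r ∈ s, ‖z r * w‖ = 1 := fun r hr => by rw [norm_mul, hz r hr, hw, one_mul]
  have hk' : ∀ k, 1 ≤ k → k < H → ‖∑ r ∈ s, (z r * w) ^ k‖ ≤ N / H := by
    intro k h1 h2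
    have : ∑ r ∈ s, (z r * w) ^ k = (∑ r ∈ s, z r ^ k) * w ^ k := by
      rw [sum_mul]
      exact sum_congr rfl fun r _ => mul_pow _ _ _
    rw [this, norm_mul, norm_pow, hw, one_pow, mul_one]
    exact hk k h1 h2
  have h1 := sum_geom_sq s (fun r => z r * w) hz' H N h0 hk'
  have h2 : (T.card : ℝ) * ((H:ℝ) / 2) ^ 2 ≤ 2 * H * N := by
    calc (T.card : ℝ) * ((H:ℝ) / 2) ^ 2 = ∑ r ∈ T, ((H:ℝ) / 2) ^ 2 := by
          rw [sum_const, nsmul_eq_mul]
      _ ≤ ∑ r ∈ T, ‖∑ k ∈ range H, (z r * w) ^ k‖ ^ 2 := by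
          refine sum_le_sum fun r hr => ?_
          obtain ⟨m, hm⟩ := hT r hr
          have h3 := geom_lower H hH (t r) m hm
          rw [ht r (hTs hr)] at h3
          exact pow_le_pow_left₀ (by positivity) h3 2
      _ ≤ ∑ r ∈ s, ‖∑ k ∈ range H, (z r * w) ^ k‖ ^ 2 :=
          sum_le_sum_of_subset_of_nonneg hTs fun _ _ _ => sq_nonneg _
      _ ≤ _ := h1
  rw [le_div_iff₀ hH']
  have h4 : (T.card : ℝ) * H * (H / 4) ≤ 8 * N * (H / 4) := by nlinarith
  exact le_of_mul_le_mul_right h4 (by positivity)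

/-- solutions of `k x = 0` -/
lemma card_mul_zero (q k : ℕ) [NeZero q] (hk : 0 < k) :
    ((univ : Finset (ZMod q)).filter (fun x => (k : ZMod q) * x = 0)).card ≤ k := by
  have hq0 : 0 < q := NeZero.pos q
  have h1 : ((univ : Finset (ZMod q)).filter (fun x => (k : ZMod q) * x = 0)).card ≤
      (range k).card := by
    refine Finset.card_le_card_of_injOn (fun x => k * x.val / q) ?_ ?_
    · intro x _
      simp only [coe_range, Set.mem_Iio]
      rw [Nat.div_lt_iff_lt_mul hq0]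
      exact Nat.mul_lt_mul_of_pos_left (ZMod.val_lt x) hk
    · intro x hx y hy hxy
      simp only [coe_filter, mem_univ, true_and, Set.mem_ofPred_eq] at hx hy hxy
      have key : ∀ u : ZMod q, (k : ZMod q) * u = 0 → q ∣ k * u.val := by
        intro u hu
        rw [← ZMod.natCast_eq_zero_iff]
        push_cast
        rw [ZMod.natCast_zmod_val, hu]
      have h2 : k * x.val = k * y.val := by
        rw [← Nat.div_mul_cancel (key x hx), ← Nat.div_mul_cancel (key y hy), hxy]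
      exact ZMod.val_injective q (Nat.eq_of_mul_eq_mul_left hk h2)
  rwa [card_range] at h1

open Classical in
/-- second moment over the multipliers -/
lemma second_moment (q : ℕ) [NeZero q] (ρ : ℕ → ZMod q)
    (hρ : Set.InjOn ρ (range q)) (c : ℕ → ℂ) (hc : ∀ r, ‖c r‖ = 1) (k : ℕ) (hk : 0 < k) :
    ∑ a : ZMod q, ‖∑ r ∈ range q, (ZMod.stdAddChar (a * ρ r) * c r) ^ k‖ ^ 2 ≤
      (q:ℝ) ^ 2 * k := by
  have e1 : ((∑ a : ZMod q, ‖∑ r ∈ range q, (ZMod.stdAddChar (a * ρ r) * c r) ^ k‖ ^ 2 : ℝ) : ℂ) =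
      ∑ r ∈ range q, ∑ r' ∈ range q, (c r ^ k * (starRingEnd ℂ) (c r') ^ k) *
        ∑ a : ZMod q, ZMod.stdAddChar (a * ((k : ZMod q) * (ρ r - ρ r'))) := by
    push_cast
    have : ∀ a : ZMod q, ((‖∑ r ∈ range q, (ZMod.stdAddChar (a * ρ r) * c r) ^ k‖ : ℂ)) ^ 2 =
        ∑ r ∈ range q, ∑ r' ∈ range q, (c r ^ k * (starRingEnd ℂ) (c r') ^ k) *
          ZMod.stdAddChar (a * ((k : ZMod q) * (ρ r - ρ r'))) := by
      intro a
      rw [← Complex.mul_conj', map_sum, sum_mul_sum]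
      refine sum_congr rfl fun r _ => sum_congr rfl fun r' _ => ?_
      rw [map_pow, map_mul (starRingEnd ℂ), mul_pow, mul_pow]
      have h1 : (starRingEnd ℂ) (ZMod.stdAddChar (a * ρ r')) = ZMod.stdAddChar (-(a * ρ r')) := by
        rw [AddChar.map_neg_eq_conj]
      rw [h1, ← AddChar.map_nsmul_eq_pow, ← AddChar.map_nsmul_eq_pow]
      have h2 : a * ((k : ZMod q) * (ρ r - ρ r')) = k • (a * ρ r) + k • (-(a * ρ r')) := by
        rw [nsmul_eq_mul, nsmul_eq_mul]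
        ring
      rw [h2, AddChar.map_add_eq_mul]
      ring
    rw [sum_congr rfl (fun a _ => this a), sum_comm]
    refine sum_congr rfl fun r _ => ?_
    rw [sum_comm]
    refine sum_congr rfl fun r' _ => ?_
    rw [mul_sum]
  have e3 : ∑ a : ZMod q, ‖∑ r ∈ range q, (ZMod.stdAddChar (a * ρ r) * c r) ^ k‖ ^ 2 =
      ‖((∑ a : ZMod q, ‖∑ r ∈ range q, (ZMod.stdAddChar (a * ρ r) * c r) ^ k‖ ^ 2 : ℝ) : ℂ)‖ := by
    rw [Complex.norm_real, Real.norm_eq_abs, abs_of_nonneg (sum_nonneg fun _ _ => sq_nonneg _)]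
  rw [e3, e1]
  refine (norm_sum_le _ _).trans ?_
  have e4 : ∀ r ∈ range q, ‖∑ r' ∈ range q, (c r ^ k * (starRingEnd ℂ) (c r') ^ k) *
        ∑ a : ZMod q, ZMod.stdAddChar (a * ((k : ZMod q) * (ρ r - ρ r')))‖ ≤ q * k := by
    intro r _
    refine (norm_sum_le _ _).trans ?_
    have e5 : ∀ r' ∈ range q, ‖(c r ^ k * (starRingEnd ℂ) (c r') ^ k) *
        ∑ a : ZMod q, ZMod.stdAddChar (a * ((k : ZMod q) * (ρ r - ρ r')))‖ =
        if (k : ZMod q) * (ρ r - ρ r') = 0 then (q:ℝ) else 0 := by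
      intro r' _
      rw [AddChar.sum_mulShift _ (ZMod.isPrimitive_stdAddChar q), norm_mul, norm_mul, norm_pow,
        norm_pow, Complex.norm_conj, hc, hc, one_pow, one_mul, one_mul, ZMod.card]
      split_ifs
      · rw [Complex.norm_natCast]
      · simp
    rw [sum_congr rfl e5, ← sum_filter, sum_const, nsmul_eq_mul, mul_comm (q:ℝ)]
    have e6 : ((range q).filter (fun r' => (k : ZMod q) * (ρ r - ρ r') = 0)).card ≤ k := by
      refine le_trans ?_ (card_mul_zero q k hk)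
      refine Finset.card_le_card_of_injOn (fun r' => ρ r - ρ r') ?_ ?_
      · intro r' hr'
        simp only [coe_filter, Set.mem_ofPred_eq, mem_univ, true_and] at hr' ⊢
        exact hr'.2
      · intro x hx y hy hxy
        simp only [coe_filter, Set.mem_ofPred_eq] at hx hy hxy
        exact hρ hx.1 hy.1 (by linear_combination -hxy)
    have e7 : ((((range q).filter (fun r' => (k : ZMod q) * (ρ r - ρ r') = 0)).card : ℕ) : ℝ) ≤ k := by
      exact_mod_cast e6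
    nlinarith [(Nat.cast_nonneg q : (0:ℝ) ≤ q)]
  calc _ ≤ ∑ r ∈ range q, (q * k : ℝ) := sum_le_sum e4
    _ = (q:ℝ) ^ 2 * k := by rw [sum_const, card_range, nsmul_eq_mul]; ring

open Classical in
/-- the exceptional multipliers -/
noncomputable def Exc (q : ℕ) [NeZero q] (ρ : ℕ → ZMod q) (c : ℕ → ℂ) (H : ℕ) : Finset (ZMod q) :=
  univ.filter (fun a => ∃ k, 1 ≤ k ∧ k < H ∧
    (q:ℝ) / H < ‖∑ r ∈ range q, (ZMod.stdAddChar (a * ρ r) * c r) ^ k‖)

theorem card_Exc (q : ℕ) [NeZero q] (ρ : ℕ → ZMod q)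
    (hρ : Set.InjOn ρ (range q)) (c : ℕ → ℂ) (hc : ∀ r, ‖c r‖ = 1) (H : ℕ) :
    (Exc q ρ c H).card ≤ H ^ 4 := by
  classical
  have hq : (0:ℝ) < q := by exact_mod_cast NeZero.pos q
  rcases Nat.eq_zero_or_pos H with rfl | hH
  · have : Exc q ρ c 0 = ∅ := by
      unfold Exc
      apply filter_eq_empty_iff.2
      rintro a _ ⟨k, _, h, _⟩
      omega
    rw [this]
    simp
  have hH' : (0:ℝ) < H := by exact_mod_cast hH
  have h1 : ∀ k ∈ Ico 1 H, ((univ : Finset (ZMod q)).filter (fun a =>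
      (q:ℝ) / H < ‖∑ r ∈ range q, (ZMod.stdAddChar (a * ρ r) * c r) ^ k‖)).card ≤ H ^ 3 := by
    intro k hk
    rw [mem_Ico] at hk
    set F := (univ : Finset (ZMod q)).filter (fun a =>
      (q:ℝ) / H < ‖∑ r ∈ range q, (ZMod.stdAddChar (a * ρ r) * c r) ^ k‖) with hF
    have h2 : (F.card : ℝ) * ((q:ℝ) / H) ^ 2 ≤ (q:ℝ) ^ 2 * k := by
      calc (F.card : ℝ) * ((q:ℝ) / H) ^ 2 = ∑ a ∈ F, ((q:ℝ) / H) ^ 2 := by
            rw [sum_const, nsmul_eq_mul]
        _ ≤ ∑ a ∈ F, ‖∑ r ∈ range q, (ZMod.stdAddChar (a * ρ r) * c r) ^ k‖ ^ 2 := by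
            refine sum_le_sum fun a ha => ?_
            rw [hF, mem_filter] at ha
            exact pow_le_pow_left₀ (by positivity) ha.2.le 2
        _ ≤ ∑ a : ZMod q, ‖∑ r ∈ range q, (ZMod.stdAddChar (a * ρ r) * c r) ^ k‖ ^ 2 :=
            sum_le_sum_of_subset_of_nonneg (subset_univ _) fun _ _ _ => sq_nonneg _
        _ ≤ _ := second_moment q ρ hρ c hc k (by omega)
    have h3 : (F.card : ℝ) ≤ (H:ℝ) ^ 3 := by
      have h4 : (F.card : ℝ) * ((q:ℝ) / H) ^ 2 = F.card / (H:ℝ) ^ 2 * (q:ℝ) ^ 2 := by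
        field_simp
      rw [h4, mul_comm ((q:ℝ) ^ 2)] at h2
      have h5 := le_of_mul_le_mul_right h2 (by positivity : (0:ℝ) < (q:ℝ) ^ 2)
      rw [div_le_iff₀ (by positivity)] at h5
      have h6 : (k:ℝ) ≤ H := by exact_mod_cast hk.2.le
      calc (F.card : ℝ) ≤ k * (H:ℝ) ^ 2 := h5
        _ ≤ H * (H:ℝ) ^ 2 := by gcongr
        _ = _ := by ring
    exact_mod_cast h3
  have h7 : Exc q ρ c H ⊆ (Ico 1 H).biUnion (fun k => (univ : Finset (ZMod q)).filter (fun a =>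
      (q:ℝ) / H < ‖∑ r ∈ range q, (ZMod.stdAddChar (a * ρ r) * c r) ^ k‖)) := by
    intro a ha
    unfold Exc at ha
    rw [mem_filter] at ha
    obtain ⟨_, k, hk1, hk2, hk3⟩ := ha
    rw [mem_biUnion]
    exact ⟨k, mem_Ico.2 ⟨hk1, hk2⟩, mem_filter.2 ⟨mem_univ _, hk3⟩⟩
  calc (Exc q ρ c H).card ≤ _ := card_le_card h7
    _ ≤ ∑ k ∈ Ico 1 H, H ^ 3 := card_biUnion_le.trans (sum_le_sum h1)
    _ = (H - 1) * H ^ 3 := by rw [sum_const, Nat.card_Ico, smul_eq_mul]
    _ ≤ H * H ^ 3 := Nat.mul_le_mul_right _ (by omega)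
    _ = H ^ 4 := by ring

/-- away from the exceptional multipliers -/
theorem window_of_notMem {q : ℕ} [NeZero q] {ρ : ℕ → ZMod q} {c : ℕ → ℂ} (hc : ∀ r, ‖c r‖ = 1)
    {H : ℕ} (hH : 0 < H) {a : ZMod q} (ha : a ∉ Exc q ρ c H) (τ : ℝ) (t : ℕ → ℝ)
    (ht : ∀ r ∈ range q, ee (t r) = ZMod.stdAddChar (a * ρ r) * c r * ee τ) (T : Finset ℕ)
    (hTs : T ⊆ range q) (hT : ∀ r ∈ T, ∃ m : ℤ, |t r - m| ≤ 1 / (6 * H)) :
    (T.card : ℝ) ≤ 8 * q / H := by
  classical
  refine window (range q) (fun r => ZMod.stdAddChar (a * ρ r) * c r) ?_ H hH q ?_ ?_ (ee τ)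
    (norm_ee τ) t ht T hTs hT
  · intro r _
    show ‖ZMod.stdAddChar (a * ρ r) * c r‖ = 1
    rw [norm_mul, hc, mul_one]
    exact AddChar.norm_apply _ _
  · rw [card_range]
  · intro k h1 h2
    by_contra hcon
    exact ha (mem_filter.2 ⟨mem_univ _, k, h1, h2, not_le.1 hcon⟩)

end Pool.Agent.H610.SqF
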