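import Mathlib

set_option autoImplicit false

/-!
# Square roots modulo `q`, divisors of powers
-/

namespace Pool.Agent.H610.SqF

open Finset

/-- for a divisor `e` of `q`, the residues divisible by `e` -/
lemma card_dvd_val (q e : ℕ) [NeZero q] (he : e ∣ q) :
    ((univ : Finset (ZMod q)).filter (fun x => e ∣ x.val)).card ≤ q / e := by
  have he0 : 0 < e := Nat.pos_of_dvd_of_pos he (NeZero.pos q)
  have h1 : ((univ : Finset (ZMod q)).filter (fun x => e ∣ x.val)).card ≤
      (range (q / e)).card := by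
    refine Finset.card_le_card_of_injOn (fun x => x.val / e) ?_ ?_
    · intro x hx
      simp only [coe_range, Set.mem_Iio]
      have := ZMod.val_lt x
      rw [Nat.div_lt_iff_lt_mul he0, Nat.div_mul_cancel he]
      exact this
    · intro x hx y hy hxy
      simp only [coe_filter, mem_univ, true_and, Set.mem_ofPred_eq] at hx hy hxy
      apply ZMod.val_injective q
      rw [← Nat.div_mul_cancel hx, ← Nat.div_mul_cancel hy, hxy]
  rwa [card_range] at h1

open Classical in
/-- the number of invertible square roots of a residue modulo `q` -/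
theorem card_sqrt (q : ℕ) [NeZero q] (c : ZMod q) :
    ((univ : Finset (ZMod q)).filter (fun x => IsUnit x ∧ x * x = c)).card ≤
      2 * (q.divisors.card) ^ 2 := by
  have hq0 : 0 < q := NeZero.pos q
  set S := (univ : Finset (ZMod q)).filter (fun x => IsUnit x ∧ x * x = c) with hS
  rcases S.eq_empty_or_nonempty with h0 | ⟨x₀, hx₀⟩
  · rw [h0]; simp
  have hu₀ : IsUnit x₀ ∧ x₀ * x₀ = c := by simpa [hS] using hx₀
  -- the map to pairs of divisors
  set φ : ZMod q → ℕ × ℕ := fun x => (Nat.gcd q (x - x₀).val, Nat.gcd q (x + x₀).val) with hφ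
  have hmap : ∀ x ∈ S, φ x ∈ q.divisors ×ˢ q.divisors := by
    intro x _
    rw [mem_product]
    exact ⟨Nat.mem_divisors.2 ⟨Nat.gcd_dvd_left _ _, hq0.ne'⟩,
      Nat.mem_divisors.2 ⟨Nat.gcd_dvd_left _ _, hq0.ne'⟩⟩
  have hfib : ∀ p ∈ q.divisors ×ˢ q.divisors, (S.filter (fun x => φ x = p)).card ≤ 2 := by
    rintro ⟨g, g'⟩ hp
    rw [mem_product] at hp
    have hg : g ∣ q := (Nat.mem_divisors.1 hp.1).1
    have hg' : g' ∣ q := (Nat.mem_divisors.1 hp.2).1
    rcases (S.filter (fun x => φ x = (g, g'))).eq_empty_or_nonempty with h1 | ⟨x₁, hx₁⟩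
    · rw [h1]; simp
    rw [mem_filter] at hx₁
    obtain ⟨hx₁S, hx₁φ⟩ := hx₁
    have hu₁ : IsUnit x₁ ∧ x₁ * x₁ = c := by simpa [hS] using hx₁S
    rw [hφ, Prod.mk.injEq] at hx₁φ
    -- `q ∣ g g'`
    have hprod : (x₁ - x₀) * (x₁ + x₀) = 0 := by
      have : (x₁ - x₀) * (x₁ + x₀) = x₁ * x₁ - x₀ * x₀ := by ring
      rw [this, hu₁.2, hu₀.2, sub_self]
    have hq1 : q ∣ (x₁ - x₀).val * (x₁ + x₀).val := by
      rw [← ZMod.natCast_eq_zero_iff]
      push_cast
      rw [ZMod.natCast_zmod_val, ZMod.natCast_zmod_val, hprod]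
    have hq2 : q ∣ g * g' := by
      have h2 := Nat.gcd_mul_right_dvd_mul_gcd q (x₁ - x₀).val (x₁ + x₀).val
      rw [Nat.gcd_eq_left hq1, hx₁φ.1, hx₁φ.2] at h2
      exact h2
    -- `gcd g g' ∣ 2`
    have hgcd : Nat.gcd g g' ∣ 2 := by
      set e := Nat.gcd g g' with he
      have heq : e ∣ q := (Nat.gcd_dvd_left g g').trans hg
      have he1 : e ∣ (x₁ - x₀).val := (Nat.gcd_dvd_left g g').trans (by
        rw [← hx₁φ.1]; exact Nat.gcd_dvd_right _ _)
      have he2 : e ∣ (x₁ + x₀).val := (Nat.gcd_dvd_right g g').trans (by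
        rw [← hx₁φ.2]; exact Nat.gcd_dvd_right _ _)
      have k1 : ZMod.castHom heq (ZMod e) (x₁ - x₀) = 0 := by
        rw [← ZMod.natCast_zmod_val (x₁ - x₀), map_natCast, ZMod.natCast_eq_zero_iff]
        exact he1
      have k2 : ZMod.castHom heq (ZMod e) (x₁ + x₀) = 0 := by
        rw [← ZMod.natCast_zmod_val (x₁ + x₀), map_natCast, ZMod.natCast_eq_zero_iff]
        exact he2
      have k3 : (2 : ZMod e) * ZMod.castHom heq (ZMod e) x₀ = 0 := by
        rw [map_sub] at k1
        rw [map_add] at k2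
        linear_combination k2 - k1
      have k4 : IsUnit (ZMod.castHom heq (ZMod e) x₀) := hu₀.1.map _
      have k5 : (2 : ZMod e) = 0 := by
        rw [mul_comm] at k3
        exact (k4.mul_right_eq_zero).1 k3
      rw [← ZMod.natCast_eq_zero_iff]
      exact_mod_cast k5
    have hlcm : q ≤ 2 * Nat.lcm g g' := by
      have h3 : Nat.gcd g g' * Nat.lcm g g' = g * g' := Nat.gcd_mul_lcm g g'
      have h4 : g * g' ≠ 0 :=
        mul_ne_zero (ne_zero_of_dvd_ne_zero hq0.ne' hg) (ne_zero_of_dvd_ne_zero hq0.ne' hg')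
      calc q ≤ g * g' := Nat.le_of_dvd (Nat.pos_of_ne_zero h4) hq2
        _ = Nat.gcd g g' * Nat.lcm g g' := h3.symm
        _ ≤ 2 * Nat.lcm g g' := Nat.mul_le_mul_right _ (Nat.le_of_dvd (by norm_num) hgcd)
    have hlq : Nat.lcm g g' ∣ q := Nat.lcm_dvd hg hg'
    have hl0 : 0 < Nat.lcm g g' := Nat.pos_of_dvd_of_pos hlq hq0
    -- the fibre is contained in a coset
    have hcard : (S.filter (fun x => φ x = (g, g'))).card ≤
        ((univ : Finset (ZMod q)).filter (fun y => Nat.lcm g g' ∣ y.val)).card := by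
      refine Finset.card_le_card_of_injOn (fun x => x - x₁) ?_ ?_
      · intro x hx
        simp only [coe_filter, Set.mem_ofPred_eq, mem_univ, true_and] at hx ⊢
        obtain ⟨_, hxφ⟩ := hx
        rw [hφ, Prod.mk.injEq] at hxφ
        have key : ∀ e : ℕ, e ∣ q → ∀ u v w : ZMod q, e ∣ u.val → e ∣ v.val → w = u - v →
            e ∣ w.val := by
          intro e heq u v w h1 h2 h3
          rw [← ZMod.natCast_eq_zero_iff] at h1 h2 ⊢
          have c1 : ∀ t : ZMod q, ((t.val : ℕ) : ZMod e) = ZMod.castHom heq (ZMod e) t := by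
            intro t
            rw [← map_natCast (ZMod.castHom heq (ZMod e)), ZMod.natCast_zmod_val]
          rw [c1] at h1 h2 ⊢
          rw [h3, map_sub, h1, h2, sub_self]
        apply Nat.lcm_dvd
        · refine key g hg (x - x₀) (x₁ - x₀) _ ?_ ?_ (by ring)
          · rw [← hxφ.1]; exact Nat.gcd_dvd_right _ _
          · rw [← hx₁φ.1]; exact Nat.gcd_dvd_right _ _
        · refine key g' hg' (x + x₀) (x₁ + x₀) _ ?_ ?_ (by ring)
          · rw [← hxφ.2]; exact Nat.gcd_dvd_right _ _
          · rw [← hx₁φ.2]; exact Nat.gcd_dvd_right _ _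
      · intro x _ y _ hxy
        exact sub_left_injective hxy
    refine hcard.trans ((card_dvd_val q _ hlq).trans ?_)
    rw [Nat.div_le_iff_le_mul_add_pred hl0]
    have : Nat.lcm g g' * 2 = 2 * Nat.lcm g g' := mul_comm _ _
    omega
  calc S.card ≤ 2 * (q.divisors ×ˢ q.divisors).card :=
        Finset.card_le_mul_card_image_of_maps_to hmap 2 hfib
    _ = 2 * (q.divisors.card) ^ 2 := by rw [card_product, sq]

/-- the number of divisors of `b ^ I` is polynomial in `I` -/
theorem card_divisors_pow (b I : ℕ) (hb : 0 < b) :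
    (b ^ I).divisors.card ≤ (b * I + 1) ^ b := by
  rw [Nat.card_divisors (pow_ne_zero _ hb.ne')]
  have h1 : (b ^ I).primeFactors ⊆ b.primeFactors := by
    intro p hp
    have h2 := Nat.prime_of_mem_primeFactors hp
    exact Nat.mem_primeFactors.2 ⟨h2, h2.dvd_of_dvd_pow (Nat.dvd_of_mem_primeFactors hp), hb.ne'⟩
  calc ∏ x ∈ (b ^ I).primeFactors, ((b ^ I).factorization x + 1)
      ≤ ∏ x ∈ (b ^ I).primeFactors, (b * I + 1) := by
        refine prod_le_prod' fun p _ => ?_
        rw [Nat.factorization_pow]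
        have h2 : b.factorization p ≤ b := (Nat.factorization_lt p hb.ne').le
        have : I * b.factorization p ≤ I * b := Nat.mul_le_mul_left _ h2
        simp only [Finsupp.coe_smul, Pi.smul_apply, smul_eq_mul]
        linarith [mul_comm I b]
    _ = (b * I + 1) ^ (b ^ I).primeFactors.card := by rw [prod_const]
    _ ≤ (b * I + 1) ^ b := by
        apply Nat.pow_le_pow_right (by omega)
        calc (b ^ I).primeFactors.card ≤ b.primeFactors.card := card_le_card h1
          _ ≤ (Icc 1 b).card := by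
              apply card_le_card
              intro p hp
              rw [mem_Icc]
              exact ⟨(Nat.prime_of_mem_primeFactors hp).pos, Nat.le_of_mem_primeFactors hp⟩
          _ = b := by simp

end Pool.Agent.H610.SqF
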