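import Pool.Agent.H610.SqF.Dig
import Pool.Agent.H610.SqF.Sqrt
import Pool.Agent.H610.SqF.Exc

set_option autoImplicit false

/-!
# Palindromes divisible by the square of `d`
-/

namespace Pool.Agent.H610.SqF

open Finset

/-- palindromes of length `L` (leading zeros allowed) divisible by `d ^ 2` -/
def TT (b L d : ℕ) : Finset ℕ := (range (b ^ L)).filter (fun n => Pal b L n ∧ d ^ 2 ∣ n)

lemma mem_TT {b L d n : ℕ} : n ∈ TT b L d ↔ Pal b L n ∧ d ^ 2 ∣ n := by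
  unfold TT
  rw [mem_filter, mem_range]
  exact ⟨fun h => h.2, fun h => ⟨h.1.1, h⟩⟩

/-- an element of `TT` is determined by its leading digits -/
lemma TT_inj {b L d K : ℕ} (hb : 0 < b) (hd : d.Coprime b) (hK : K ≤ L)
    (hs : b ^ (L - K) ≤ d ^ 2 * b ^ K) : Set.InjOn (fun n => n / b ^ (L - K)) (TT b L d) := by
  intro m hm n hn hmn
  rw [mem_coe, mem_TT] at hm hn
  simp only at hmn
  have h1 : m % b ^ K = n % b ^ K := by
    rw [hm.1.mod_eq K hK, hn.1.mod_eq K hK, hmn]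
  have hX : 0 < b ^ (L - K) := pow_pos hb _
  have h2 : m ≡ n [MOD d ^ 2] :=
    (Nat.modEq_zero_iff_dvd.2 hm.2).trans (Nat.modEq_zero_iff_dvd.2 hn.2).symm
  have hc : (d ^ 2).Coprime (b ^ K) := (hd.pow_left 2).pow_right K
  have h3 : m ≡ n [MOD d ^ 2 * b ^ K] := (Nat.modEq_and_modEq_iff_modEq_mul hc).1 ⟨h2, h1⟩
  apply h3.eq_of_abs_lt
  have e1 := Nat.div_add_mod m (b ^ (L - K))
  have e2 := Nat.div_add_mod n (b ^ (L - K))
  have l1 := Nat.mod_lt m hX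
  have l2 := Nat.mod_lt n hX
  rw [hmn] at e1
  generalize m % b ^ (L - K) = u at e1 l1
  generalize n % b ^ (L - K) = v at e2 l2
  generalize b ^ (L - K) * (n / b ^ (L - K)) = w at e1 e2
  generalize b ^ (L - K) = X at l1 l2 hs
  generalize d ^ 2 * b ^ K = Y at hs ⊢
  rw [abs_lt]
  omega

lemma div_lt_pow {b L n K : ℕ} (hb : 0 < b) (hK : K ≤ L) (h : n < b ^ L) :
    n / b ^ (L - K) < b ^ K := by
  rw [Nat.div_lt_iff_lt_mul (pow_pos hb _), ← pow_add]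
  rwa [show K + (L - K) = L by omega]

/-- the trivial bound -/
lemma TT_card_le {b L d K : ℕ} (hb : 0 < b) (hd : d.Coprime b) (hK : K ≤ L)
    (hs : b ^ (L - K) ≤ d ^ 2 * b ^ K) : (TT b L d).card ≤ b ^ K := by
  calc (TT b L d).card = ((TT b L d).image (fun n => n / b ^ (L - K))).card :=
        (card_image_of_injOn (TT_inj hb hd hK hs)).symm
    _ ≤ (range (b ^ K)).card := by
        apply card_le_card
        intro r hr
        rw [mem_image] at hr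
        obtain ⟨n, hn, rfl⟩ := hr
        rw [mem_range]
        exact div_lt_pow hb hK (mem_TT.1 hn).1.1
    _ = b ^ K := card_range _

/-- the permutation of the residues -/
def rho (b I : ℕ) (r : ℕ) : ZMod (b ^ I) := (rv b I r : ZMod (b ^ I))

lemma rho_inj {b : ℕ} (hb : 0 < b) (I : ℕ) : Set.InjOn (rho b I) (range (b ^ I)) := by
  intro r hr s hs h
  rw [mem_coe, mem_range] at hr hs
  unfold rho at h
  rw [ZMod.natCast_eq_natCast_iff'] at h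
  rw [Nat.mod_eq_of_lt (rv_lt hb I r), Nat.mod_eq_of_lt (rv_lt hb I s)] at h
  exact rv_inj hb I hr hs h

/-- the coefficients -/
noncomputable def cc (β : ℝ) (r : ℕ) : ℂ := ee (-(β * r))

lemma norm_cc (β : ℝ) (r : ℕ) : ‖cc β r‖ = 1 := norm_ee _

/-- the exceptional multipliers of a block -/
noncomputable def EX (b I : ℕ) [NeZero (b ^ I)] (β : ℝ) (H : ℕ) : Finset (ZMod (b ^ I)) :=
  Exc (b ^ I) (rho b I) (cc β) H

lemma ee_nat_div (q : ℕ) [NeZero q] (j : ℕ) : ee ((j:ℝ) / q) = ZMod.stdAddChar ((j : ℕ) : ZMod q) := by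
  have h := ZMod.stdAddChar_coe (N := q) (j : ℤ)
  push_cast at h
  rw [h]
  unfold ee
  congr 1
  push_cast
  ring

/-- the main bound: fixed top digits `R₂` -/
lemma fibre {b L K I d d₀ H A R₂ : ℕ} [NeZero (b ^ I)] (hb : 2 ≤ b) (hIK : I ≤ K) (hK : K ≤ L)
    (hd0 : d₀ ≤ d) (hd1 : d < d₀ + b ^ I) (hq : 4 * (b ^ I) ^ 2 ≤ d₀)
    (hH : 0 < H) (hHd : 9 * b ^ (L - K) * H ≤ d₀ ^ 2 * b ^ K) (hA : A * d ^ 2 ≡ 1 [MOD b ^ K])
    (hE : (A : ZMod (b ^ I)) ∉ EX b I ((b:ℝ) ^ (L - K) / ((d₀:ℝ) ^ 2 * (b:ℝ) ^ K)) H)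
    (T : Finset ℕ) (hT : ∀ r ∈ T, r < b ^ I ∧ ∃ n ∈ TT b L d, n / b ^ (L - K) = r + b ^ I * R₂) :
    (T.card : ℝ) ≤ 8 * (b:ℝ) ^ I / H := by
  have hb0 : 0 < b := by omega
  have hd00 : 0 < d₀ := by
    have : 0 < (b ^ I) ^ 2 := by positivity
    omega
  obtain ⟨β, hβ⟩ : ∃ β : ℝ, β = (b:ℝ) ^ (L - K) / ((d₀:ℝ) ^ 2 * (b:ℝ) ^ K) := ⟨_, rfl⟩
  obtain ⟨βd, hβd⟩ : ∃ βd : ℝ, βd = (b:ℝ) ^ (L - K) / ((d:ℝ) ^ 2 * (b:ℝ) ^ K) := ⟨_, rfl⟩
  rw [← hβ] at hE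
  have hbr : (0:ℝ) < b := by exact_mod_cast hb0
  have hB : (0:ℝ) < (b:ℝ) ^ K := by positivity
  have hX : (0:ℝ) < (b:ℝ) ^ (L - K) := by positivity
  have hQ : (0:ℝ) < (b:ℝ) ^ I := by positivity
  have hd0r : (0:ℝ) < d₀ := by exact_mod_cast hd00
  have hdr : (0:ℝ) < d := by exact_mod_cast (by omega : 0 < d)
  have hle : (d₀:ℝ) ≤ d := by exact_mod_cast hd0
  have hlt : (d:ℝ) < d₀ + (b:ℝ) ^ I := by exact_mod_cast hd1
  have hβ0 : 0 < β := by rw [hβ]; positivity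
  have hβd0 : 0 < βd := by rw [hβd]; positivity
  have hββ : βd ≤ β := by
    rw [hβ, hβd]
    apply div_le_div_of_nonneg_left hX.le (by positivity)
    gcongr
  have hHr : (0:ℝ) < H := by exact_mod_cast hH
  have hβH : 9 * β * H ≤ 1 := by
    have h1 : (9:ℝ) * (b:ℝ) ^ (L - K) * H ≤ (d₀:ℝ) ^ 2 * (b:ℝ) ^ K := by exact_mod_cast hHd
    rw [hβ, show 9 * ((b:ℝ) ^ (L - K) / ((d₀:ℝ) ^ 2 * (b:ℝ) ^ K)) * H =
      (9 * (b:ℝ) ^ (L - K) * H) / ((d₀:ℝ) ^ 2 * (b:ℝ) ^ K) by ring, div_le_one (by positivity)]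
    exact h1
  -- the variation of `β` over the block
  have hvar : (b:ℝ) ^ I * (β - βd) ≤ β / 2 := by
    have h1 : βd = β * ((d₀:ℝ) ^ 2 / (d:ℝ) ^ 2) := by
      rw [hβ, hβd]
      field_simp
    have h2 : (b:ℝ) ^ I * (1 - (d₀:ℝ) ^ 2 / (d:ℝ) ^ 2) ≤ 1 / 2 := by
      have h3 : 1 - (d₀:ℝ) ^ 2 / (d:ℝ) ^ 2 = ((d:ℝ) - d₀) * (d + d₀) / (d:ℝ) ^ 2 := by
        field_simp
        ring
      rw [h3, ← mul_div_assoc, div_le_iff₀ (by positivity)]
      have h4 : (4:ℝ) * ((b:ℝ) ^ I) ^ 2 ≤ d₀ := by exact_mod_cast hq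
      have h5 : ((d:ℝ) - d₀) * (d + d₀) ≤ (b:ℝ) ^ I * (2 * d) := by
        apply mul_le_mul (by linarith) (by linarith) (by linarith) hQ.le
      calc (b:ℝ) ^ I * (((d:ℝ) - d₀) * (d + d₀)) ≤ (b:ℝ) ^ I * ((b:ℝ) ^ I * (2 * d)) := by
            gcongr
        _ = (4 * ((b:ℝ) ^ I) ^ 2) * d / 2 := by ring
        _ ≤ (d:ℝ) * d / 2 := by
            have : 4 * ((b:ℝ) ^ I) ^ 2 ≤ d := h4.trans hle
            gcongr
        _ = 1 / 2 * (d:ℝ) ^ 2 := by ring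
    calc (b:ℝ) ^ I * (β - βd) = β * ((b:ℝ) ^ I * (1 - (d₀:ℝ) ^ 2 / (d:ℝ) ^ 2)) := by
          rw [h1]; ring
      _ ≤ β * (1 / 2) := by gcongr
      _ = β / 2 := by ring
  obtain ⟨τ, hτ⟩ : ∃ τ : ℝ, τ = (A:ℝ) * (rv b (K - I) R₂ : ℕ) / (b:ℝ) ^ K -
      (b:ℝ) ^ I * R₂ * βd - β / 4 := ⟨_, rfl⟩
  have hcast : ((b ^ I : ℕ) : ℝ) = (b:ℝ) ^ I := by push_cast; rfl
  have h := window_of_notMem (q := b ^ I) (ρ := rho b I) (c := cc β) (norm_cc β) hH hE τ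
    (fun r => ((A * rv b I r : ℕ) : ℝ) / ((b ^ I : ℕ) : ℝ) + (-(β * r)) + τ) ?_ T ?_ ?_
  · rwa [hcast] at h
  · intro r _
    show ee (((A * rv b I r : ℕ) : ℝ) / ((b ^ I : ℕ) : ℝ) + (-(β * r)) + τ) = _
    rw [ee_add, ee_add, ee_nat_div]
    unfold cc rho
    push_cast
    rfl
  · intro r hr
    rw [mem_range]
    exact (hT r hr).1
  · intro r hr
    obtain ⟨hr1, n, hn, hnr⟩ := hT r hr
    rw [mem_TT] at hn
    obtain ⟨hP, m, hm⟩ := hn
    -- `m ≡ A * rv b K R`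
    have hrev : rv b K (r + b ^ I * R₂) = b ^ (K - I) * rv b I r + rv b (K - I) R₂ := by
      have h1 := rv_add hb0 I (K - I) r R₂ hr1
      rwa [show I + (K - I) = K by omega] at h1
    have hmod : n % b ^ K = rv b K (r + b ^ I * R₂) := by
      rw [hP.mod_eq K hK, hnr]
    have hcong : m ≡ A * rv b K (r + b ^ I * R₂) [MOD b ^ K] := by
      have h1 : A * n ≡ A * rv b K (r + b ^ I * R₂) [MOD b ^ K] := by
        apply Nat.ModEq.mul_left
        rw [← hmod]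
        exact (Nat.mod_modEq n _).symm
      have h2 : A * n ≡ m [MOD b ^ K] := by
        have h3 := hA.mul_right m
        rw [one_mul, mul_assoc, ← hm] at h3
        exact h3
      exact h2.symm.trans h1
    obtain ⟨z, hz⟩ : ∃ z : ℤ, ((A * rv b K (r + b ^ I * R₂) : ℕ) : ℤ) - m = (b:ℤ) ^ K * z := by
      have h1 := Nat.modEq_iff_dvd.1 hcong
      push_cast at h1 ⊢
      obtain ⟨z, hz⟩ := h1
      exact ⟨z, hz⟩
    refine ⟨z, ?_⟩
    have hzr : ((A * rv b K (r + b ^ I * R₂) : ℕ) : ℝ) = m + (b:ℝ) ^ K * z := by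
      have : ((A * rv b K (r + b ^ I * R₂) : ℕ) : ℤ) = m + (b:ℤ) ^ K * z := by linarith
      exact_mod_cast this
    have hsplit : ((A * rv b I r : ℕ) : ℝ) / ((b ^ I : ℕ) : ℝ) +
        (A:ℝ) * (rv b (K - I) R₂ : ℕ) / (b:ℝ) ^ K = z + m / (b:ℝ) ^ K := by
      have e1 : (b:ℝ) ^ K = (b:ℝ) ^ I * (b:ℝ) ^ (K - I) := by
        rw [← pow_add]
        congr 1
        omega
      have e2 : ((A * rv b K (r + b ^ I * R₂) : ℕ) : ℝ) =
          A * ((b:ℝ) ^ (K - I) * (rv b I r : ℕ) + (rv b (K - I) R₂ : ℕ)) := by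
        rw [hrev]
        push_cast
        ring
      have hKI : (0:ℝ) < (b:ℝ) ^ (K - I) := by positivity
      have e3 : ((A * rv b I r : ℕ) : ℝ) / ((b ^ I : ℕ) : ℝ) +
          (A:ℝ) * (rv b (K - I) R₂ : ℕ) / (b:ℝ) ^ K =
          ((A * rv b K (r + b ^ I * R₂) : ℕ) : ℝ) / (b:ℝ) ^ K := by
        rw [e2, e1, hcast]
        push_cast
        field_simp
      rw [e3, hzr]
      field_simp
      ring
    -- `m` in terms of the leading digits
    have hm2 : (m:ℝ) / (b:ℝ) ^ K = (r + (b:ℝ) ^ I * R₂) * βd +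
        ((n % b ^ (L - K) : ℕ) : ℝ) / ((d:ℝ) ^ 2 * (b:ℝ) ^ K) := by
      have e1 := Nat.div_add_mod n (b ^ (L - K))
      rw [hnr] at e1
      have e2 : (n:ℝ) = (b:ℝ) ^ (L - K) * (r + (b:ℝ) ^ I * R₂) +
          ((n % b ^ (L - K) : ℕ) : ℝ) := by exact_mod_cast e1.symm
      have e3 : (n:ℝ) = (d:ℝ) ^ 2 * m := by exact_mod_cast hm
      have e4 : (m:ℝ) = n / (d:ℝ) ^ 2 := by rw [e3]; field_simp
      rw [e4, hβd]
      rw [div_div]
      nth_rewrite 1 [e2]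
      rw [add_div]
      congr 1
      ring
    have hrem0 : 0 ≤ ((n % b ^ (L - K) : ℕ) : ℝ) / ((d:ℝ) ^ 2 * (b:ℝ) ^ K) := by positivity
    have hrem1 : ((n % b ^ (L - K) : ℕ) : ℝ) / ((d:ℝ) ^ 2 * (b:ℝ) ^ K) ≤ βd := by
      rw [hβd]
      apply div_le_div_of_nonneg_right _ (by positivity)
      have := (Nat.mod_lt n (pow_pos hb0 (L - K))).le
      exact_mod_cast this
    have hr0 : (0:ℝ) ≤ r := Nat.cast_nonneg _
    have hrq : (r:ℝ) ≤ (b:ℝ) ^ I := by exact_mod_cast hr1.le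
    have hdrift : (r:ℝ) * (β - βd) ≤ β / 2 :=
      (mul_le_mul_of_nonneg_right hrq (by linarith)).trans hvar
    have hdrift0 : 0 ≤ (r:ℝ) * (β - βd) := mul_nonneg hr0 (by linarith)
    have hid : ((A * rv b I r : ℕ) : ℝ) / ((b ^ I : ℕ) : ℝ) + (-(β * r)) + τ - z =
        -((r:ℝ) * (β - βd)) + ((n % b ^ (L - K) : ℕ) : ℝ) / ((d:ℝ) ^ 2 * (b:ℝ) ^ K) - β / 4 := by
      rw [hτ]
      have : ((A * rv b I r : ℕ) : ℝ) / ((b ^ I : ℕ) : ℝ) + (-(β * r)) +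
          ((A:ℝ) * (rv b (K - I) R₂ : ℕ) / (b:ℝ) ^ K - (b:ℝ) ^ I * R₂ * βd - β / 4) - z =
          (((A * rv b I r : ℕ) : ℝ) / ((b ^ I : ℕ) : ℝ) +
          (A:ℝ) * (rv b (K - I) R₂ : ℕ) / (b:ℝ) ^ K) - z - β * r - (b:ℝ) ^ I * R₂ * βd - β / 4 := by
        ring
      rw [this, hsplit, hm2]
      ring
    show |((A * rv b I r : ℕ) : ℝ) / ((b ^ I : ℕ) : ℝ) + (-(β * r)) + τ - z| ≤ 1 / (6 * H)
    rw [hid, abs_le]
    have h6 : β * (3 / 4) ≤ 1 / (6 * H) := by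
      rw [le_div_iff₀ (by positivity)]
      nlinarith
    constructor <;> linarith

/-- few palindromes are divisible by `d ^ 2` if `d` is not exceptional -/
lemma TT_card_good {b L K I d d₀ H A : ℕ} [NeZero (b ^ I)] (hb : 2 ≤ b) (hIK : I ≤ K) (hK : K ≤ L)
    (hdb : d.Coprime b)
    (hd0 : d₀ ≤ d) (hd1 : d < d₀ + b ^ I) (hq : 4 * (b ^ I) ^ 2 ≤ d₀)
    (hH : 0 < H) (hHd : 9 * b ^ (L - K) * H ≤ d₀ ^ 2 * b ^ K) (hA : A * d ^ 2 ≡ 1 [MOD b ^ K])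
    (hE : (A : ZMod (b ^ I)) ∉ EX b I ((b:ℝ) ^ (L - K) / ((d₀:ℝ) ^ 2 * (b:ℝ) ^ K)) H) :
    ((TT b L d).card : ℝ) ≤ 8 * (b:ℝ) ^ K / H := by
  have hb0 : 0 < b := by omega
  have hs : b ^ (L - K) ≤ d ^ 2 * b ^ K := by
    calc b ^ (L - K) ≤ 9 * b ^ (L - K) * H := by nlinarith [pow_pos hb0 (L - K)]
      _ ≤ d₀ ^ 2 * b ^ K := hHd
      _ ≤ d ^ 2 * b ^ K := by gcongr
  have hinj := TT_inj hb0 hdb hK hs
  have hbr : (0:ℝ) < b := by exact_mod_cast hb0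
  have hmap : ∀ n ∈ TT b L d, n / b ^ (L - K) / b ^ I ∈ range (b ^ (K - I)) := by
    intro n hn
    have h1 := div_lt_pow hb0 hK (mem_TT.1 hn).1.1
    rw [mem_range, Nat.div_lt_iff_lt_mul (pow_pos hb0 _), ← pow_add]
    rwa [show K - I + I = K by omega]
  have hfib : ∀ R₂ ∈ range (b ^ (K - I)),
      (((TT b L d).filter (fun n => n / b ^ (L - K) / b ^ I = R₂)).card : ℝ) ≤
        8 * (b:ℝ) ^ I / H := by
    intro R₂ _
    set F := (TT b L d).filter (fun n => n / b ^ (L - K) / b ^ I = R₂) with hF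
    have hFi : Set.InjOn (fun n => n / b ^ (L - K) % b ^ I) F := by
      intro m hm n hn hmn
      rw [mem_coe, hF, mem_filter] at hm hn
      simp only at hmn
      apply hinj hm.1 hn.1
      show m / b ^ (L - K) = n / b ^ (L - K)
      rw [← Nat.div_add_mod (m / b ^ (L - K)) (b ^ I), ← Nat.div_add_mod (n / b ^ (L - K)) (b ^ I),
        hm.2, hn.2, hmn]
    rw [← card_image_of_injOn hFi]
    refine fibre (R₂ := R₂) hb hIK hK hd0 hd1 hq hH hHd hA hE _ ?_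
    intro r hr
    rw [mem_image] at hr
    obtain ⟨n, hn, rfl⟩ := hr
    rw [hF, mem_filter] at hn
    refine ⟨Nat.mod_lt _ (pow_pos hb0 _), n, hn.1, ?_⟩
    conv_lhs => rw [← Nat.mod_add_div (n / b ^ (L - K)) (b ^ I), hn.2]
  rw [Finset.card_eq_sum_card_fiberwise (f := fun n => n / b ^ (L - K) / b ^ I) (t := range (b ^ (K - I)))
    (fun n hn => hmap n hn)]
  push_cast
  calc _ ≤ ∑ R₂ ∈ range (b ^ (K - I)), 8 * (b:ℝ) ^ I / H := sum_le_sum hfib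
    _ = 8 * ((b:ℝ) ^ (K - I) * (b:ℝ) ^ I) / H := by
        rw [sum_const, card_range, nsmul_eq_mul]
        push_cast
        ring
    _ = 8 * (b:ℝ) ^ K / H := by
        rw [← pow_add, show K - I + I = K by omega]

open Classical in
/-- the exceptional `d` in a block -/
lemma card_exc_block {b I d₀ : ℕ} [NeZero (b ^ I)] (E : Finset (ZMod (b ^ I))) :
    ((Ico d₀ (d₀ + b ^ I)).filter (fun d : ℕ => ∃ a ∈ E, a * ((d : ZMod (b ^ I)) * d) = 1)).card ≤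
      2 * ((b ^ I).divisors.card) ^ 2 * E.card := by
  have h1 : (Ico d₀ (d₀ + b ^ I)).filter (fun d : ℕ => ∃ a ∈ E, a * ((d : ZMod (b ^ I)) * d) = 1) ⊆
      E.biUnion (fun a => (Ico d₀ (d₀ + b ^ I)).filter
        (fun d : ℕ => a * ((d : ZMod (b ^ I)) * d) = 1)) := by
    intro d hd
    rw [mem_filter] at hd
    obtain ⟨hd1, a, ha, h⟩ := hd
    rw [mem_biUnion]
    exact ⟨a, ha, mem_filter.2 ⟨hd1, h⟩⟩
  have h2 : ∀ a ∈ E, ((Ico d₀ (d₀ + b ^ I)).filter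
        (fun d : ℕ => a * ((d : ZMod (b ^ I)) * d) = 1)).card ≤ 2 * ((b ^ I).divisors.card) ^ 2 := by
    intro a _
    rcases ((Ico d₀ (d₀ + b ^ I)).filter
        (fun d : ℕ => a * ((d : ZMod (b ^ I)) * d) = 1)).eq_empty_or_nonempty with h0 | ⟨x, hx⟩
    · rw [h0]; simp
    rw [mem_filter] at hx
    refine le_trans ?_ (card_sqrt (b ^ I) ((x : ZMod (b ^ I)) * x))
    have hau : IsUnit a := IsUnit.of_mul_eq_one _ hx.2
    refine Finset.card_le_card_of_injOn (fun d => (d : ZMod (b ^ I))) ?_ ?_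
    · intro d hd
      simp only [coe_filter, Set.mem_ofPred_eq, mem_univ, true_and] at hd ⊢
      refine ⟨?_, ?_⟩
      · refine IsUnit.of_mul_eq_one (a * d) ?_
        rw [← hd.2]
        ring
      · apply hau.mul_left_cancel
        rw [hd.2, hx.2]
    · intro d hd e he hde
      simp only [coe_filter, Set.mem_ofPred_eq, mem_Ico] at hd he hde
      rw [ZMod.natCast_eq_natCast_iff] at hde
      apply hde.eq_of_abs_lt
      rw [abs_lt]
      push_cast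
      constructor
      · have := hd.1.2
        have := he.1.1
        zify at *
        linarith
      · have := hd.1.1
        have := he.1.2
        zify at *
        linarith
  calc _ ≤ _ := card_le_card h1
    _ ≤ ∑ a ∈ E, 2 * ((b ^ I).divisors.card) ^ 2 := card_biUnion_le.trans (sum_le_sum h2)
    _ = _ := by rw [sum_const, smul_eq_mul]; ring

open Classical in
/-- one block -/
lemma block {b L K I d₀ H K' : ℕ} (hb : 2 ≤ b) (hIK : I ≤ K) (hK : K ≤ L)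
    (hq : 4 * (b ^ I) ^ 2 ≤ d₀)
    (hH : 0 < H) (hHd : 9 * b ^ (L - K) * H ≤ d₀ ^ 2 * b ^ K) (hK' : K' ≤ L)
    (hs : b ^ (L - K') ≤ d₀ ^ 2 * b ^ K') :
    ∑ d ∈ (Ico d₀ (d₀ + b ^ I)).filter (fun d => d.Coprime b), ((TT b L d).card : ℝ) ≤
      (b:ℝ) ^ I * (8 * (b:ℝ) ^ K / H) +
        2 * ((b ^ I).divisors.card : ℝ) ^ 2 * (H:ℝ) ^ 4 * (b:ℝ) ^ K' := by
  have hb0 : 0 < b := by omega
  have : NeZero (b ^ I) := ⟨pow_ne_zero _ (by omega)⟩
  set E := EX b I ((b:ℝ) ^ (L - K) / ((d₀:ℝ) ^ 2 * (b:ℝ) ^ K)) H with hE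
  have hbr : (0:ℝ) < b := by exact_mod_cast hb0
  have hHr : (0:ℝ) < H := by exact_mod_cast hH
  have hEc : E.card ≤ H ^ 4 := card_Exc _ _ (rho_inj hb0 I) _ (norm_cc _) H
  set X := (Ico d₀ (d₀ + b ^ I)).filter (fun d : ℕ => ∃ a ∈ E, a * ((d : ZMod (b ^ I)) * d) = 1) with hX
  have hXc : X.card ≤ 2 * ((b ^ I).divisors.card) ^ 2 * E.card := card_exc_block E
  have hpt : ∀ d ∈ (Ico d₀ (d₀ + b ^ I)).filter (fun d => d.Coprime b), ((TT b L d).card : ℝ) ≤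
      8 * (b:ℝ) ^ K / H + (if d ∈ X then (b:ℝ) ^ K' else 0) := by
    intro d hd
    rw [mem_filter, mem_Ico] at hd
    obtain ⟨⟨hd0, hd1⟩, hdb⟩ := hd
    by_cases hdX : d ∈ X
    · rw [if_pos hdX]
      have h1 : (TT b L d).card ≤ b ^ K' := by
        apply TT_card_le hb0 hdb hK'
        calc b ^ (L - K') ≤ d₀ ^ 2 * b ^ K' := hs
          _ ≤ d ^ 2 * b ^ K' := by gcongr
      have h2 : ((TT b L d).card : ℝ) ≤ (b:ℝ) ^ K' := by exact_mod_cast h1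
      have h3 : 0 ≤ 8 * (b:ℝ) ^ K / H := by positivity
      linarith
    · rw [if_neg hdX, add_zero]
      have hc : (d ^ 2).Coprime (b ^ K) := (hdb.pow_left 2).pow_right K
      obtain ⟨A, hA⟩ : ∃ A : ℕ, A * d ^ 2 ≡ 1 [MOD b ^ K] := by
        obtain ⟨A, hA⟩ := Nat.exists_mul_mod_eq_of_coprime 1 hc (pow_ne_zero _ (by omega))
        refine ⟨A, ?_⟩
        rw [mul_comm]
        exact hA.2
      refine TT_card_good hb hIK hK hdb hd0 hd1 hq hH hHd hA ?_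
      intro hAE
      apply hdX
      rw [hX, mem_filter, mem_Ico]
      refine ⟨⟨hd0, hd1⟩, (A : ZMod (b ^ I)), hAE, ?_⟩
      have h4 : A * d ^ 2 ≡ 1 [MOD b ^ I] := hA.of_dvd (pow_dvd_pow b hIK)
      have h5 : ((A * d ^ 2 : ℕ) : ZMod (b ^ I)) = ((1 : ℕ) : ZMod (b ^ I)) :=
        (ZMod.natCast_eq_natCast_iff _ _ _).2 h4
      push_cast at h5
      rw [← sq]
      exact h5
  have hcard : (((Ico d₀ (d₀ + b ^ I)).filter (fun d => d.Coprime b)).card : ℝ) ≤ (b:ℝ) ^ I := by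
    have h1 : ((Ico d₀ (d₀ + b ^ I)).filter (fun d => d.Coprime b)).card ≤ b ^ I := by
      refine (card_filter_le _ _).trans ?_
      rw [Nat.card_Ico]
      omega
    exact_mod_cast h1
  calc _ ≤ ∑ d ∈ (Ico d₀ (d₀ + b ^ I)).filter (fun d => d.Coprime b),
        (8 * (b:ℝ) ^ K / H + (if d ∈ X then (b:ℝ) ^ K' else 0)) := sum_le_sum hpt
    _ = ((Ico d₀ (d₀ + b ^ I)).filter (fun d => d.Coprime b)).card * (8 * (b:ℝ) ^ K / H) +
        ((((Ico d₀ (d₀ + b ^ I)).filter (fun d => d.Coprime b)).filter (fun d => d ∈ X)).card : ℝ) *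
          (b:ℝ) ^ K' := by
        rw [sum_add_distrib, sum_const, nsmul_eq_mul, ← sum_filter, sum_const, nsmul_eq_mul]
    _ ≤ (b:ℝ) ^ I * (8 * (b:ℝ) ^ K / H) +
        (2 * ((b ^ I).divisors.card : ℝ) ^ 2 * (H:ℝ) ^ 4) * (b:ℝ) ^ K' := by
        apply add_le_add
        · gcongr
        · apply mul_le_mul_of_nonneg_right _ (by positivity)
          have h1 : (((Ico d₀ (d₀ + b ^ I)).filter (fun d => d.Coprime b)).filter
              (fun d => d ∈ X)).card ≤ 2 * ((b ^ I).divisors.card) ^ 2 * H ^ 4 := by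
            calc _ ≤ X.card := by
                  apply card_le_card
                  intro d hd
                  exact (mem_filter.1 hd).2
              _ ≤ _ := hXc
              _ ≤ _ := by gcongr
          exact_mod_cast h1
    _ = _ := rfl

end Pool.Agent.H610.SqF
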