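import Pool.Agent.H610.SqF.Equi

set_option autoImplicit false

/-!
# Local densities
-/

namespace Pool.Agent.H610.SqF

open Finset Filter

/-- the Chinese remainder theorem for sums over residues -/
lemma sum_crt {m n : ℕ} (h : m.Coprime n) (hm : 0 < m) (hn : 0 < n) (F G : ℕ → ℝ) :
    ∑ r ∈ range (m * n), F (r % m) * G (r % n) = (∑ r ∈ range m, F r) * (∑ r ∈ range n, G r) := by
  rw [Finset.sum_mul_sum, ← Finset.sum_product']
  refine Finset.sum_bij (fun r _ => (r % m, r % n)) ?_ ?_ ?_ ?_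
  · intro r _
    simp only [mem_product, mem_range]
    exact ⟨Nat.mod_lt _ hm, Nat.mod_lt _ hn⟩
  · intro a ha c hc hac
    simp only [Prod.mk.injEq] at hac
    rw [mem_range] at ha hc
    have h1 : a ≡ c [MOD m * n] := (Nat.modEq_and_modEq_iff_modEq_mul h).1 ⟨hac.1, hac.2⟩
    have h2 : a % (m * n) = c % (m * n) := h1
    rwa [Nat.mod_eq_of_lt ha, Nat.mod_eq_of_lt hc] at h2
  · intro p hp
    simp only [mem_product, mem_range] at hp
    obtain ⟨k, hk⟩ := Nat.chineseRemainder h p.1 p.2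
    refine ⟨k % (m * n), mem_range.2 (Nat.mod_lt _ (Nat.mul_pos hm hn)), ?_⟩
    ext
    · simp only
      rw [Nat.mod_mul_right_mod]
      have := hk.1
      unfold Nat.ModEq at this
      rw [this, Nat.mod_eq_of_lt hp.1]
    · simp only
      rw [Nat.mod_mul_left_mod]
      have := hk.2
      unfold Nat.ModEq at this
      rw [this, Nat.mod_eq_of_lt hp.2]
  · intro r _
    rfl

/-- the product of the squares of the primes in `S` -/
def QQ (S : Finset ℕ) : ℕ := ∏ p ∈ S, p ^ 2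

lemma QQ_pos {S : Finset ℕ} (hS : ∀ p ∈ S, p.Prime) : 0 < QQ S := by
  unfold QQ
  exact Finset.prod_pos fun p hp => pow_pos (hS p hp).pos 2

lemma dvd_QQ {S : Finset ℕ} {p : ℕ} (hp : p ∈ S) : p ^ 2 ∣ QQ S := by
  unfold QQ
  exact Finset.dvd_prod_of_mem (fun p : ℕ => p ^ 2) hp

lemma coprime_QQ {S : Finset ℕ} (hS : ∀ p ∈ S, p.Prime) {q : ℕ} (hq : q.Prime) (hqS : q ∉ S) :
    (q ^ 2).Coprime (QQ S) := by
  unfold QQ
  apply Nat.Coprime.prod_right
  intro p hp
  apply Nat.Coprime.pow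
  rw [Nat.coprime_primes hq (hS p hp)]
  rintro rfl
  exact hqS hp

/-- product sums factor over the primes -/
lemma sum_prod (S : Finset ℕ) (hS : ∀ p ∈ S, p.Prime) (g : ℕ → ℕ → ℝ) :
    ∑ r ∈ range (QQ S), ∏ p ∈ S, g p (r % p ^ 2) = ∏ p ∈ S, ∑ r ∈ range (p ^ 2), g p r := by
  classical
  induction S using Finset.induction_on with
  | empty => simp [QQ]
  | insert q S hq ih =>
    have hqp : q.Prime := hS q (mem_insert_self _ _)
    have hS' : ∀ p ∈ S, p.Prime := fun p hp => hS p (mem_insert_of_mem hp)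
    have hQ : QQ (insert q S) = q ^ 2 * QQ S := by
      unfold QQ
      rw [prod_insert hq]
    rw [hQ, prod_insert hq, ← ih hS',
      ← sum_crt (coprime_QQ hS' hqp hq) (pow_pos hqp.pos 2) (QQ_pos hS') (g q)]
    refine sum_congr rfl fun r _ => ?_
    rw [prod_insert hq]
    congr 1
    refine prod_congr rfl fun p hp => ?_
    rw [Nat.mod_mod_of_dvd _ (dvd_QQ hp)]

/-- the local factor as a function of the residue modulo `p ^ 2` -/
noncomputable def gg (b p r : ℕ) : ℝ :=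
  (if r = 0 then 0 else 1) * (if p = 2 then 1 + (-1) ^ r / (b:ℝ) else 1)

/-- the local density at the prime `p` -/
noncomputable def kap (b p : ℕ) : ℝ :=
  if p = 2 then (3 * (b:ℝ) - 1) / (4 * b) else 1 - 1 / (p:ℝ) ^ 2

lemma sum_gg {b p : ℕ} (hb : 0 < b) (hp : p.Prime) :
    (∑ r ∈ range (p ^ 2), gg b p r) / (p:ℝ) ^ 2 = kap b p := by
  have hb' : (b:ℝ) ≠ 0 := by positivity
  by_cases h2 : p = 2
  · subst h2
    unfold kap gg
    simp only [if_true]
    rw [show (2:ℕ) ^ 2 = 4 by norm_num]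
    simp only [sum_range_succ, sum_range_zero]
    norm_num
    field_simp
    ring
  · unfold kap gg
    simp only [h2, if_false, mul_one]
    have hp0 : 0 < p ^ 2 := pow_pos hp.pos 2
    have hp1 : (p:ℝ) ≠ 0 := by exact_mod_cast hp.pos.ne'
    have h1 : ∑ r ∈ range (p ^ 2), (if r = 0 then (0:ℝ) else 1) = (p:ℝ) ^ 2 - 1 := by
      obtain ⟨c, hc⟩ : ∃ c, p ^ 2 = c + 1 := ⟨p ^ 2 - 1, by omega⟩
      rw [hc, sum_range_succ']
      simp only [Nat.add_eq_zero_iff, one_ne_zero, and_false, if_false, if_true, sum_const,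
        card_range, nsmul_eq_mul, mul_one, add_zero]
      have : ((p:ℝ)) ^ 2 = c + 1 := by exact_mod_cast hc
      linarith
    rw [h1]
    field_simp

/-- the mean value of the indicator of the numbers not divisible by the square of a prime in `S` -/
lemma sum_wgt {b : ℕ} (hb : 2 ≤ b) (S : Finset ℕ) (hS : ∀ p ∈ S, p.Prime) :
    ∑ r ∈ range (QQ S), (if ∀ p ∈ S, ¬ p ^ 2 ∣ r then (1:ℝ) else 0) * wgt b (QQ S) r =
      ∏ p ∈ S, kap b p := by
  have hb0 : 0 < b := by omega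
  have hQ : (QQ S : ℝ) = ∏ p ∈ S, (p:ℝ) ^ 2 := by
    unfold QQ
    push_cast
    rfl
  have h1 : ∏ p ∈ S, kap b p = (∑ r ∈ range (QQ S), ∏ p ∈ S, gg b p (r % p ^ 2)) / QQ S := by
    rw [sum_prod S hS (gg b), hQ, ← prod_div_distrib]
    refine prod_congr rfl fun p hp => ?_
    rw [sum_gg hb0 (hS p hp)]
  rw [h1, sum_div]
  refine sum_congr rfl fun r _ => ?_
  have hev : Even (QQ S) ↔ 2 ∈ S := by
    constructor
    · intro h
      by_contra h3
      have := coprime_QQ hS Nat.prime_two h3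
      have h4 : (2 ^ 2).Coprime 2 := Nat.Coprime.coprime_dvd_right h.two_dvd this
      norm_num at h4
    · intro h
      exact (even_iff_two_dvd.2 (dvd_trans (by norm_num) (dvd_QQ h)))
  have h3 : ∏ p ∈ S, gg b p (r % p ^ 2) = (if ∀ p ∈ S, ¬ p ^ 2 ∣ r then (1:ℝ) else 0) *
      (1 + (if 2 ∈ S then (-1) ^ r / (b:ℝ) else 0)) := by
    unfold gg
    rw [prod_mul_distrib]
    congr 1
    · have h4 : ∀ p ∈ S, (if r % p ^ 2 = 0 then (0:ℝ) else 1) = if ¬ p ^ 2 ∣ r then 1 else 0 := by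
        intro p _
        by_cases h5 : p ^ 2 ∣ r
        · rw [if_pos (Nat.mod_eq_zero_of_dvd h5), if_neg (by simpa using h5)]
        · rw [if_neg (fun h6 => h5 (Nat.dvd_of_mod_eq_zero h6)), if_pos h5]
      rw [prod_congr rfl h4, prod_ite_zero]
      simp
    · by_cases h5 : 2 ∈ S
      · rw [if_pos h5, ← Finset.mul_prod_erase S _ h5, if_pos rfl]
        have h6 : ∏ p ∈ S.erase 2, (if p = 2 then 1 + (-1:ℝ) ^ (r % p ^ 2) / (b:ℝ) else 1) = 1 := by
          apply prod_eq_one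
          intro p hp
          rw [if_neg (mem_erase.1 hp).1]
        rw [h6, mul_one]
        congr 2
        conv_rhs => rw [← Nat.div_add_mod r (2 ^ 2)]
        rw [pow_add, pow_mul]
        norm_num
      · rw [if_neg h5, add_zero]
        apply prod_eq_one
        intro p hp
        rw [if_neg]
        rintro rfl
        exact h5 hp
  rw [h3]
  unfold wgt
  by_cases h5 : 2 ∈ S
  · rw [if_pos h5, if_pos (hev.2 h5)]
    ring
  · rw [if_neg h5, if_neg (fun h => h5 (hev.1 h))]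
    ring

/-- the primes below `n` which do not divide `b` -/
def Sp (b n : ℕ) : Finset ℕ := (Nat.primesBelow n).filter (fun p => ¬ p ∣ b)

lemma mem_Sp {b n p : ℕ} : p ∈ Sp b n ↔ (p < n ∧ p.Prime) ∧ ¬ p ∣ b := by
  unfold Sp
  rw [mem_filter, Nat.mem_primesBelow]

/-- the density -/
noncomputable def del (b : ℕ) : ℝ :=
  6 / Real.pi ^ 2 * (∏ p ∈ b.primeFactors, (1 - 1 / (p:ℝ) ^ 2)⁻¹) *
    (if Even b then (1:ℝ) else (3 * (b:ℝ) - 1) / (3 * b))

lemma tendsto_zeta : Tendsto (fun n : ℕ => ∏ p ∈ Nat.primesBelow n, (1 - 1 / (p:ℝ) ^ 2)) atTop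
    (nhds (6 / Real.pi ^ 2)) := by
  let f : ℕ →*₀ ℝ := 
    { toFun := fun n => ((n:ℝ) ^ 2)⁻¹
      map_zero' := by simp
      map_one' := by simp
      map_mul' := by
        intro x y
        push_cast
        rw [mul_pow, mul_inv] }
  have hs : Summable (fun n => ‖f n‖) := by
    have : Summable (fun n : ℕ => ((n:ℝ) ^ 2)⁻¹) := Real.summable_nat_pow_inv.2 (by norm_num)
    refine this.congr fun n => ?_
    show ((n:ℝ) ^ 2)⁻¹ = ‖((n:ℝ) ^ 2)⁻¹‖
    rw [Real.norm_of_nonneg (by positivity)]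
  have h1 := EulerProduct.eulerProduct_completely_multiplicative hs
  have h2 : ∑' n, f n = Real.pi ^ 2 / 6 := by
    have := hasSum_zeta_two.tsum_eq
    rw [← this]
    apply tsum_congr
    intro n
    show ((n:ℝ) ^ 2)⁻¹ = 1 / (n:ℝ) ^ 2
    rw [one_div]
  rw [h2] at h1
  have h3 := h1.inv₀ (by positivity)
  have h4 : (Real.pi ^ 2 / 6)⁻¹ = 6 / Real.pi ^ 2 := by rw [inv_div]
  rw [h4] at h3
  refine h3.congr fun n => ?_
  rw [← prod_inv_distrib]
  refine prod_congr rfl fun p _ => ?_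
  rw [inv_inv]
  show 1 - ((p:ℝ) ^ 2)⁻¹ = 1 - 1 / (p:ℝ) ^ 2
  rw [one_div]

lemma tendsto_kap {b : ℕ} (hb : 2 ≤ b) :
    Tendsto (fun n : ℕ => ∏ p ∈ Sp b n, kap b p) atTop (nhds (del b)) := by
  have h1 := (tendsto_zeta.mul_const (∏ p ∈ b.primeFactors, (1 - 1 / (p:ℝ) ^ 2)⁻¹)).mul_const
    (if Even b then (1:ℝ) else (3 * b - 1) / (3 * b))
  refine h1.congr' ?_
  rw [EventuallyEq, eventually_atTop]
  refine ⟨b + 3, fun n hn => ?_⟩
  have hsub : b.primeFactors ⊆ Nat.primesBelow n := by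
    intro p hp
    rw [Nat.mem_primesBelow]
    have := Nat.le_of_mem_primeFactors hp
    exact ⟨by omega, Nat.prime_of_mem_primeFactors hp⟩
  have hne : ∀ p : ℕ, p.Prime → (1 - 1 / (p:ℝ) ^ 2) ≠ 0 := by
    intro p hp
    have h2 : (2:ℝ) ≤ p := by exact_mod_cast hp.two_le
    have h3 : 1 / (p:ℝ) ^ 2 ≤ 1 / 2 ^ 2 := by
      apply one_div_le_one_div_of_le (by positivity)
      gcongr
    norm_num at h3 ⊢
    intro h4
    linarith
  have hS : Sp b n = Nat.primesBelow n \ b.primeFactors := by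
    ext p
    rw [mem_Sp, Finset.mem_sdiff, Nat.mem_primesBelow, Nat.mem_primeFactors]
    constructor
    · rintro ⟨h2, h3⟩
      exact ⟨h2, fun h4 => h3 h4.2.1⟩
    · rintro ⟨h2, h3⟩
      refine ⟨h2, fun h4 => h3 ⟨h2.2, h4, by omega⟩⟩
  have h2 : (∏ p ∈ Nat.primesBelow n, (1 - 1 / (p:ℝ) ^ 2)) *
      (∏ p ∈ b.primeFactors, (1 - 1 / (p:ℝ) ^ 2)⁻¹) = ∏ p ∈ Sp b n, (1 - 1 / (p:ℝ) ^ 2) := by
    rw [← prod_sdiff hsub, ← hS, prod_inv_distrib, mul_assoc, mul_inv_cancel₀, mul_one]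
    rw [prod_ne_zero_iff]
    intro p hp
    exact hne p (Nat.prime_of_mem_primeFactors hp)
  rw [h2]
  by_cases hev : Even b
  · rw [if_pos hev, mul_one]
    refine prod_congr rfl fun p hp => ?_
    unfold kap
    rw [if_neg]
    rintro rfl
    exact (mem_Sp.1 hp).2 hev.two_dvd
  · rw [if_neg hev]
    have h2S : 2 ∈ Sp b n := by
      rw [mem_Sp]
      exact ⟨⟨by omega, Nat.prime_two⟩, fun h => hev (even_iff_two_dvd.2 h)⟩
    rw [← mul_prod_erase _ _ h2S, ← mul_prod_erase _ (kap b) h2S]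
    have h5 : ∏ p ∈ (Sp b n).erase 2, kap b p = ∏ p ∈ (Sp b n).erase 2, (1 - 1 / (p:ℝ) ^ 2) := by
      refine prod_congr rfl fun p hp => ?_
      unfold kap
      rw [if_neg (mem_erase.1 hp).1]
    rw [h5]
    have hb0 : (b:ℝ) ≠ 0 := by positivity
    unfold kap
    rw [if_pos rfl]
    push_cast
    field_simp
    ring

lemma del_pos {b : ℕ} (hb : 2 ≤ b) : 0 < del b := by
  unfold del
  have h1 : 0 < ∏ p ∈ b.primeFactors, (1 - 1 / (p:ℝ) ^ 2)⁻¹ := by
    apply prod_pos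
    intro p hp
    have h2 : (2:ℝ) ≤ p := by exact_mod_cast (Nat.prime_of_mem_primeFactors hp).two_le
    have h3 : 1 / (p:ℝ) ^ 2 ≤ 1 / 2 ^ 2 := by
      apply one_div_le_one_div_of_le (by positivity)
      gcongr
    norm_num at h3
    rw [inv_pos, one_div]
    linarith
  have h2 : (0:ℝ) < if Even b then (1:ℝ) else (3 * (b:ℝ) - 1) / (3 * b) := by
    split_ifs
    · norm_num
    · have : (2:ℝ) ≤ b := by exact_mod_cast hb
      apply div_pos <;> linarith
  have := Real.pi_pos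
  positivity

end Pool.Agent.H610.SqF
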