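import Mathlib

set_option autoImplicit false

/-!
# Digits, reversal, palindromes (leading zeros allowed)
-/

namespace Pool.Agent.H610.SqF

open Finset

/-- the digit number `i` of `n` in base `b` -/
def dig (b n i : ℕ) : ℕ := n / b ^ i % b

/-- reversal of the `K` lowest digits -/
def rv (b K n : ℕ) : ℕ := ∑ i ∈ range K, dig b n i * b ^ (K - 1 - i)

/-- `n` is a palindrome of length `L`, leading zeros allowed -/
def Pal (b L n : ℕ) : Prop := n < b ^ L ∧ ∀ i < L, dig b n i = dig b n (L - 1 - i)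

instance (b L n : ℕ) : Decidable (Pal b L n) := by unfold Pal; infer_instance

variable {b : ℕ}

lemma dig_lt (hb : 0 < b) (n i : ℕ) : dig b n i < b := Nat.mod_lt _ hb

lemma mod_eq_sum (b n K : ℕ) : n % b ^ K = ∑ i ∈ range K, dig b n i * b ^ i := by
  induction K with
  | zero => simp [Nat.mod_one]
  | succ K ih =>
    rw [sum_range_succ, ← ih, pow_succ, Nat.mod_mul, dig, mul_comm (b ^ K)]

lemma eq_sum (b n K : ℕ) (h : n < b ^ K) : n = ∑ i ∈ range K, dig b n i * b ^ i := by
  rw [← mod_eq_sum, Nat.mod_eq_of_lt h]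

lemma dig_div (b n K i : ℕ) : dig b (n / b ^ K) i = dig b n (K + i) := by
  unfold dig
  rw [Nat.div_div_eq_div_mul, pow_add]

lemma dig_mod (b n K i : ℕ) (hi : i < K) : dig b (n % b ^ K) i = dig b n i := by
  unfold dig
  obtain ⟨c, rfl⟩ : ∃ c, K = i + 1 + c := ⟨K - (i + 1), by omega⟩
  rw [pow_add, pow_add, pow_one, mul_assoc, Nat.mod_mul_right_div_self, mul_comm b,
    Nat.mod_mul_left_mod]

/-- sums of digits are smaller than the power -/
lemma sum_lt (hb : 0 < b) (f : ℕ → ℕ) (K : ℕ) (hf : ∀ i < K, f i < b) :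
    ∑ i ∈ range K, f i * b ^ i < b ^ K := by
  induction K with
  | zero => simp
  | succ K ih =>
    rw [sum_range_succ, pow_succ]
    have h1 := ih (fun i hi => hf i (by omega))
    have h2 := hf K (by omega)
    nlinarith [pow_pos hb K]

lemma dig_sum (hb : 0 < b) (f : ℕ → ℕ) (K i : ℕ) (hi : i < K) (hf : ∀ i < K, f i < b) :
    dig b (∑ i ∈ range K, f i * b ^ i) i = f i := by
  have h0 : ∑ i ∈ range K, f i * b ^ i = ∑ j ∈ range i, f j * b ^ j +
      (f i + b * ∑ j ∈ range (K - i - 1), f (i + 1 + j) * b ^ j) * b ^ i := by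
    obtain ⟨c, rfl⟩ : ∃ c, K = (i + 1) + c := ⟨K - (i + 1), by omega⟩
    rw [sum_range_add, sum_range_succ, show i + 1 + c - i - 1 = c by omega, mul_sum, add_mul,
      sum_mul, add_assoc]
    congr 2
    refine sum_congr rfl fun j _ => ?_
    rw [pow_add, pow_succ]
    ring
  rw [h0, dig, Nat.add_mul_div_right _ _ (pow_pos hb i),
    Nat.div_eq_of_lt (sum_lt hb f i fun j hj => hf j (by omega)), zero_add,
    Nat.add_mul_mod_self_left, Nat.mod_eq_of_lt (hf i hi)]

lemma rv_eq (b K n : ℕ) : rv b K n = ∑ i ∈ range K, dig b n (K - 1 - i) * b ^ i := by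
  unfold rv
  rw [← sum_range_reflect]
  refine sum_congr rfl fun i hi => ?_
  rw [mem_range] at hi
  rw [show K - 1 - (K - 1 - i) = i by omega]

lemma rv_lt (hb : 0 < b) (K n : ℕ) : rv b K n < b ^ K := by
  rw [rv_eq]
  exact sum_lt hb _ K fun i _ => dig_lt hb _ _

lemma dig_rv (hb : 0 < b) (K n i : ℕ) (hi : i < K) : dig b (rv b K n) i = dig b n (K - 1 - i) := by
  rw [rv_eq]
  exact dig_sum hb (fun i => dig b n (K - 1 - i)) K i hi fun i _ => dig_lt hb _ _

lemma rv_inj (hb : 0 < b) (K : ℕ) {m n : ℕ} (hm : m < b ^ K) (hn : n < b ^ K)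
    (h : rv b K m = rv b K n) : m = n := by
  rw [eq_sum b m K hm, eq_sum b n K hn]
  refine sum_congr rfl fun i hi => ?_
  rw [mem_range] at hi
  have h1 := dig_rv hb K m (K - 1 - i) (by omega)
  have h2 := dig_rv hb K n (K - 1 - i) (by omega)
  rw [show K - 1 - (K - 1 - i) = i by omega] at h1 h2
  rw [← h1, ← h2, h]

/-- splitting of the reversal -/
lemma rv_add (hb : 0 < b) (I J n₁ n₂ : ℕ) (h1 : n₁ < b ^ I) :
    rv b (I + J) (n₁ + b ^ I * n₂) = b ^ J * rv b I n₁ + rv b J n₂ := by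
  unfold rv
  rw [sum_range_add, mul_sum]
  congr 1
  · refine sum_congr rfl fun i hi => ?_
    rw [mem_range] at hi
    have e : dig b (n₁ + b ^ I * n₂) i = dig b n₁ i := by
      rw [← dig_mod b (n₁ + b ^ I * n₂) I i hi, Nat.add_mul_mod_self_left, Nat.mod_eq_of_lt h1]
    rw [e, show I + J - 1 - i = J + (I - 1 - i) by omega, pow_add]
    ring
  · refine sum_congr rfl fun i hi => ?_
    rw [mem_range] at hi
    have e : dig b (n₁ + b ^ I * n₂) (I + i) = dig b n₂ i := by
      rw [← dig_div, Nat.add_mul_div_left _ _ (pow_pos hb I), Nat.div_eq_of_lt h1, zero_add]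
    rw [e, show I + J - 1 - (I + i) = J - 1 - i by omega]

/-- the lower digits of a palindrome are the reversal of the leading digits -/
lemma Pal.mod_eq {L n : ℕ} (h : Pal b L n) (K : ℕ) (hK : K ≤ L) :
    n % b ^ K = rv b K (n / b ^ (L - K)) := by
  rw [mod_eq_sum, rv_eq]
  refine sum_congr rfl fun i hi => ?_
  rw [mem_range] at hi
  rw [dig_div, h.2 i (by omega), show L - K + (K - 1 - i) = L - 1 - i by omega]

end Pool.Agent.H610.SqF
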