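import Pool.Agent.H610.SqF.Rec

set_option autoImplicit false

/-!
# Distribution of the palindromes in residue classes
-/

namespace Pool.Agent.H610.SqF

open Finset Filter

section
variable {Q : ℕ} [NeZero Q]

/-- the limits of the normalised exponential sums -/
noncomputable def lam (b : ℕ) (t : ZMod Q) : ℂ := if t = 0 then 1 else if 2 * t = 0 then 1 / b else 0

omit [NeZero Q] in
lemma odd_of_torsion {b : ℕ} (hbQ : b.Coprime Q) {t : ZMod Q} (ht : t ≠ 0) (h2 : 2 * t = 0) :
    Odd b := by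
  by_contra hodd
  rw [Nat.not_odd_iff_even] at hodd
  have h3 : Nat.Coprime 2 Q := Nat.Coprime.coprime_dvd_left hodd.two_dvd hbQ
  have h4 : IsUnit ((2 : ℕ) : ZMod Q) := (ZMod.isUnit_iff_coprime _ _).2 h3
  apply ht
  push_cast at h4
  exact (h4.mul_right_eq_zero).1 h2

omit [NeZero Q] in
lemma mul_pow_of_torsion {b : ℕ} (hb : Odd b) {t : ZMod Q} (h2 : 2 * t = 0) (k : ℕ) :
    t * (b : ZMod Q) ^ k = t := by
  induction k with
  | zero => simp
  | succ k ih =>
    obtain ⟨c, hc⟩ := hb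
    rw [pow_succ, ← mul_assoc, ih, hc]
    push_cast
    linear_combination (c : ZMod Q) * h2

lemma char_torsion {t : ZMod Q} (ht : t ≠ 0) (h2 : 2 * t = 0) (n : ℕ) :
    (ZMod.stdAddChar (t * (n : ZMod Q)) : ℂ) = (-1) ^ n := by
  have h1 : (ZMod.stdAddChar t : ℂ) ≠ 1 := by
    intro h
    apply ht
    apply ZMod.injective_stdAddChar
    rw [h, AddChar.map_zero_eq_one]
  have h3 : (ZMod.stdAddChar t : ℂ) * ZMod.stdAddChar t = 1 := by
    rw [← AddChar.map_add_eq_mul, ← two_mul, h2, AddChar.map_zero_eq_one]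
  have h4 : (ZMod.stdAddChar t : ℂ) = -1 := by
    rcases mul_self_eq_one_iff.1 h3 with h | h
    · exact absurd h h1
    · exact h
  rw [mul_comm, ← nsmul_eq_mul, AddChar.map_nsmul_eq_pow, h4]

lemma SS_torsion {b : ℕ} (hb : Odd b) {t : ZMod Q} (ht : t ≠ 0) (h2 : 2 * t = 0) (h : ℕ) :
    SS b h t = (b:ℂ) ^ h := by
  have hb0 : 0 < b := hb.pos
  induction h with
  | zero =>
    have hP : PP b 0 = range b := by
      ext n
      rw [mem_PP, mem_range]
      unfold Pal
      simp
    unfold SS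
    rw [hP]
    simp only [char_torsion ht h2]
    rw [pow_zero]
    obtain ⟨c, rfl⟩ := hb
    clear hb0 hP
    induction c with
    | zero => simp
    | succ c ih =>
      rw [show 2 * (c + 1) + 1 = 2 * c + 1 + 1 + 1 by ring, sum_range_succ, sum_range_succ, ih]
      ring
  | succ h ih =>
    have e1 : t * (b : ZMod Q) = t := by
      have := mul_pow_of_torsion hb h2 1
      rwa [pow_one] at this
    have e2 : t * (1 + (b : ZMod Q) ^ (2 * (h + 1))) = 0 := by
      rw [mul_add, mul_one, mul_pow_of_torsion hb h2]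
      rw [← h2]
      ring
    rw [SS_succ hb0, e1, e2, ih]
    have e3 : DS b (0 : ZMod Q) = b := by
      unfold DS
      simp
    rw [e3]
    ring

lemma totient_pos' {b : ℕ} (hb : 2 ≤ b) : (0:ℝ) < Nat.totient b := by
  exact_mod_cast Nat.totient_pos.2 (by omega)

/-- limits of the exponential sums over palindromes prime to the base -/
theorem tendsto_GG {b : ℕ} (hb : 2 ≤ b) (hbQ : b.Coprime Q) (t : ZMod Q) :
    Tendsto (fun h : ℕ => GG b (h + 1) t / ((Nat.totient b : ℂ) * (b:ℂ) ^ (h + 1))) atTop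
      (nhds (lam b t)) := by
  have hb0 : 0 < b := by omega
  have hbc : (b:ℂ) ≠ 0 := by exact_mod_cast hb0.ne'
  have hφ := totient_pos' hb
  have hφc : (Nat.totient b : ℂ) ≠ 0 := by
    have : Nat.totient b ≠ 0 := (Nat.totient_pos.2 hb0).ne'
    exact_mod_cast this
  unfold lam
  by_cases ht : t = 0
  · rw [if_pos ht]
    refine tendsto_const_nhds.congr fun h => ?_
    have e : GG b (h + 1) t = (Nat.totient b : ℂ) * (b:ℂ) ^ (h + 1) := by
      unfold GG
      rw [ht]
      simp only [zero_mul, AddChar.map_zero_eq_one]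
      rw [sum_const, card_FF hb, nsmul_eq_mul, mul_one]
      push_cast
      rfl
    rw [e, div_self (mul_ne_zero hφc (pow_ne_zero _ hbc))]
  rw [if_neg ht]
  by_cases h2 : 2 * t = 0
  · rw [if_pos h2]
    have hodd := odd_of_torsion hbQ ht h2
    refine tendsto_const_nhds.congr fun h => ?_
    have e1 : t * (b : ZMod Q) = t := by
      have := mul_pow_of_torsion hodd h2 1
      rwa [pow_one] at this
    have e2 : t * (1 + (b : ZMod Q) ^ (2 * (h + 1))) = 0 := by
      rw [mul_add, mul_one, mul_pow_of_torsion hodd h2]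
      rw [← h2]
      ring
    have e3 : (∑ x ∈ UU b, (ZMod.stdAddChar ((0 : ZMod Q) * (x : ZMod Q)) : ℂ)) = Nat.totient b := by
      simp only [zero_mul, AddChar.map_zero_eq_one]
      rw [sum_const, card_UU, nsmul_eq_mul, mul_one]
    rw [GG_succ hb, e1, e2, SS_torsion hodd ht h2, e3]
    field_simp
    ring
  · rw [if_neg h2]
    obtain ⟨ρ, hρ0, hρ1, P, hP, hd⟩ := decay (Q := Q) hb hbQ
    have hbu : IsUnit (b : ZMod Q) := (ZMod.isUnit_iff_coprime _ _).2 hbQ
    have h2' : 2 * (t * (b : ZMod Q)) ≠ 0 := by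
      intro h0
      apply h2
      rw [← mul_assoc] at h0
      exact (hbu.mul_left_eq_zero).1 h0
    have hbound : ∀ h : ℕ, ‖GG b (h + 1) t / ((Nat.totient b : ℂ) * (b:ℂ) ^ (h + 1))‖ ≤ ρ ^ (h / P) := by
      intro h
      rw [norm_div, norm_mul, norm_pow, Complex.norm_natCast, Complex.norm_natCast,
        div_le_iff₀ (by positivity), GG_succ hb, norm_mul]
      have h3 : ‖∑ x ∈ UU b, (ZMod.stdAddChar (t * (1 + (b : ZMod Q) ^ (2 * (h + 1))) *
          (x : ZMod Q)) : ℂ)‖ ≤ Nat.totient b := by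
        refine (norm_sum_le _ _).trans ?_
        simp only [AddChar.norm_apply]
        rw [sum_const, card_UU, nsmul_eq_mul, mul_one]
      have h4 := hd (h / P) h (Nat.div_mul_le_self h P) (t * (b : ZMod Q)) h2'
      calc _ ≤ (Nat.totient b : ℝ) * (ρ ^ (h / P) * (b:ℝ) ^ (h + 1)) :=
            mul_le_mul h3 h4 (norm_nonneg _) hφ.le
        _ = _ := by ring
    refine squeeze_zero_norm hbound ?_
    exact (tendsto_pow_atTop_nhds_zero_of_lt_one hρ0 hρ1).comp (Nat.tendsto_div_const_atTop hP.ne')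

/-- the limiting weight of a residue class -/
noncomputable def wgt (b Q r : ℕ) : ℝ := (1 + (if Even Q then (-1) ^ r / (b:ℝ) else 0)) / Q

open Classical in
lemma cnt_eq (b h r : ℕ) :
    ((((FF b h).filter (fun n : ℕ => (n : ZMod Q) = r)).card : ℕ) : ℂ) =
      (1 / (Q:ℂ)) * ∑ t : ZMod Q, ZMod.stdAddChar (-(t * (r : ZMod Q))) * GG b h t := by
  have hQ : (Q:ℂ) ≠ 0 := by exact_mod_cast NeZero.ne Q
  have h1 : ∑ t : ZMod Q, ZMod.stdAddChar (-(t * (r : ZMod Q))) * GG b h t =
      ∑ n ∈ FF b h, ∑ t : ZMod Q, (ZMod.stdAddChar (t * ((n : ZMod Q) - (r : ZMod Q))) : ℂ) := by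
    unfold GG
    rw [sum_comm]
    refine sum_congr rfl fun t _ => ?_
    rw [mul_sum]
    refine sum_congr rfl fun n _ => ?_
    rw [← AddChar.map_add_eq_mul]
    congr 1
    ring
  have h2 : ∀ n ∈ FF b h, ∑ t : ZMod Q, (ZMod.stdAddChar (t * ((n : ZMod Q) - (r : ZMod Q))) : ℂ) =
      if (n : ZMod Q) = r then (Q:ℂ) else 0 := by
    intro n _
    rw [AddChar.sum_mulShift _ (ZMod.isPrimitive_stdAddChar Q), ZMod.card]
    simp only [sub_eq_zero]
    split_ifs <;> simp
  rw [h1, sum_congr rfl h2, ← sum_filter, sum_const, nsmul_eq_mul]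
  field_simp

lemma lam_sum {b : ℕ} (_hbQ : b.Coprime Q) (r : ℕ) :
    (1 / (Q:ℂ)) * ∑ t : ZMod Q, ZMod.stdAddChar (-(t * (r : ZMod Q))) * lam b t =
      ((wgt b Q r : ℝ) : ℂ) := by
  classical
  have hQ : (Q:ℂ) ≠ 0 := by exact_mod_cast NeZero.ne Q
  have hQ0 : 0 < Q := NeZero.pos Q
  unfold wgt
  have h0 : ∑ t : ZMod Q, ZMod.stdAddChar (-(t * (r : ZMod Q))) * lam b t =
      1 + ∑ t ∈ (univ : Finset (ZMod Q)).filter (fun t => t ≠ 0 ∧ 2 * t = 0),
        ZMod.stdAddChar (-(t * (r : ZMod Q))) * (1 / (b:ℂ)) := by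
    have h1 : ∀ t : ZMod Q, (ZMod.stdAddChar (-(t * (r : ZMod Q))) : ℂ) * lam b t =
        (if t = 0 then 1 else 0) + (if t ≠ 0 ∧ 2 * t = 0 then
          ZMod.stdAddChar (-(t * (r : ZMod Q))) * (1 / (b:ℂ)) else 0) := by
      intro t
      unfold lam
      by_cases ht : t = 0
      · simp [ht]
      · by_cases h2 : 2 * t = 0 <;> simp [ht, h2]
    rw [sum_congr rfl (fun t _ => h1 t), sum_add_distrib]
    congr 1
    · rw [Finset.sum_ite_eq' univ (0 : ZMod Q) (fun _ => (1:ℂ)), if_pos (mem_univ _)]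
    · rw [sum_filter]
  rw [h0]
  by_cases hE : Even Q
  · rw [if_pos hE]
    obtain ⟨c, hc⟩ := hE.two_dvd
    have hc0 : 0 < c := by omega
    have hfil : (univ : Finset (ZMod Q)).filter (fun t => t ≠ 0 ∧ 2 * t = 0) = {(c : ZMod Q)} := by
      ext t
      rw [mem_filter, mem_singleton]
      constructor
      · rintro ⟨_, ht, h2⟩
        have h3 : Q ∣ 2 * t.val := by
          rw [← ZMod.natCast_eq_zero_iff]
          push_cast
          rw [ZMod.natCast_zmod_val, h2]
        have h4 := ZMod.val_lt t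
        have h5 : t.val ≠ 0 := by
          intro h
          exact ht ((ZMod.val_eq_zero t).1 h)
        obtain ⟨k, hk⟩ := h3
        have h6 : t.val = c * k := by
          have : 2 * t.val = 2 * (c * k) := by
            rw [hk]
            nth_rewrite 1 [hc]
            ring
          omega
        have h7 : k = 1 := by
          rcases k with _ | _ | k
          · simp at h6
            exact absurd h6 (fun h => h5 (by rw [h6]; simp [ZMod.val_zero]))
          · rfl
          · exfalso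
            have h8 : c * (k + 1 + 1) = 2 * c + c * k := by ring
            omega
        rw [h7, mul_one] at h6
        rw [← ZMod.natCast_zmod_val t, h6]
      · rintro rfl
        refine ⟨mem_univ _, ?_, ?_⟩
        · intro h
          rw [ZMod.natCast_eq_zero_iff] at h
          have := Nat.le_of_dvd hc0 h
          omega
        · have : ((2 * c : ℕ) : ZMod Q) = 0 := by rw [← hc, ZMod.natCast_self]
          push_cast at this
          exact this
    have hcm : (c : ZMod Q) ∈ (univ : Finset (ZMod Q)).filter (fun t => t ≠ 0 ∧ 2 * t = 0) := by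
      rw [hfil]; simp
    rw [mem_filter] at hcm
    rw [hfil, sum_singleton]
    have h9 : -((c : ZMod Q) * (r : ZMod Q)) = (c : ZMod Q) * (r : ZMod Q) := by
      have := hcm.2.2
      linear_combination -(r : ZMod Q) * this
    rw [h9, char_torsion hcm.2.1 hcm.2.2]
    push_cast
    ring
  · rw [if_neg hE]
    have hfil : (univ : Finset (ZMod Q)).filter (fun t => t ≠ 0 ∧ 2 * t = 0) = ∅ := by
      apply filter_eq_empty_iff.2
      rintro t _ ⟨ht, h2⟩
      apply ht
      have h3 : Nat.Coprime 2 Q := by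
        exact Nat.coprime_two_left.2 (Nat.not_even_iff_odd.1 hE)
      have h4 : IsUnit ((2 : ℕ) : ZMod Q) := (ZMod.isUnit_iff_coprime _ _).2 h3
      push_cast at h4
      exact (h4.mul_right_eq_zero).1 h2
    rw [hfil, sum_empty]
    push_cast
    ring

open Classical in
/-- the distribution in residue classes -/
theorem tendsto_cnt {b : ℕ} (hb : 2 ≤ b) (hbQ : b.Coprime Q) (r : ℕ) :
    Tendsto (fun h : ℕ => ((((FF b (h + 1)).filter (fun n : ℕ => (n : ZMod Q) = r)).card : ℕ) : ℝ) /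
      ((Nat.totient b : ℝ) * (b:ℝ) ^ (h + 1))) atTop (nhds (wgt b Q r)) := by
  have h1 : Tendsto (fun h : ℕ => (1 / (Q:ℂ)) * ∑ t : ZMod Q,
      ZMod.stdAddChar (-(t * (r : ZMod Q))) *
        (GG b (h + 1) t / ((Nat.totient b : ℂ) * (b:ℂ) ^ (h + 1)))) atTop
      (nhds ((1 / (Q:ℂ)) * ∑ t : ZMod Q, ZMod.stdAddChar (-(t * (r : ZMod Q))) * lam b t)) := by
    apply Tendsto.const_mul
    apply tendsto_finsetSum
    intro t _
    exact (tendsto_GG hb hbQ t).const_mul _
  rw [lam_sum hbQ] at h1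
  have h2 := (Complex.continuous_re.tendsto _).comp h1
  rw [Complex.ofReal_re] at h2
  refine h2.congr fun h => ?_
  simp only [Function.comp]
  have e : (1 / (Q:ℂ)) * ∑ t : ZMod Q, ZMod.stdAddChar (-(t * (r : ZMod Q))) *
        (GG b (h + 1) t / ((Nat.totient b : ℂ) * (b:ℂ) ^ (h + 1))) =
      ((((((FF b (h + 1)).filter (fun n : ℕ => (n : ZMod Q) = r)).card : ℕ) : ℝ) /
      ((Nat.totient b : ℝ) * (b:ℝ) ^ (h + 1)) : ℝ) : ℂ) := by
    push_cast
    rw [cnt_eq, mul_sum, mul_sum, sum_div]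
    refine sum_congr rfl fun t _ => ?_
    ring
  rw [e, Complex.ofReal_re]

/-- the mean of a periodic function over the palindromes -/
theorem tendsto_mean {b : ℕ} (hb : 2 ≤ b) (hbQ : b.Coprime Q) (F : ℕ → ℝ) :
    Tendsto (fun h : ℕ => (∑ n ∈ FF b (h + 1), F (n % Q)) /
      ((Nat.totient b : ℝ) * (b:ℝ) ^ (h + 1))) atTop
      (nhds (∑ r ∈ range Q, F r * wgt b Q r)) := by
  classical
  have h1 : Tendsto (fun h : ℕ => ∑ r ∈ range Q, F r *
      (((((FF b (h + 1)).filter (fun n : ℕ => (n : ZMod Q) = r)).card : ℕ) : ℝ) /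
      ((Nat.totient b : ℝ) * (b:ℝ) ^ (h + 1)))) atTop (nhds (∑ r ∈ range Q, F r * wgt b Q r)) := by
    apply tendsto_finsetSum
    intro r _
    exact (tendsto_cnt hb hbQ r).const_mul _
  refine h1.congr fun h => ?_
  have h2 : ∑ n ∈ FF b (h + 1), F (n % Q) = ∑ r ∈ range Q,
      ∑ n ∈ (FF b (h + 1)).filter (fun n : ℕ => n % Q = r), F (n % Q) := by
    rw [Finset.sum_fiberwise_of_maps_to]
    intro n _
    exact mem_range.2 (Nat.mod_lt _ (NeZero.pos Q))
  rw [h2, sum_div]
  refine sum_congr rfl fun r hr => ?_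
  rw [mem_range] at hr
  have h3 : (FF b (h + 1)).filter (fun n : ℕ => (n : ZMod Q) = r) =
      (FF b (h + 1)).filter (fun n : ℕ => n % Q = r) := by
    apply filter_congr
    intro n _
    rw [ZMod.natCast_eq_natCast_iff', Nat.mod_eq_of_lt hr]
  rw [h3]
  have h4 : ∑ n ∈ (FF b (h + 1)).filter (fun n : ℕ => n % Q = r), F (n % Q) =
      (((FF b (h + 1)).filter (fun n : ℕ => n % Q = r)).card : ℝ) * F r := by
    rw [← nsmul_eq_mul, ← sum_const]
    refine sum_congr rfl fun n hn => ?_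
    rw [(mem_filter.1 hn).2]
  rw [h4]
  ring

end

end Pool.Agent.H610.SqF
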