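import Pool.Agent.H610.SqF.Mid

set_option autoImplicit false

/-!
# Large divisors
-/

namespace Pool.Agent.H610.SqF

open Finset Filter

/-- palindromes with exactly `2 h + 1` digits which are prime to the base -/
def FF (b h : ℕ) : Finset ℕ :=
  (range (b ^ (2 * h + 1))).filter (fun n => Pal b (2 * h + 1) n ∧ b ^ (2 * h) ≤ n ∧ n.Coprime b)

lemma mem_FF {b h n : ℕ} :
    n ∈ FF b h ↔ Pal b (2 * h + 1) n ∧ b ^ (2 * h) ≤ n ∧ n.Coprime b := by
  unfold FF
  rw [mem_filter, mem_range]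
  exact ⟨fun h => h.2, fun h => ⟨h.1.1, h⟩⟩

/-- the divisors `d` with given cofactor `m` and given leading digits `R` -/
def DD (b h K m R : ℕ) : Finset ℕ :=
  (range (b ^ (h + 1))).filter (fun d => d ^ 2 * m ∈ FF b h ∧ d ^ 2 * m / b ^ (2 * h + 1 - K) = R)

/-- the elements of `DD` lie in a short interval -/
lemma DD_short {b h K m R d d' : ℕ} (hb : 2 ≤ b) (hK : h ≤ 2 * K + 1) (hK2 : K ≤ h)
    (hd : d ∈ DD b h K m R) (hd' : d' ∈ DD b h K m R) (hle : d ≤ d') : d' < d + b ^ (K + 3) := by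
  unfold DD at hd hd'
  rw [mem_filter, mem_range, mem_FF] at hd hd'
  obtain ⟨hd1, ⟨_, hd2, _⟩, hd3⟩ := hd
  obtain ⟨_, ⟨_, _, _⟩, hd3'⟩ := hd'
  have hb0 : 0 < b := by omega
  obtain ⟨X, hX⟩ : ∃ X, X = b ^ (2 * h + 1 - K) := ⟨_, rfl⟩
  have hX0 : 0 < X := by rw [hX]; positivity
  rw [← hX] at hd3 hd3'
  -- the difference of the numbers
  have hdiff : d' ^ 2 * m < d ^ 2 * m + X := by
    have e1 := Nat.div_add_mod (d ^ 2 * m) X
    have e2 := Nat.div_add_mod (d' ^ 2 * m) X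
    have l2 := Nat.mod_lt (d' ^ 2 * m) hX0
    rw [hd3] at e1
    rw [hd3'] at e2
    omega
  by_contra hcon
  push Not at hcon
  obtain ⟨e, he⟩ : ∃ e, d' = d + e := ⟨d' - d, by omega⟩
  have he2 : b ^ (K + 3) ≤ e := by omega
  have h1 : e * (d * m) < X := by
    rw [he] at hdiff
    have : (d + e) ^ 2 * m = d ^ 2 * m + (2 * d * e + e ^ 2) * m := by ring
    rw [this] at hdiff
    have h2 : (2 * d * e + e ^ 2) * m < X := by omega
    have h3 : e * (d * m) ≤ (2 * d * e + e ^ 2) * m := by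
      have : (2 * d * e + e ^ 2) * m = e * (d * m) + (d * e + e ^ 2) * m := by ring
      omega
    omega
  have hd0 : 0 < d := by
    rcases Nat.eq_zero_or_pos d with h0 | h0
    · exfalso
      rw [h0] at hd2
      have : 0 < b ^ (2 * h) := by positivity
      simp at hd2
      omega
    · exact h0
  have h4 : e * b ^ (2 * h) < X * b ^ (h + 1) := by
    calc e * b ^ (2 * h) ≤ e * (d ^ 2 * m) := Nat.mul_le_mul_left _ hd2
      _ = (e * (d * m)) * d := by ring
      _ < X * d := Nat.mul_lt_mul_of_pos_right h1 hd0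
      _ ≤ X * b ^ (h + 1) := Nat.mul_le_mul_left _ hd1.le
  have h5 : X * b ^ (h + 1) ≤ b ^ (K + 3) * b ^ (2 * h) := by
    rw [hX, ← pow_add, ← pow_add]
    apply Nat.pow_le_pow_right hb0
    omega
  have h6 : b ^ (K + 3) * b ^ (2 * h) ≤ e * b ^ (2 * h) := Nat.mul_le_mul_right _ he2
  omega

/-- the number of elements of `DD` -/
lemma card_DD {b h K m R : ℕ} (hb : 2 ≤ b) (hK : h ≤ 2 * K + 1) (hK2 : K ≤ h) :
    (DD b h K m R).card ≤ b ^ 3 * (2 * ((b ^ K).divisors.card) ^ 2) := by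
  classical
  have hb0 : 0 < b := by omega
  have : NeZero (b ^ K) := ⟨pow_ne_zero _ (by omega)⟩
  rcases (DD b h K m R).eq_empty_or_nonempty with h0 | hne
  · rw [h0]; simp
  obtain ⟨d₀, hd₀, hmin⟩ := Finset.exists_min_image (DD b h K m R) id hne
  simp only [id] at hmin
  set S := (univ : Finset (ZMod (b ^ K))).filter
    (fun x => IsUnit x ∧ x * x = (d₀ : ZMod (b ^ K)) * d₀) with hS
  have hSc : S.card ≤ 2 * ((b ^ K).divisors.card) ^ 2 := card_sqrt (b ^ K) _
  have hmem : ∀ d ∈ DD b h K m R, (d : ZMod (b ^ K)) ∈ S := by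
    have key : ∀ d ∈ DD b h K m R, IsUnit (d : ZMod (b ^ K)) ∧ IsUnit (m : ZMod (b ^ K)) ∧
        ((d : ZMod (b ^ K)) * d) * m = (rv b K R : ZMod (b ^ K)) := by
      intro d hd
      unfold DD at hd
      rw [mem_filter, mem_range, mem_FF] at hd
      obtain ⟨_, ⟨hP, _, hc⟩, hR⟩ := hd
      have hc1 : (d ^ 2).Coprime b := Nat.Coprime.coprime_dvd_left (Dvd.intro _ rfl) hc
      have hc2 : m.Coprime b := Nat.Coprime.coprime_dvd_left (Dvd.intro_left _ rfl) hc
      have hc3 : d.Coprime b := (Nat.coprime_pow_left_iff (by norm_num) _ _).1 hc1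
      refine ⟨(ZMod.isUnit_iff_coprime _ _).2 (hc3.pow_right K),
        (ZMod.isUnit_iff_coprime _ _).2 (hc2.pow_right K), ?_⟩
      have h1 : d ^ 2 * m % b ^ K = rv b K R := by
        rw [hP.mod_eq K (by omega), hR]
      have h2 : ((d ^ 2 * m : ℕ) : ZMod (b ^ K)) = ((rv b K R : ℕ) : ZMod (b ^ K)) := by
        rw [← h1, ZMod.natCast_mod]
      rw [← h2]
      push_cast
      ring
    intro d hd
    rw [hS, mem_filter]
    obtain ⟨u1, u2, e1⟩ := key d hd
    obtain ⟨_, _, e0⟩ := key d₀ hd₀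
    refine ⟨mem_univ _, u1, ?_⟩
    apply u2.mul_right_cancel
    rw [e1, e0]
  have hfib : ∀ x ∈ S, ((DD b h K m R).filter (fun d : ℕ => (d : ZMod (b ^ K)) = x)).card ≤ b ^ 3 := by
    intro x _
    have h1 : ((DD b h K m R).filter (fun d : ℕ => (d : ZMod (b ^ K)) = x)).card ≤
        (range (b ^ 3)).card := by
      refine Finset.card_le_card_of_injOn (fun d => (d - d₀) / b ^ K) ?_ ?_
      · intro d hd
        simp only [coe_filter, Set.mem_ofPred_eq, coe_range, Set.mem_Iio] at hd ⊢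
        have h2 := DD_short hb hK hK2 hd₀ hd.1 (hmin d hd.1)
        rw [Nat.div_lt_iff_lt_mul (pow_pos hb0 _), ← pow_add]
        rw [show 3 + K = K + 3 by ring]
        have h3 : 0 < b ^ (K + 3) := pow_pos hb0 _
        omega
      · intro d hd e he hde
        simp only [coe_filter, Set.mem_ofPred_eq] at hd he hde
        have h3 : d ≡ e [MOD b ^ K] := by
          rw [← ZMod.natCast_eq_natCast_iff, hd.2, he.2]
        have l1 := hmin d hd.1
        have l2 := hmin e he.1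
        have e1 := Nat.div_add_mod (d - d₀) (b ^ K)
        have e2 := Nat.div_add_mod (e - d₀) (b ^ K)
        have m1 := Nat.mod_lt (d - d₀) (pow_pos hb0 K)
        have m2 := Nat.mod_lt (e - d₀) (pow_pos hb0 K)
        rw [hde] at e1
        apply h3.eq_of_abs_lt
        generalize (d - d₀) % b ^ K = u at e1 m1
        generalize (e - d₀) % b ^ K = v at e2 m2
        generalize b ^ K * ((e - d₀) / b ^ K) = w at e1 e2
        generalize b ^ K = Y at m1 m2
        rw [abs_lt]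
        omega
    rwa [card_range] at h1
  calc (DD b h K m R).card ≤ b ^ 3 * S.card :=
        Finset.card_le_mul_card_image_of_maps_to hmem _ hfib
    _ ≤ _ := Nat.mul_le_mul_left _ hSc

open Classical in
/-- palindromes divisible by a large square, crude form -/
lemma card_large {b h K σ : ℕ} (hb : 2 ≤ b) (hK : h ≤ 2 * K + 1) (hK2 : K ≤ h) (hσ : 2 * σ ≤ 2 * h + 1) :
    ((FF b h).filter (fun n => ∃ d, b ^ σ ≤ d ∧ d ^ 2 ∣ n)).card ≤
      b ^ (2 * h + 1 - 2 * σ) * b ^ K * (b ^ 3 * (2 * ((b ^ K).divisors.card) ^ 2)) := by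
  have hb0 : 0 < b := by omega
  have hsub : (FF b h).filter (fun n => ∃ d, b ^ σ ≤ d ∧ d ^ 2 ∣ n) ⊆
      (range (b ^ (2 * h + 1 - 2 * σ)) ×ˢ range (b ^ K)).biUnion
        (fun p => (DD b h K p.1 p.2).image (fun d => d ^ 2 * p.1)) := by
    intro n hn
    rw [mem_filter] at hn
    obtain ⟨hnF, d, hd, m, hm⟩ := hn
    have hnF' := hnF
    rw [mem_FF] at hnF'
    obtain ⟨hP, hn1, hn2⟩ := hnF'
    rw [mem_biUnion]
    refine ⟨(m, n / b ^ (2 * h + 1 - K)), ?_, ?_⟩
    · rw [mem_product, mem_range, mem_range]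
      refine ⟨?_, div_lt_pow hb0 (by omega) hP.1⟩
      by_contra hcon
      push Not at hcon
      simp only at hcon
      have h1 : b ^ (2 * h + 1) ≤ n := by
        rw [hm]
        calc b ^ (2 * h + 1) = (b ^ σ) ^ 2 * b ^ (2 * h + 1 - 2 * σ) := by
              rw [← pow_mul, ← pow_add]; congr 1; omega
          _ ≤ d ^ 2 * m := Nat.mul_le_mul (Nat.pow_le_pow_left hd 2) hcon
      have := hP.1
      omega
    · rw [mem_image]
      refine ⟨d, ?_, hm.symm⟩
      unfold DD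
      rw [mem_filter, mem_range]
      simp only
      rw [← hm]
      refine ⟨?_, hnF, rfl⟩
      by_contra hcon
      push Not at hcon
      have hn0 : 0 < n := lt_of_lt_of_le (by positivity) hn1
      have h1 : (b ^ (h + 1)) ^ 2 ≤ n :=
        (Nat.pow_le_pow_left hcon 2).trans (Nat.le_of_dvd hn0 ⟨m, hm⟩)
      have h2 : b ^ (2 * h + 1) ≤ (b ^ (h + 1)) ^ 2 := by
        rw [← pow_mul]
        exact Nat.pow_le_pow_right hb0 (by omega)
      have := hP.1
      omega
  calc _ ≤ _ := card_le_card hsub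
    _ ≤ ∑ p ∈ range (b ^ (2 * h + 1 - 2 * σ)) ×ˢ range (b ^ K),
        b ^ 3 * (2 * ((b ^ K).divisors.card) ^ 2) := by
        refine card_biUnion_le.trans (sum_le_sum fun p _ => ?_)
        exact card_image_le.trans (card_DD hb hK hK2)
    _ = _ := by
        rw [sum_const, card_product, card_range, card_range, smul_eq_mul]

open Classical in
/-- palindromes divisible by a large square -/
theorem large {b : ℕ} (hb : 2 ≤ b) (A : ℕ) : ∃ h₀ : ℕ, ∀ h ≥ h₀, ∀ σ, 4 * h ≤ 5 * σ + 5 →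
    σ ≤ h →
    ((FF b h).filter (fun n => ∃ d, b ^ σ ≤ d ∧ d ^ 2 ∣ n)).card * h ^ A ≤ b ^ h := by
  have hb0 : 0 < b := by omega
  obtain ⟨t₀, ht₀⟩ := poly_exp (80 * b) (2 * b + A + 1)
  refine ⟨10 * t₀ + 80, fun h hh σ hσ hσh => ?_⟩
  obtain ⟨K, hK⟩ : ∃ K, K = h / 2 := ⟨_, rfl⟩
  obtain ⟨t, ht⟩ : ∃ t, t = (h - 60) / 10 := ⟨_, rfl⟩
  have h1 := card_large (b := b) (h := h) (K := K) (σ := σ) hb (by omega) (by omega) (by omega)
  have hK0 : 1 ≤ K := by omega
  have h2 : 2 * ((b ^ K).divisors.card) ^ 2 * h ^ A ≤ 2 ^ t := by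
    calc 2 * ((b ^ K).divisors.card) ^ 2 * h ^ A ≤ 2 * ((b * K + 1) ^ b) ^ 2 * h ^ A := by
          gcongr
          exact card_divisors_pow b K hb0
      _ = 2 * (b * K + 1) ^ (2 * b) * h ^ A := by rw [← pow_mul, mul_comm b 2]
      _ ≤ (80 * b * t + 80 * b) * (80 * b * t + 80 * b) ^ (2 * b) * (80 * b * t + 80 * b) ^ A := by
          have e1 : h ≤ 10 * t + 70 := by omega
          have e2 : h ≤ 80 * b * t + 80 * b := by nlinarith
          have e3 : b * K + 1 ≤ 80 * b * t + 80 * b := by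
            have : K ≤ 5 * t + 35 := by omega
            nlinarith
          have e4 : 2 ≤ 80 * b * t + 80 * b := by nlinarith
          gcongr
      _ = (80 * b * t + 80 * b) ^ (2 * b + A + 1) := by ring
      _ ≤ 2 ^ t := ht₀ t (by omega)
  calc _ ≤ b ^ (2 * h + 1 - 2 * σ) * b ^ K * (b ^ 3 * (2 * ((b ^ K).divisors.card) ^ 2)) * h ^ A :=
        Nat.mul_le_mul_right _ h1
    _ = b ^ (2 * h + 1 - 2 * σ) * b ^ K * b ^ 3 * (2 * ((b ^ K).divisors.card) ^ 2 * h ^ A) := by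
        ring
    _ ≤ b ^ (2 * h + 1 - 2 * σ) * b ^ K * b ^ 3 * 2 ^ t := Nat.mul_le_mul_left _ h2
    _ ≤ b ^ (2 * h + 1 - 2 * σ) * b ^ K * b ^ 3 * b ^ t :=
        Nat.mul_le_mul_left _ (Nat.pow_le_pow_left hb t)
    _ = b ^ (2 * h + 1 - 2 * σ + K + 3 + t) := by rw [← pow_add, ← pow_add, ← pow_add]
    _ ≤ b ^ h := Nat.pow_le_pow_right hb0 (by omega)

end Pool.Agent.H610.SqF
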