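import Pool.Agent.H610.SqF.Seg

set_option autoImplicit false

/-!
# Squarefree palindromes: the asymptotic formula
-/

namespace Pool.Agent.H610.SqF

open Finset Filter

lemma FF_sub_PP (b h : ℕ) : FF b h ⊆ PP b h := by
  intro n hn
  rw [mem_FF] at hn
  rw [mem_PP]
  exact hn.1

lemma card_FF_le {b : ℕ} (hb : 0 < b) (h : ℕ) : (FF b h).card ≤ b ^ (h + 1) := by
  rw [← card_PP hb h]
  exact card_le_card (FF_sub_PP b h)

/-- squarefree numbers among the palindromes with `2 h + 1` digits below `y` -/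
theorem seg_sqf {b : ℕ} (hb : 2 ≤ b) (ε : ℝ) (hε : 0 < ε) : ∃ h₀ : ℕ, ∀ h ≥ h₀, ∀ y : ℕ,
    |(((FF b h).filter (fun n => n < y ∧ Squarefree n)).card : ℝ) -
      del b * ((FF b h).filter (fun n => n < y)).card| ≤ ε * (b:ℝ) ^ h := by
  have hb0 : 0 < b := by omega
  have hbr : (2:ℝ) ≤ b := by exact_mod_cast hb
  obtain ⟨s₀, h₁, htail⟩ := tail hb 2 le_rfl
  -- the parameter σ
  have hpow : Tendsto (fun σ : ℕ => b ^ σ) atTop atTop := tendsto_pow_atTop_atTop_of_one_lt (by omega)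
  have hk := (tendsto_kap hb).comp hpow
  rw [Metric.tendsto_atTop] at hk
  obtain ⟨s₁, hs₁⟩ := hk (ε / (3 * b)) (by positivity)
  obtain ⟨s₂, hs₂⟩ := exists_nat_gt (21 * (b:ℝ) ^ 5 * 3 / ε)
  obtain ⟨σ, hσ⟩ : ∃ σ, σ = max (max s₀ s₁) (max s₂ 1) := ⟨_, rfl⟩
  have hσ0 : s₀ ≤ σ := by omega
  have hσ1 : s₁ ≤ σ := by omega
  have hσ2 : s₂ ≤ σ := by omega
  have hσ3 : 1 ≤ σ := by omega
  have hS : ∀ p ∈ Sp b (b ^ σ), p.Prime := fun p hp => (mem_Sp.1 hp).1.2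
  have hSb : ∀ p ∈ Sp b (b ^ σ), ¬ p ∣ b := fun p hp => (mem_Sp.1 hp).2
  obtain ⟨B, hB, hBb⟩ := seg_prod hb (Sp b (b ^ σ)) hS hSb
  rw [Metric.tendsto_atTop] at hB
  obtain ⟨h₂, hh₂⟩ := hB (ε / 3) (by positivity)
  refine ⟨max (max h₁ h₂) (max σ 1), fun h hh y => ?_⟩
  obtain ⟨h', rfl⟩ : ∃ h', h = h' + 1 := ⟨h - 1, by omega⟩
  have e1 := hBb h' y
  have e2 := hh₂ (h' + 1) (by omega)
  rw [Real.dist_eq, sub_zero] at e2
  have e3 : B (h' + 1) ≤ ε / 3 * (b:ℝ) ^ (h' + 1) := by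
    have := (abs_lt.1 e2).2
    rw [div_lt_iff₀ (by positivity)] at this
    exact this.le
  have e4 := htail (h' + 1) (by omega) σ hσ0 (by omega)
  rw [show 2 - 1 = 1 by norm_num, pow_one] at e4
  have e5 : 21 * (b:ℝ) ^ (h' + 1 + 5) / (σ:ℝ) ≤ ε / 3 * (b:ℝ) ^ (h' + 1) := by
    rw [div_le_iff₀ (by positivity), pow_add]
    have h5 : 21 * (b:ℝ) ^ 5 * 3 / ε ≤ σ := by
      have : (s₂:ℝ) ≤ σ := by exact_mod_cast hσ2
      linarith
    rw [div_le_iff₀ hε] at h5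
    have h6 : (0:ℝ) ≤ (b:ℝ) ^ (h' + 1) := by positivity
    nlinarith [mul_le_mul_of_nonneg_left h5 h6]
  have e6 := hs₁ σ hσ1
  rw [Real.dist_eq] at e6
  simp only [Function.comp] at e6
  obtain ⟨N, hN⟩ : ∃ N, N = (FF b (h' + 1)).filter (fun n => n < y ∧ Squarefree n) := ⟨_, rfl⟩
  obtain ⟨N₂, hN₂⟩ : ∃ N₂, N₂ = (FF b (h' + 1)).filter
    (fun n => n < y ∧ ∀ p ∈ Sp b (b ^ σ), ¬ p ^ 2 ∣ n) := ⟨_, rfl⟩
  obtain ⟨C, hC⟩ : ∃ C, C = ((FF b (h' + 1)).filter (fun n => n < y)).card := ⟨_, rfl⟩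
  obtain ⟨T, hT, hTc⟩ : ∃ T : Finset ℕ, (∀ n, n ∈ T ↔ n ∈ FF b (h' + 1) ∧
      ∃ d, b ^ σ ≤ d ∧ d ^ 2 ∣ n) ∧ (T.card : ℝ) ≤ ε / 3 * (b:ℝ) ^ (h' + 1) := by
    classical
    exact ⟨_, fun n => mem_filter, e4.trans e5⟩
  rw [← hN₂, ← hC] at e1
  rw [← hN, ← hC]
  have hsub : N ⊆ N₂ := by
    intro n hn
    rw [hN, mem_filter] at hn
    rw [hN₂, mem_filter]
    refine ⟨hn.1, hn.2.1, fun p hp h7 => ?_⟩
    have := Nat.squarefree_iff_prime_squarefree.1 hn.2.2 p (hS p hp)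
    apply this
    rwa [← pow_two]
  have hsub2 : N₂ ⊆ N ∪ T := by
    intro n hn
    rw [hN₂, mem_filter] at hn
    rw [mem_union]
    by_cases hsq : Squarefree n
    · left
      rw [hN, mem_filter]
      exact ⟨hn.1, hn.2.1, hsq⟩
    · right
      rw [Nat.squarefree_iff_prime_squarefree] at hsq
      push Not at hsq
      obtain ⟨p, hp, hpn⟩ := hsq
      rw [← pow_two] at hpn
      rw [hT]
      refine ⟨hn.1, p, ?_, hpn⟩
      by_contra hlt
      push Not at hlt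
      apply hn.2.2 p _ hpn
      rw [mem_Sp]
      refine ⟨⟨hlt, hp⟩, fun hpb => ?_⟩
      have hco := (mem_FF.1 hn.1).2.2
      have h8 : p ∣ n := dvd_trans (dvd_pow_self p (by norm_num)) hpn
      exact (Nat.Prime.coprime_iff_not_dvd hp).1 (hco.coprime_dvd_left h8) hpb
  have c1 : (N.card : ℝ) ≤ N₂.card := by exact_mod_cast card_le_card hsub
  have c2 : (N₂.card : ℝ) ≤ N.card + T.card := by
    exact_mod_cast (card_le_card hsub2).trans (card_union_le _ _)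
  have c3 : (C : ℝ) ≤ (b:ℝ) ^ (h' + 1) * b := by
    have : C ≤ b ^ (h' + 1 + 1) := by
      rw [hC]
      exact (card_filter_le _ _).trans (card_FF_le hb0 _)
    calc (C:ℝ) ≤ ((b ^ (h' + 1 + 1) : ℕ) : ℝ) := by exact_mod_cast this
      _ = _ := by push_cast; rw [pow_succ]
  have c4 : |(∏ p ∈ Sp b (b ^ σ), kap b p) * (C:ℝ) - del b * C| ≤ ε / 3 * (b:ℝ) ^ (h' + 1) := by
    rw [← sub_mul, abs_mul, abs_of_nonneg (Nat.cast_nonneg C : (0:ℝ) ≤ (C:ℝ))]
    calc _ ≤ (ε / (3 * b)) * ((b:ℝ) ^ (h' + 1) * b) :=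
          mul_le_mul e6.le c3 (Nat.cast_nonneg _) (by positivity)
      _ = _ := by field_simp
  have c5 : |(N.card : ℝ) - N₂.card| ≤ T.card := by
    rw [abs_le]
    constructor <;> linarith [Nat.cast_nonneg (α := ℝ) T.card]
  have c6 : (N.card : ℝ) - del b * C = ((N.card : ℝ) - N₂.card) +
      ((N₂.card : ℝ) - (∏ p ∈ Sp b (b ^ σ), kap b p) * C) +
      ((∏ p ∈ Sp b (b ^ σ), kap b p) * (C:ℝ) - del b * C) := by ring
  rw [c6]
  refine (abs_add_three _ _ _).trans ?_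
  linarith

/-! ### the digits -/

lemma pal_iff {b : ℕ} (hb : 2 ≤ b) (n : ℕ) :
    (Nat.digits b n).reverse = Nat.digits b n ↔ Pal b (Nat.digits b n).length n := by
  have hdig : ∀ i, dig b n i = (Nat.digits b n).getD i 0 := by
    intro i
    rw [Nat.getD_digits n i hb]
    rfl
  obtain ⟨l, hl⟩ : ∃ l, l = Nat.digits b n := ⟨_, rfl⟩
  have hlt : n < b ^ (Nat.digits b n).length := Nat.lt_base_pow_length_digits (by omega)
  rw [← hl] at hdig hlt ⊢
  unfold Pal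
  constructor
  · intro h
    refine ⟨hlt, fun i hi => ?_⟩
    rw [hdig, hdig, List.getD_eq_getElem _ _ hi, List.getD_eq_getElem _ _ (by omega)]
    have h1 : l.reverse[i]'(by rw [List.length_reverse]; exact hi) = l[i] := by
      simp only [h]
    rw [← h1, List.getElem_reverse]
  · rintro ⟨_, h⟩
    apply List.ext_getElem
    · rw [List.length_reverse]
    · intro i h1 h2
      rw [List.getElem_reverse]
      have := h i h2
      rw [hdig, hdig, List.getD_eq_getElem _ _ h2, List.getD_eq_getElem _ _ (by omega)] at this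
      exact this.symm

/-- the palindromes with `2 h + 1` digits prime to the base -/
lemma mem_FF_iff {b : ℕ} (hb : 2 ≤ b) (h n : ℕ) : n ∈ FF b h ↔
    (Nat.digits b n).reverse = Nat.digits b n ∧ (Nat.digits b n).length = 2 * h + 1 ∧
      n.Coprime b := by
  rw [mem_FF, pal_iff hb]
  have hlen : (Nat.digits b n).length = 2 * h + 1 ↔ b ^ (2 * h) ≤ n ∧ n < b ^ (2 * h + 1) := by
    rw [← Nat.lt_digits_length_iff (by omega : 1 < b), ← Nat.digits_length_le_iff (by omega : 1 < b)]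
    omega
  constructor
  · rintro ⟨h1, h2, h3⟩
    have h4 := hlen.2 ⟨h2, h1.1⟩
    rw [h4]
    exact ⟨h1, rfl, h3⟩
  · rintro ⟨h1, h2, h3⟩
    have h4 := hlen.1 h2
    rw [h2] at h1
    exact ⟨h1, h4.1, h3⟩

/-- the palindromes up to `x` which are prime to the base and have an odd number of digits -/
def Cand (b x : ℕ) : Finset ℕ :=
  (Icc 1 x).filter (fun n => (Nat.digits b n).reverse = Nat.digits b n ∧
    Odd (Nat.digits b n).length ∧ n.Coprime b)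

lemma card_cand {b : ℕ} (hb : 2 ≤ b) (P : ℕ → Prop) [DecidablePred P] {x H : ℕ}
    (hx : x < b ^ (2 * H + 2)) : ((Cand b x).filter P).card =
    ∑ h ∈ range (H + 1), ((FF b h).filter (fun n => n < x + 1 ∧ P n)).card := by
  classical
  rw [← card_biUnion]
  · congr 1
    ext n
    rw [mem_filter, mem_biUnion]
    unfold Cand
    rw [mem_filter, mem_Icc]
    constructor
    · rintro ⟨⟨⟨h1, h2⟩, h3, ⟨h, h4⟩, h5⟩, h6⟩
      refine ⟨h, ?_, ?_⟩
      · rw [mem_range]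
        have h7 : (Nat.digits b n).length ≤ 2 * H + 2 := by
          rw [Nat.digits_length_le_iff (by omega)]
          omega
        omega
      · rw [mem_filter, mem_FF_iff hb]
        exact ⟨⟨h3, h4, h5⟩, by omega, h6⟩
    · rintro ⟨h, _, hn⟩
      rw [mem_filter, mem_FF_iff hb] at hn
      refine ⟨⟨⟨?_, by omega⟩, hn.1.1, ⟨h, hn.1.2.1⟩, hn.1.2.2⟩, hn.2.2⟩
      rcases Nat.eq_zero_or_pos n with h0 | h0
      · exfalso
        rw [h0] at hn
        simp at hn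
      · exact h0
  · intro h _ h' _ hne
    show Disjoint _ _
    rw [Finset.disjoint_left]
    intro n hn hn'
    rw [mem_filter, mem_FF_iff hb] at hn hn'
    apply hne
    have := hn.1.2.1
    have := hn'.1.2.1
    omega

lemma geom_le {b : ℕ} (hb : 2 ≤ b) (H : ℕ) : ∑ h ∈ range (H + 1), (b:ℝ) ^ h ≤ 2 * (b:ℝ) ^ H := by
  have hbr : (2:ℝ) ≤ b := by exact_mod_cast hb
  induction H with
  | zero => norm_num
  | succ H ih =>
    rw [sum_range_succ]
    have : 2 * (b:ℝ) ^ H ≤ (b:ℝ) ^ (H + 1) := by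
      rw [pow_succ]
      nlinarith [pow_pos (by linarith : (0:ℝ) < b) H]
    linarith

lemma exists_H {b : ℕ} (hb : 2 ≤ b) {x : ℕ} (hx : 1 ≤ x) : ∃ H, b ^ (2 * H) ≤ x ∧ x < b ^ (2 * H + 2) := by
  have h1 := Nat.pow_log_le_self b (by omega : x ≠ 0)
  have h2 := Nat.lt_pow_succ_log_self (by omega : 1 < b) x
  refine ⟨Nat.log b x / 2, ?_, ?_⟩
  · refine le_trans (Nat.pow_le_pow_right (by omega) ?_) h1
    omega
  · refine lt_of_lt_of_le h2 (Nat.pow_le_pow_right (by omega) ?_)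
    omega

lemma cand_lower {b : ℕ} (hb : 2 ≤ b) {x H : ℕ} (hx : b ^ (2 * (H + 2)) ≤ x) :
    b ^ (H + 1) ≤ (Cand b x).card := by
  have h1 : FF b (H + 1) ⊆ Cand b x := by
    intro n hn
    have hn' := (mem_FF_iff hb _ _).1 hn
    unfold Cand
    rw [mem_filter, mem_Icc]
    rw [mem_FF] at hn
    refine ⟨⟨?_, ?_⟩, hn'.1, ⟨H + 1, hn'.2.1⟩, hn'.2.2⟩
    · have : 0 < b ^ (2 * (H + 1)) := pow_pos (by omega) _
      omega
    · have h2 := hn.1.1
      have h3 : b ^ (2 * (H + 1) + 1) ≤ b ^ (2 * (H + 2)) := Nat.pow_le_pow_right (by omega) (by omega)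
      omega
  refine le_trans ?_ (card_le_card h1)
  rw [card_FF hb]
  exact Nat.le_mul_of_pos_left _ (Nat.totient_pos.2 (by omega))

/-- the asymptotic formula for the squarefree palindromes -/
theorem density {b : ℕ} (hb : 2 ≤ b) :
    Tendsto (fun x : ℕ => (((Cand b x).filter Squarefree).card : ℝ) / ((Cand b x).card : ℝ)) atTop
      (nhds (del b)) := by
  have hb0 : 0 < b := by omega
  have hbr : (2:ℝ) ≤ b := by exact_mod_cast hb
  have hdel := del_pos hb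
  rw [Metric.tendsto_atTop]
  intro ε hε
  obtain ⟨h₀, hh₀⟩ := seg_sqf hb (ε / (8 * b)) (by positivity)
  obtain ⟨K, hK⟩ : ∃ K : ℝ, K = ∑ h ∈ range h₀, (1 + del b) * (b:ℝ) ^ (h + 1) := ⟨_, rfl⟩
  have hK0 : 0 ≤ K := by
    rw [hK]
    exact sum_nonneg fun h _ => by positivity
  obtain ⟨H₀, hH₀⟩ : ∃ H₀ : ℕ, ∀ H ≥ H₀, 4 * K / ε < (b:ℝ) ^ H := by
    have : Tendsto (fun H : ℕ => (b:ℝ) ^ H) atTop atTop :=
      tendsto_pow_atTop_atTop_of_one_lt (by linarith)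
    obtain ⟨H₀, h1⟩ := (this.eventually_gt_atTop (4 * K / ε)).exists_forall_of_atTop
    exact ⟨H₀, h1⟩
  refine ⟨b ^ (2 * (max h₀ H₀ + 2)), fun x hx => ?_⟩
  have hx1 : 1 ≤ x := le_trans (Nat.one_le_pow _ _ hb0) hx
  obtain ⟨H', hH1, hH2⟩ := exists_H hb hx1
  have hHbig : max h₀ H₀ + 2 ≤ H' := by
    by_contra hcon
    push Not at hcon
    have : b ^ (2 * H' + 2) ≤ b ^ (2 * (max h₀ H₀ + 2)) := Nat.pow_le_pow_right hb0 (by omega)
    omega
  obtain ⟨H, rfl⟩ : ∃ H, H' = H + 2 := ⟨H' - 2, by omega⟩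
  have hc1 := cand_lower hb hH1
  have hc1r : (b:ℝ) ^ (H + 1) ≤ (Cand b x).card := by exact_mod_cast hc1
  have hc0 : (0:ℝ) < (Cand b x).card := lt_of_lt_of_le (by positivity) hc1r
  have hcard1 := card_cand hb Squarefree hH2
  have hcard2 := card_cand hb (fun _ => True) hH2
  simp only [and_true, filter_true] at hcard2
  have key : |(((Cand b x).filter Squarefree).card : ℝ) - del b * (Cand b x).card| ≤
      K + ε / (8 * b) * (2 * (b:ℝ) ^ (H + 2)) := by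
    rw [hcard1, hcard2]
    push_cast
    rw [mul_sum, ← sum_sub_distrib]
    refine (abs_sum_le_sum_abs _ _).trans ?_
    have hsplit : ∀ h ∈ range (H + 2 + 1),
        |(((FF b h).filter (fun n => n < x + 1 ∧ Squarefree n)).card : ℝ) -
          del b * ((FF b h).filter (fun n => n < x + 1)).card| ≤
        (if h < h₀ then (1 + del b) * (b:ℝ) ^ (h + 1) else 0) + ε / (8 * b) * (b:ℝ) ^ h := by
      intro h _
      by_cases hlt : h < h₀
      · rw [if_pos hlt]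
        have d1 : (((FF b h).filter (fun n => n < x + 1 ∧ Squarefree n)).card : ℝ) ≤ (b:ℝ) ^ (h + 1) := by
          have := (card_filter_le (FF b h) (fun n => n < x + 1 ∧ Squarefree n)).trans (card_FF_le hb0 h)
          exact_mod_cast this
        have d2 : (((FF b h).filter (fun n => n < x + 1)).card : ℝ) ≤ (b:ℝ) ^ (h + 1) := by
          have := (card_filter_le (FF b h) (fun n => n < x + 1)).trans (card_FF_le hb0 h)
          exact_mod_cast this
        have d3 : (0:ℝ) ≤ (((FF b h).filter (fun n => n < x + 1 ∧ Squarefree n)).card : ℝ) :=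
          Nat.cast_nonneg _
        have d4 : (0:ℝ) ≤ (((FF b h).filter (fun n => n < x + 1)).card : ℝ) := Nat.cast_nonneg _
        have d5 : (0:ℝ) ≤ ε / (8 * b) * (b:ℝ) ^ h := by positivity
        have d6 : (0:ℝ) ≤ (b:ℝ) ^ (h + 1) := by positivity
        have d7 : del b * (((FF b h).filter (fun n => n < x + 1)).card : ℝ) ≤ del b * (b:ℝ) ^ (h + 1) :=
          mul_le_mul_of_nonneg_left d2 hdel.le
        have d8 : 0 ≤ del b * (((FF b h).filter (fun n => n < x + 1)).card : ℝ) :=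
          mul_nonneg hdel.le d4
        have d9 : 0 ≤ del b * (b:ℝ) ^ (h + 1) := mul_nonneg hdel.le d6
        rw [abs_le]
        constructor <;> nlinarith
      · rw [if_neg hlt, zero_add]
        exact hh₀ h (not_lt.1 hlt) (x + 1)
    refine (sum_le_sum hsplit).trans ?_
    rw [sum_add_distrib, ← mul_sum]
    have g1 := geom_le hb (H + 2)
    have g2 : ∑ h ∈ range (H + 2 + 1), (if h < h₀ then (1 + del b) * (b:ℝ) ^ (h + 1) else 0) ≤ K := by
      rw [hK, ← sum_filter]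
      apply sum_le_sum_of_subset_of_nonneg
      · intro h hh
        rw [mem_filter] at hh
        exact mem_range.2 hh.2
      · intro h _ _
        positivity
    have g3 : ε / (8 * b) * ∑ h ∈ range (H + 2 + 1), (b:ℝ) ^ h ≤ ε / (8 * b) * (2 * (b:ℝ) ^ (H + 2)) :=
      mul_le_mul_of_nonneg_left g1 (by positivity)
    linarith
  have hKb : K ≤ ε / 4 * (b:ℝ) ^ (H + 1) := by
    have h1 := hH₀ (H + 1) (by omega)
    rw [div_lt_iff₀ hε] at h1
    linarith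
  have hfin : K + ε / (8 * b) * (2 * (b:ℝ) ^ (H + 2)) ≤ ε / 2 * (b:ℝ) ^ (H + 1) := by
    have : ε / (8 * b) * (2 * (b:ℝ) ^ (H + 2)) = ε / 4 * (b:ℝ) ^ (H + 1) := by
      rw [show H + 2 = (H + 1) + 1 by ring, pow_succ (b:ℝ) (H + 1)]
      field_simp
      ring
    linarith
  rw [Real.dist_eq, div_sub' hc0.ne', abs_div, abs_of_pos hc0, div_lt_iff₀ hc0]
  rw [mul_comm ((Cand b x).card : ℝ) (del b)]
  calc _ ≤ ε / 2 * (b:ℝ) ^ (H + 1) := key.trans hfin
    _ < ε * (b:ℝ) ^ (H + 1) := by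
        have : (0:ℝ) < (b:ℝ) ^ (H + 1) := by positivity
        nlinarith
    _ ≤ ε * (Cand b x).card := mul_le_mul_of_nonneg_left hc1r hε.le

/-- all palindromes up to `x` -/
def PX (b x : ℕ) : Finset ℕ := (Icc 1 x).filter (fun n => (Nat.digits b n).reverse = Nat.digits b n)

lemma card_PX_le {b : ℕ} (hb : 2 ≤ b) {x H : ℕ} (hx : x < b ^ (2 * H + 2)) :
    (PX b x).card ≤ 4 * b ^ (H + 1) := by
  classical
  have hb0 : 0 < b := by omega
  have h1 : PX b x ⊆ (range (2 * (H + 1) + 1)).biUnion (fun L => TT b L 1) := by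
    intro n hn
    unfold PX at hn
    rw [mem_filter, mem_Icc] at hn
    rw [mem_biUnion]
    refine ⟨(Nat.digits b n).length, ?_, ?_⟩
    · rw [mem_range]
      have h7 : (Nat.digits b n).length ≤ 2 * H + 2 := by
        rw [Nat.digits_length_le_iff (by omega)]
        omega
      omega
    · rw [mem_TT, ← pal_iff hb]
      exact ⟨hn.2, by simp⟩
  have h2 : ∀ L, (TT b L 1).card ≤ b ^ ((L + 1) / 2) := by
    intro L
    apply TT_card_le hb0 (Nat.coprime_one_left b) (by omega)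
    rw [one_pow, one_mul]
    exact Nat.pow_le_pow_right hb0 (by omega)
  have h3 : ∀ m : ℕ, ∑ L ∈ range (2 * m + 1), b ^ ((L + 1) / 2) ≤ 4 * b ^ m := by
    intro m
    induction m with
    | zero => simp
    | succ m ih =>
      rw [show 2 * (m + 1) + 1 = 2 * m + 1 + 1 + 1 by ring, sum_range_succ, sum_range_succ,
        show (2 * m + 1 + 1) / 2 = m + 1 by omega, show (2 * m + 1 + 1 + 1) / 2 = m + 1 by omega]
      have : 2 * b ^ m ≤ b ^ (m + 1) := by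
        rw [pow_succ, mul_comm]
        exact Nat.mul_le_mul_left _ hb
      omega
  calc (PX b x).card ≤ _ := card_le_card h1
    _ ≤ ∑ L ∈ range (2 * (H + 1) + 1), (TT b L 1).card := card_biUnion_le
    _ ≤ ∑ L ∈ range (2 * (H + 1) + 1), b ^ ((L + 1) / 2) := sum_le_sum fun L _ => h2 L
    _ ≤ _ := h3 (H + 1)

/-- a positive proportion of all palindromes is squarefree -/
theorem positive {b : ℕ} (hb : 2 ≤ b) : ∃ c : ℝ, 0 < c ∧ ∀ᶠ x : ℕ in atTop,
    c * (PX b x).card ≤ ((Cand b x).filter Squarefree).card := by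
  have hb0 : 0 < b := by omega
  have hbr : (2:ℝ) ≤ b := by exact_mod_cast hb
  have hdel := del_pos hb
  refine ⟨del b / (8 * (b:ℝ) ^ 2), by positivity, ?_⟩
  have h1 := (density hb).eventually_const_lt (half_lt_self hdel)
  filter_upwards [h1, eventually_ge_atTop (b ^ (2 * 2))] with x hx1 hx2
  have hx0 : 1 ≤ x := le_trans (Nat.one_le_pow _ _ hb0) hx2
  obtain ⟨H', hH1, hH2⟩ := exists_H hb hx0
  have hH' : 2 ≤ H' := by
    by_contra hcon
    push Not at hcon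
    have : b ^ (2 * H' + 2) ≤ b ^ (2 * 2) := Nat.pow_le_pow_right hb0 (by omega)
    omega
  obtain ⟨H, rfl⟩ : ∃ H, H' = H + 2 := ⟨H' - 2, by omega⟩
  have hc1 := cand_lower hb hH1
  have hc1r : (b:ℝ) ^ (H + 1) ≤ (Cand b x).card := by exact_mod_cast hc1
  have hc0 : (0:ℝ) < (Cand b x).card := lt_of_lt_of_le (by positivity) hc1r
  have h3 : (((PX b x).card : ℕ) : ℝ) ≤ 4 * (b:ℝ) ^ (H + 2 + 1) := by
    exact_mod_cast card_PX_le hb hH2
  rw [lt_div_iff₀ hc0] at hx1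
  calc del b / (8 * (b:ℝ) ^ 2) * (PX b x).card ≤ del b / (8 * (b:ℝ) ^ 2) * (4 * (b:ℝ) ^ (H + 2 + 1)) := by
        gcongr
    _ = del b / 2 * (b:ℝ) ^ (H + 1) := by
        rw [show H + 2 + 1 = (H + 1) + 2 by ring, pow_add]
        field_simp
        ring
    _ ≤ del b / 2 * (Cand b x).card := by gcongr
    _ ≤ _ := hx1.le

/-- large squares, in terms of the digits -/
theorem tail_digits {b : ℕ} (hb : 2 ≤ b) (A : ℕ) : ∃ C : ℝ, ∀ᶠ h : ℕ in atTop, ∀ σ : ℕ, 1 ≤ σ → σ ≤ h →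
    ({n : ℕ | (Nat.digits b n).reverse = Nat.digits b n ∧ (Nat.digits b n).length = 2 * h + 1 ∧
      n.Coprime b ∧ ∃ d, b ^ σ ≤ d ∧ d ^ 2 ∣ n}.ncard : ℝ) ≤ C * (b:ℝ) ^ h / (σ:ℝ) ^ A := by
  classical
  have hb0 : 0 < b := by omega
  have hbr : (2:ℝ) ≤ b := by exact_mod_cast hb
  obtain ⟨s₀, h₀, ht⟩ := tail hb (A + 2) (by omega)
  refine ⟨21 * (b:ℝ) ^ 5 + b * (s₀:ℝ) ^ A, ?_⟩
  filter_upwards [eventually_ge_atTop h₀] with h hh σ hσ1 hσh
  have hset : {n : ℕ | (Nat.digits b n).reverse = Nat.digits b n ∧ (Nat.digits b n).length = 2 * h + 1 ∧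
      n.Coprime b ∧ ∃ d, b ^ σ ≤ d ∧ d ^ 2 ∣ n} =
      (((FF b h).filter (fun n => ∃ d, b ^ σ ≤ d ∧ d ^ 2 ∣ n) : Finset ℕ) : Set ℕ) := by
    ext n
    rw [mem_coe, mem_filter, mem_FF_iff hb, Set.mem_ofPred_eq]
    tauto
  rw [hset, Set.ncard_coe_finset]
  have hσr : (1:ℝ) ≤ σ := by exact_mod_cast hσ1
  have hσp : (0:ℝ) < (σ:ℝ) ^ A := by positivity
  by_cases hs : s₀ ≤ σ
  · refine (ht h hh σ hs hσh).trans ?_
    rw [show A + 2 - 1 = A + 1 by omega, div_le_div_iff₀ (by positivity) hσp]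
    have h1 : (σ:ℝ) ^ A ≤ (σ:ℝ) ^ (A + 1) := pow_le_pow_right₀ hσr (by omega)
    have h2 : 21 * (b:ℝ) ^ (h + 5) * (σ:ℝ) ^ A ≤ 21 * (b:ℝ) ^ (h + 5) * (σ:ℝ) ^ (A + 1) := by
      gcongr
    refine h2.trans ?_
    have h3 : 0 ≤ (b:ℝ) * (s₀:ℝ) ^ A * (b:ℝ) ^ h * (σ:ℝ) ^ (A + 1) := by positivity
    have e1 : (21 * (b:ℝ) ^ 5 + b * (s₀:ℝ) ^ A) * (b:ℝ) ^ h * (σ:ℝ) ^ (A + 1) =
        21 * (b:ℝ) ^ (h + 5) * (σ:ℝ) ^ (A + 1) + (b:ℝ) * (s₀:ℝ) ^ A * (b:ℝ) ^ h * (σ:ℝ) ^ (A + 1) := by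
      ring
    rw [e1]
    linarith
  · push Not at hs
    have h1 : (((FF b h).filter (fun n => ∃ d, b ^ σ ≤ d ∧ d ^ 2 ∣ n)).card : ℝ) ≤ (b:ℝ) ^ (h + 1) := by
      have := (card_filter_le (FF b h) (fun n => ∃ d, b ^ σ ≤ d ∧ d ^ 2 ∣ n)).trans (card_FF_le hb0 h)
      exact_mod_cast this
    refine h1.trans ?_
    rw [le_div_iff₀ hσp]
    have h2 : (σ:ℝ) ^ A ≤ (s₀:ℝ) ^ A := by
      apply pow_le_pow_left₀ (by linarith)
      exact_mod_cast hs.le
    have h3 : (0:ℝ) ≤ 21 * (b:ℝ) ^ 5 * (b:ℝ) ^ h := by positivity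
    calc (b:ℝ) ^ (h + 1) * (σ:ℝ) ^ A ≤ (b:ℝ) ^ (h + 1) * (s₀:ℝ) ^ A := by gcongr
      _ ≤ (21 * (b:ℝ) ^ 5 + b * (s₀:ℝ) ^ A) * (b:ℝ) ^ h := by
          rw [pow_succ]
          linarith [h3, (by ring : (b:ℝ) ^ h * b * (s₀:ℝ) ^ A = b * (s₀:ℝ) ^ A * (b:ℝ) ^ h)]

end Pool.Agent.H610.SqF
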