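import Pool.Agent.H610.SqF.Count

set_option autoImplicit false

/-!
# Medium divisors: the sum over `b ^ s ≤ d < b ^ (s + 1)`
-/

namespace Pool.Agent.H610.SqF

open Finset Filter

/-- splitting an interval into blocks -/
lemma sum_blocks (f : ℕ → ℝ) (a q N : ℕ) :
    ∑ d ∈ Ico a (a + N * q), f d = ∑ k ∈ range N, ∑ d ∈ Ico (a + k * q) (a + k * q + q), f d := by
  induction N with
  | zero => simp
  | succ N ih =>
    rw [sum_range_succ, ← ih]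
    rw [show a + (N + 1) * q = a + N * q + q by ring]
    rw [sum_Ico_consecutive f (by omega) (by omega)]

/-- one range of `d` -/
lemma mid_range {b j h s : ℕ} (hb : 2 ≤ b) (hj : 2 ≤ j) (hs : 20 * j + 2 ≤ s) (hsh : s + 9 * j ≤ h + 1)
    (hτ : ((b ^ (10 * j)).divisors.card) ^ 2 ≤ b ^ j) :
    ∑ d ∈ (Ico (b ^ s) (b ^ (s + 1))).filter (fun d => d.Coprime b),
      ((TT b (2 * h + 1) d).card : ℝ) ≤ 10 * (b:ℝ) ^ (h + 5) / (b:ℝ) ^ j := by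
  classical
  have hb0 : 0 < b := by omega
  have hbr : (0:ℝ) < b := by exact_mod_cast hb0
  have hb1 : (1:ℝ) ≤ b := by exact_mod_cast (by omega : 1 ≤ b)
  obtain ⟨I, hI⟩ : ∃ I, I = 10 * j := ⟨_, rfl⟩
  obtain ⟨K, hK⟩ : ∃ K, K = h + 1 + j - s := ⟨_, rfl⟩
  obtain ⟨K', hK'⟩ : ∃ K', K' = h + 1 - s := ⟨_, rfl⟩
  obtain ⟨H, hH⟩ : ∃ H, H = b ^ (2 * j - 3) := ⟨_, rfl⟩
  have hHpos : 0 < H := by rw [hH]; positivity
  rw [← hI] at hτ
  have hrange : b ^ (s + 1) = b ^ s + ((b - 1) * b ^ (s - I)) * b ^ I := by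
    have h1 : b ^ (s - I) * b ^ I = b ^ s := by rw [← pow_add]; congr 1; omega
    rw [mul_assoc, h1, pow_succ, Nat.sub_mul, one_mul]
    have h2 : b ^ s ≤ b * b ^ s := Nat.le_mul_of_pos_left _ hb0
    rw [mul_comm (b ^ s) b]
    omega
  -- conditions for one block
  have hblock : ∀ k ∈ range ((b - 1) * b ^ (s - I)),
      ∑ d ∈ Ico (b ^ s + k * b ^ I) (b ^ s + k * b ^ I + b ^ I),
        (if d.Coprime b then ((TT b (2 * h + 1) d).card : ℝ) else 0) ≤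
      (b:ℝ) ^ I * (8 * (b:ℝ) ^ K / H) +
        2 * ((b ^ I).divisors.card : ℝ) ^ 2 * (H:ℝ) ^ 4 * (b:ℝ) ^ K' := by
    intro k _
    rw [← sum_filter]
    have hd0 : b ^ s ≤ b ^ s + k * b ^ I := Nat.le_add_right _ _
    apply block hb
    · omega
    · omega
    · calc 4 * (b ^ I) ^ 2 ≤ b ^ 2 * (b ^ I) ^ 2 := by
            apply Nat.mul_le_mul_right
            nlinarith
        _ = b ^ (20 * j + 2) := by rw [← pow_mul, ← pow_add, hI]; congr 1; ring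
        _ ≤ b ^ s := Nat.pow_le_pow_right hb0 hs
        _ ≤ _ := hd0
    · exact hHpos
    · have e1 : 9 * b ^ (2 * h + 1 - K) * H ≤ b ^ 4 * b ^ (2 * h + 1 - K) * H := by
        have : 9 ≤ b ^ 4 := by
          calc 9 ≤ 2 ^ 4 := by norm_num
            _ ≤ b ^ 4 := Nat.pow_le_pow_left hb 4
        gcongr
      have e2 : b ^ 4 * b ^ (2 * h + 1 - K) * H = (b ^ s) ^ 2 * b ^ K := by
        rw [hH, ← pow_add, ← pow_add, ← pow_mul, ← pow_add]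
        congr 1
        omega
      calc _ ≤ _ := e1
        _ = _ := e2
        _ ≤ (b ^ s + k * b ^ I) ^ 2 * b ^ K := by gcongr
    · omega
    · have e1 : b ^ (2 * h + 1 - K') ≤ (b ^ s) ^ 2 * b ^ K' := by
        rw [← pow_mul, ← pow_add]
        apply Nat.pow_le_pow_right hb0
        omega
      calc _ ≤ _ := e1
        _ ≤ (b ^ s + k * b ^ I) ^ 2 * b ^ K' := by gcongr
  rw [sum_filter, hrange, sum_blocks]
  have hN : (((b - 1) * b ^ (s - I) : ℕ) : ℝ) ≤ (b:ℝ) ^ (s + 1 - I) := by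
    have : (b - 1) * b ^ (s - I) ≤ b ^ (s + 1 - I) := by
      rw [show s + 1 - I = (s - I) + 1 by omega, pow_succ, mul_comm]
      exact Nat.mul_le_mul_left _ (by omega)
    exact_mod_cast this
  have hτr : ((b ^ I).divisors.card : ℝ) ^ 2 ≤ (b:ℝ) ^ j := by exact_mod_cast hτ
  have hHr : (H:ℝ) = (b:ℝ) ^ (2 * j - 3) := by rw [hH]; push_cast; rfl
  have t1 : (b:ℝ) ^ (s + 1 - I) * ((b:ℝ) ^ I * (8 * (b:ℝ) ^ K / H)) = 8 * (b:ℝ) ^ (h + 5) / (b:ℝ) ^ j := by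
    rw [hHr]
    have hp : (b:ℝ) ^ (s + 1 - I) * (b:ℝ) ^ I * (b:ℝ) ^ K * (b:ℝ) ^ j =
        (b:ℝ) ^ (h + 5) * (b:ℝ) ^ (2 * j - 3) := by
      rw [← pow_add, ← pow_add, ← pow_add, ← pow_add]
      congr 1
      omega
    have h1 : (b:ℝ) ^ (s + 1 - I) * ((b:ℝ) ^ I * (8 * (b:ℝ) ^ K / (b:ℝ) ^ (2 * j - 3))) =
        8 * ((b:ℝ) ^ (s + 1 - I) * (b:ℝ) ^ I * (b:ℝ) ^ K) / (b:ℝ) ^ (2 * j - 3) := by ring
    rw [h1, div_eq_div_iff (by positivity) (by positivity)]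
    linear_combination 8 * hp
  have t2 : (b:ℝ) ^ (s + 1 - I) * (2 * (b:ℝ) ^ j * (H:ℝ) ^ 4 * (b:ℝ) ^ K') ≤
      2 * (b:ℝ) ^ (h + 5) / (b:ℝ) ^ j := by
    rw [hHr, le_div_iff₀ (by positivity)]
    have hp : (b:ℝ) ^ (s + 1 - I) * (2 * (b:ℝ) ^ j * ((b:ℝ) ^ (2 * j - 3)) ^ 4 * (b:ℝ) ^ K') * (b:ℝ) ^ j
        = 2 * (b:ℝ) ^ ((s + 1 - I) + j + (2 * j - 3) * 4 + K' + j) := by
      rw [pow_add, pow_add, pow_add, pow_add, pow_mul]
      ring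
    rw [hp]
    have : (b:ℝ) ^ ((s + 1 - I) + j + (2 * j - 3) * 4 + K' + j) ≤ (b:ℝ) ^ (h + 5) :=
      pow_le_pow_right₀ hb1 (by omega)
    linarith
  calc _ ≤ ∑ k ∈ range ((b - 1) * b ^ (s - I)), ((b:ℝ) ^ I * (8 * (b:ℝ) ^ K / H) +
        2 * ((b ^ I).divisors.card : ℝ) ^ 2 * (H:ℝ) ^ 4 * (b:ℝ) ^ K') := sum_le_sum hblock
    _ = (((b - 1) * b ^ (s - I) : ℕ) : ℝ) * ((b:ℝ) ^ I * (8 * (b:ℝ) ^ K / H) +
        2 * ((b ^ I).divisors.card : ℝ) ^ 2 * (H:ℝ) ^ 4 * (b:ℝ) ^ K') := by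
        rw [sum_const, card_range, nsmul_eq_mul]
    _ ≤ (b:ℝ) ^ (s + 1 - I) * ((b:ℝ) ^ I * (8 * (b:ℝ) ^ K / H) +
        2 * (b:ℝ) ^ j * (H:ℝ) ^ 4 * (b:ℝ) ^ K') := by
        gcongr
    _ = (b:ℝ) ^ (s + 1 - I) * ((b:ℝ) ^ I * (8 * (b:ℝ) ^ K / H)) +
        (b:ℝ) ^ (s + 1 - I) * (2 * (b:ℝ) ^ j * (H:ℝ) ^ 4 * (b:ℝ) ^ K') := by ring
    _ ≤ 8 * (b:ℝ) ^ (h + 5) / (b:ℝ) ^ j + 2 * (b:ℝ) ^ (h + 5) / (b:ℝ) ^ j := by
        rw [t1]
        linarith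
    _ = _ := by ring

/-- exponentials beat polynomials -/
lemma poly_exp (c k : ℕ) : ∃ j₀ : ℕ, ∀ j ≥ j₀, (c * j + c) ^ k ≤ 2 ^ j := by
  have h1 : Tendsto (fun n : ℕ => (n:ℝ) ^ k / (2:ℝ) ^ n) atTop (nhds 0) :=
    tendsto_pow_const_div_const_pow_of_one_lt k (by norm_num)
  have h2 : ∀ᶠ n : ℕ in atTop, (n:ℝ) ^ k / (2:ℝ) ^ n < 1 / (2 * ((c:ℝ) ^ k + 1)) :=
    h1.eventually (gt_mem_nhds (by positivity))
  obtain ⟨j₀, hj₀⟩ := eventually_atTop.1 h2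
  refine ⟨j₀, fun j hj => ?_⟩
  have h3 := hj₀ (j + 1) (by omega)
  rw [div_lt_div_iff₀ (by positivity) (by positivity), one_mul] at h3
  have h4 : ((c * j + c : ℕ) : ℝ) ^ k ≤ (2:ℝ) ^ j := by
    have e1 : ((c * j + c : ℕ) : ℝ) = c * ((j + 1 : ℕ) : ℝ) := by push_cast; ring
    rw [e1, mul_pow]
    have e2 : (0:ℝ) ≤ ((j + 1 : ℕ) : ℝ) ^ k := by positivity
    have e3 : (2:ℝ) ^ (j + 1) = 2 * 2 ^ j := by ring
    rw [e3] at h3
    nlinarith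
  exact_mod_cast h4

/-- the ceiling of the logarithm of a polynomial is small -/
lemma clog_small {b : ℕ} (hb : 2 ≤ b) (A c : ℕ) :
    ∃ s₀ : ℕ, ∀ s ≥ s₀, c * Nat.clog b (s ^ A) + c ≤ s := by
  obtain ⟨j₀, hj₀⟩ := poly_exp (2 * c + 2) A
  refine ⟨c * (j₀ + 2) + c + 2, fun s hs => ?_⟩
  by_contra hcon
  push Not at hcon
  set j := Nat.clog b (s ^ A) with hj
  have hjlarge : j₀ + 2 < j := by
    by_contra h
    push Not at h
    have : c * j ≤ c * (j₀ + 2) := Nat.mul_le_mul_left _ h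
    omega
  have h1 : b ^ (j - 1) < s ^ A := by
    have := Nat.pow_pred_clog_lt_self (by omega : 1 < b) (x := s ^ A) (by
      rcases Nat.eq_zero_or_pos A with hA | hA
      · exfalso
        rw [hj, hA, pow_zero, Nat.clog_one_right] at hjlarge
        omega
      · exact Nat.one_lt_pow hA.ne' (by omega))
    rwa [← hj] at this
  have h2 : 2 ^ (j - 1) ≤ b ^ (j - 1) := Nat.pow_le_pow_left hb _
  have h3 : s ^ A ≤ ((2 * c + 2) * (j - 1) + (2 * c + 2)) ^ A := by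
    apply Nat.pow_le_pow_left
    have e1 : (2 * c + 2) * (j - 1) + (2 * c + 2) = (2 * c + 2) * j := by
      obtain ⟨i, hi⟩ : ∃ i, j = i + 1 := ⟨j - 1, by omega⟩
      rw [hi, Nat.add_sub_cancel]
      ring
    rw [e1]
    nlinarith
  have h4 := hj₀ (j - 1) (by omega)
  omega

/-- medium divisors -/
theorem mid {b : ℕ} (hb : 2 ≤ b) (A : ℕ) (hA : 1 ≤ A) : ∃ s₀ : ℕ, ∀ s ≥ s₀, ∀ h : ℕ,
    s + 9 * Nat.clog b (s ^ A) ≤ h + 1 →
    ∑ d ∈ (Ico (b ^ s) (b ^ (s + 1))).filter (fun d => d.Coprime b),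
      ((TT b (2 * h + 1) d).card : ℝ) ≤ 10 * (b:ℝ) ^ (h + 5) / (s:ℝ) ^ A := by
  obtain ⟨s₁, hs₁⟩ := clog_small hb A 20
  obtain ⟨j₁, hj₁⟩ := poly_exp (10 * b) (2 * b)
  refine ⟨max (max s₁ (b ^ (j₁ + 2) + 1)) 1, fun s hs h hsh => ?_⟩
  have hb0 : 0 < b := by omega
  have g1 : s₁ ≤ s := le_trans (le_trans (le_max_left _ _) (le_max_left _ _)) hs
  have g2 : b ^ (j₁ + 2) < s :=
    lt_of_lt_of_le (Nat.lt_succ_self _) (le_trans (le_trans (le_max_right _ _) (le_max_left _ _)) hs)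
  have g3 : 1 ≤ s := le_trans (le_max_right _ _) hs
  obtain ⟨j, hj⟩ : ∃ j, j = Nat.clog b (s ^ A) := ⟨_, rfl⟩
  rw [← hj] at hsh
  have h1 := hs₁ s g1
  rw [← hj] at h1
  have h2 : s ^ A ≤ b ^ j := by rw [hj]; exact Nat.le_pow_clog (by omega) _
  have h3 : j₁ + 2 < j := by
    by_contra hcon
    push Not at hcon
    have h4 : b ^ j ≤ b ^ (j₁ + 2) := Nat.pow_le_pow_right hb0 hcon
    have h5 : s ≤ s ^ A := Nat.le_self_pow (by omega) s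
    omega
  have hτ : ((b ^ (10 * j)).divisors.card) ^ 2 ≤ b ^ j := by
    calc ((b ^ (10 * j)).divisors.card) ^ 2 ≤ ((b * (10 * j) + 1) ^ b) ^ 2 :=
          Nat.pow_le_pow_left (card_divisors_pow b _ hb0) 2
      _ = (b * (10 * j) + 1) ^ (2 * b) := by rw [← pow_mul, mul_comm b 2]
      _ ≤ (10 * b * j + 10 * b) ^ (2 * b) := by
          apply Nat.pow_le_pow_left
          have : b * (10 * j) = 10 * b * j := by ring
          omega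
      _ ≤ 2 ^ j := hj₁ j (by omega)
      _ ≤ b ^ j := Nat.pow_le_pow_left hb j
  refine (mid_range hb (by omega) (by omega) hsh hτ).trans ?_
  have hbr : (0:ℝ) < b := by exact_mod_cast hb0
  have hsr : (0:ℝ) < s := by exact_mod_cast (by omega : 0 < s)
  apply div_le_div_of_nonneg_left (by positivity) (by positivity)
  exact_mod_cast h2

end Pool.Agent.H610.SqF
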