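import Pool.Agent.H610.SqF.Large

set_option autoImplicit false

/-!
# Palindromes of odd length by recursion, exponential sums
-/

namespace Pool.Agent.H610.SqF

open Finset

/-- palindromes of length `2 h + 1`, leading zeros allowed -/
def PP (b h : ℕ) : Finset ℕ := (range (b ^ (2 * h + 1))).filter (fun n => Pal b (2 * h + 1) n)

lemma mem_PP {b h n : ℕ} : n ∈ PP b h ↔ Pal b (2 * h + 1) n := by
  unfold PP
  rw [mem_filter, mem_range]
  exact ⟨fun h => h.2, fun h => ⟨h.1, h⟩⟩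

/-- adding the digit `x` at both ends -/
def wrap (b h x n : ℕ) : ℕ := x + b * (n + x * b ^ (2 * h + 1))

lemma dig_zero (b n : ℕ) : dig b n 0 = n % b := by unfold dig; simp

lemma dig_succ (b n i : ℕ) : dig b n (i + 1) = dig b (n / b) i := by
  have h := dig_div b n 1 i
  rw [pow_one] at h
  rw [h, add_comm]

lemma wrap_mod {b : ℕ} (h : ℕ) {x : ℕ} (n : ℕ) (hx : x < b) : wrap b h x n % b = x := by
  unfold wrap
  rw [Nat.add_mul_mod_self_left, Nat.mod_eq_of_lt hx]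

lemma wrap_div {b : ℕ} (h : ℕ) {x : ℕ} (n : ℕ) (hx : x < b) :
    wrap b h x n / b = n + x * b ^ (2 * h + 1) := by
  unfold wrap
  rw [Nat.add_mul_div_left _ _ (by omega), Nat.div_eq_of_lt hx, zero_add]

lemma dig_top {b L n x : ℕ} (hn : n < b ^ L) (hx : x < b) : dig b (n + x * b ^ L) L = x := by
  have hb : 0 < b := by omega
  unfold dig
  rw [Nat.add_mul_div_right _ _ (pow_pos hb L), Nat.div_eq_of_lt hn, zero_add, Nat.mod_eq_of_lt hx]

lemma dig_low {b L n x i : ℕ} (hn : n < b ^ L) (hi : i < L) : dig b (n + x * b ^ L) i = dig b n i := by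
  rw [← dig_mod b (n + x * b ^ L) L i hi, Nat.add_mul_mod_self_right, Nat.mod_eq_of_lt hn]

lemma pal_wrap {b h x n : ℕ} (hx : x < b) (hn : Pal b (2 * h + 1) n) :
    Pal b (2 * (h + 1) + 1) (wrap b h x n) := by
  have hb : 0 < b := by omega
  refine ⟨?_, ?_⟩
  · unfold wrap
    have h1 := hn.1
    have h2 : n + x * b ^ (2 * h + 1) < b ^ (2 * h + 2) := by
      have : b ^ (2 * h + 2) = b * b ^ (2 * h + 1) := by ring
      rw [this]
      nlinarith
    have h3 : b ^ (2 * (h + 1) + 1) = b * b ^ (2 * h + 2) := by ring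
    rw [h3]
    nlinarith
  · intro i hi
    have key : ∀ i, i ≤ 2 * h + 2 → dig b (wrap b h x n) i =
        if i = 0 ∨ i = 2 * h + 2 then x else dig b n (i - 1) := by
      intro i hi
      rcases Nat.eq_zero_or_pos i with rfl | hi0
      · rw [if_pos (Or.inl rfl), dig_zero, wrap_mod h n hx]
      · obtain ⟨k, rfl⟩ : ∃ k, i = k + 1 := ⟨i - 1, by omega⟩
        rw [dig_succ, wrap_div h n hx, Nat.add_sub_cancel]
        rcases Nat.lt_or_ge k (2 * h + 1) with hk | hk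
        · rw [if_neg (by omega), dig_low hn.1 hk]
        · obtain rfl : k = 2 * h + 1 := by omega
          rw [if_pos (Or.inr rfl), dig_top hn.1 hx]
    rw [key i (by omega), key (2 * (h + 1) + 1 - 1 - i) (by omega)]
    by_cases h1 : i = 0 ∨ i = 2 * h + 2
    · rw [if_pos h1, if_pos (by omega)]
    · rw [if_neg h1, if_neg (by omega), hn.2 (i - 1) (by omega)]
      congr 1
      omega

lemma unwrap_pal {b h m : ℕ} (hb : 0 < b) (hm : Pal b (2 * (h + 1) + 1) m) :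
    Pal b (2 * h + 1) (m / b % b ^ (2 * h + 1)) ∧
      wrap b h (m % b) (m / b % b ^ (2 * h + 1)) = m := by
  refine ⟨⟨Nat.mod_lt _ (pow_pos hb _), ?_⟩, ?_⟩
  · intro i hi
    rw [dig_mod _ _ _ _ hi, dig_mod _ _ _ _ (by omega), ← dig_succ, ← dig_succ, hm.2 (i + 1) (by omega)]
    congr 1
    omega
  · have h1 : m / b / b ^ (2 * h + 1) = m % b := by
      have h2 := hm.2 0 (by omega)
      rw [dig_zero, show 2 * (h + 1) + 1 - 1 - 0 = (2 * h + 1) + 1 by omega, dig_succ] at h2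
      rw [h2, dig, Nat.mod_eq_of_lt]
      rw [Nat.div_lt_iff_lt_mul (pow_pos hb _), Nat.div_lt_iff_lt_mul hb]
      have h3 := hm.1
      have h4 : b * b ^ (2 * h + 1) * b = b ^ (2 * (h + 1) + 1) := by ring
      rwa [h4]
    unfold wrap
    have h5 := Nat.mod_add_div (m / b) (b ^ (2 * h + 1))
    rw [h1, mul_comm (b ^ (2 * h + 1))] at h5
    rw [h5, Nat.mod_add_div]

/-- recursion for sums over palindromes -/
lemma sum_PP_succ {b : ℕ} (hb : 0 < b) (h : ℕ) {M : Type} [AddCommMonoid M] (f : ℕ → M) :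
    ∑ m ∈ PP b (h + 1), f m = ∑ x ∈ range b, ∑ n ∈ PP b h, f (wrap b h x n) := by
  rw [← sum_product']
  refine Finset.sum_bij' (fun m _ => (m % b, m / b % b ^ (2 * h + 1)))
    (fun p _ => wrap b h p.1 p.2) ?_ ?_ ?_ ?_ ?_
  · intro m hm
    rw [mem_PP] at hm
    rw [mem_product, mem_range, mem_PP]
    exact ⟨Nat.mod_lt _ hb, (unwrap_pal hb hm).1⟩
  · rintro ⟨x, n⟩ hp
    rw [mem_product, mem_range, mem_PP] at hp
    rw [mem_PP]
    exact pal_wrap hp.1 hp.2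
  · intro m hm
    rw [mem_PP] at hm
    exact (unwrap_pal hb hm).2
  · rintro ⟨x, n⟩ hp
    rw [mem_product, mem_range, mem_PP] at hp
    simp only
    rw [wrap_mod h n hp.1, wrap_div h n hp.1, Nat.add_mul_mod_self_right, Nat.mod_eq_of_lt hp.2.1]
  · intro m hm
    rw [mem_PP] at hm
    simp only
    rw [(unwrap_pal hb hm).2]

lemma coprime_wrap {b h x n : ℕ} : (wrap b h x n).Coprime b ↔ x.Coprime b := by
  unfold wrap
  exact Nat.coprime_add_mul_left_left x b _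

/-- the units among the digits -/
def UU (b : ℕ) : Finset ℕ := (range b).filter (fun x => x.Coprime b)

lemma card_UU (b : ℕ) : (UU b).card = Nat.totient b := by
  rw [Nat.totient_eq_card_coprime]
  unfold UU
  congr 1
  ext x
  simp only [mem_filter, Nat.coprime_comm]

lemma UU_pos {b x : ℕ} (hb : 2 ≤ b) (hx : x ∈ UU b) : 1 ≤ x := by
  unfold UU at hx
  rw [mem_filter] at hx
  rcases Nat.eq_zero_or_pos x with rfl | h
  · exfalso
    have := hx.2
    rw [Nat.coprime_zero_left] at this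
    omega
  · exact h

/-- recursion for sums over palindromes prime to the base -/
lemma sum_FF_succ {b : ℕ} (hb : 2 ≤ b) (h : ℕ) {M : Type} [AddCommMonoid M] (f : ℕ → M) :
    ∑ m ∈ FF b (h + 1), f m = ∑ x ∈ UU b, ∑ n ∈ PP b h, f (wrap b h x n) := by
  have hb0 : 0 < b := by omega
  rw [← sum_product']
  refine Finset.sum_bij' (fun m _ => (m % b, m / b % b ^ (2 * h + 1)))
    (fun p _ => wrap b h p.1 p.2) ?_ ?_ ?_ ?_ ?_
  · intro m hm
    rw [mem_FF] at hm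
    obtain ⟨h1, h2⟩ := unwrap_pal hb0 hm.1
    rw [mem_product, mem_PP]
    refine ⟨?_, h1⟩
    unfold UU
    rw [mem_filter, mem_range]
    refine ⟨Nat.mod_lt _ hb0, ?_⟩
    rw [← coprime_wrap (h := h), h2]
    exact hm.2.2
  · rintro ⟨x, n⟩ hp
    rw [mem_product, mem_PP] at hp
    have hx1 := UU_pos hb hp.1
    unfold UU at hp
    rw [mem_filter, mem_range] at hp
    rw [mem_FF]
    refine ⟨pal_wrap hp.1.1 hp.2, ?_, coprime_wrap.2 hp.1.2⟩
    unfold wrap
    simp only at hx1 ⊢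
    have h1 : b ^ (2 * (h + 1)) = b * b ^ (2 * h + 1) := by ring
    rw [h1]
    have h2 : b ^ (2 * h + 1) ≤ n + x * b ^ (2 * h + 1) := by nlinarith [pow_pos hb0 (2 * h + 1)]
    nlinarith
  · intro m hm
    rw [mem_FF] at hm
    exact (unwrap_pal hb0 hm.1).2
  · rintro ⟨x, n⟩ hp
    rw [mem_product, mem_PP] at hp
    unfold UU at hp
    rw [mem_filter, mem_range] at hp
    simp only
    rw [wrap_mod h n hp.1.1, wrap_div h n hp.1.1, Nat.add_mul_mod_self_right,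
      Nat.mod_eq_of_lt hp.2.1]
  · intro m hm
    rw [mem_FF] at hm
    simp only
    rw [(unwrap_pal hb0 hm.1).2]

lemma card_PP {b : ℕ} (hb : 0 < b) (h : ℕ) : (PP b h).card = b ^ (h + 1) := by
  induction h with
  | zero =>
    have : PP b 0 = range b := by
      ext n
      rw [mem_PP, mem_range]
      unfold Pal
      simp
    rw [this, card_range, zero_add, pow_one]
  | succ h ih =>
    rw [card_eq_sum_ones, sum_PP_succ hb, ← card_eq_sum_ones, ih, sum_const, card_range,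
      smul_eq_mul, pow_succ b (h + 1), mul_comm]

lemma card_FF {b : ℕ} (hb : 2 ≤ b) (h : ℕ) :
    (FF b (h + 1)).card = Nat.totient b * b ^ (h + 1) := by
  rw [card_eq_sum_ones, sum_FF_succ hb, ← card_eq_sum_ones, card_PP (by omega), sum_const, card_UU,
    smul_eq_mul]

section exp
variable {Q : ℕ} [NeZero Q]

/-- the exponential sum over the palindromes -/
noncomputable def SS (b h : ℕ) (t : ZMod Q) : ℂ := ∑ n ∈ PP b h, ZMod.stdAddChar (t * (n : ZMod Q))

/-- the exponential sum over the palindromes prime to the base -/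
noncomputable def GG (b h : ℕ) (t : ZMod Q) : ℂ := ∑ n ∈ FF b h, ZMod.stdAddChar (t * (n : ZMod Q))

/-- the sum over one digit -/
noncomputable def DS (b : ℕ) (y : ZMod Q) : ℂ := ∑ x ∈ range b, ZMod.stdAddChar (y * (x : ZMod Q))

lemma char_wrap (b h x n : ℕ) (t : ZMod Q) :
    ZMod.stdAddChar (t * ((wrap b h x n : ℕ) : ZMod Q)) =
      ZMod.stdAddChar (t * (1 + (b : ZMod Q) ^ (2 * (h + 1))) * (x : ZMod Q)) *
        ZMod.stdAddChar (t * (b : ZMod Q) * (n : ZMod Q)) := by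
  rw [← AddChar.map_add_eq_mul]
  congr 1
  unfold wrap
  push_cast
  ring

lemma SS_succ {b : ℕ} (hb : 0 < b) (h : ℕ) (t : ZMod Q) :
    SS b (h + 1) t = DS b (t * (1 + (b : ZMod Q) ^ (2 * (h + 1)))) * SS b h (t * (b : ZMod Q)) := by
  unfold SS DS
  rw [sum_PP_succ hb, sum_mul]
  refine sum_congr rfl fun x _ => ?_
  rw [mul_sum]
  exact sum_congr rfl fun n _ => char_wrap b h x n t

lemma GG_succ {b : ℕ} (hb : 2 ≤ b) (h : ℕ) (t : ZMod Q) :
    GG b (h + 1) t = (∑ x ∈ UU b, ZMod.stdAddChar (t * (1 + (b : ZMod Q) ^ (2 * (h + 1))) *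
      (x : ZMod Q))) * SS b h (t * (b : ZMod Q)) := by
  unfold GG SS
  rw [sum_FF_succ hb, sum_mul]
  refine sum_congr rfl fun x _ => ?_
  rw [mul_sum]
  exact sum_congr rfl fun n _ => char_wrap b h x n t

lemma norm_DS_le (b : ℕ) (y : ZMod Q) : ‖DS b y‖ ≤ b := by
  unfold DS
  refine (norm_sum_le _ _).trans ?_
  simp only [AddChar.norm_apply]
  rw [sum_const, card_range, nsmul_eq_mul, mul_one]

lemma norm_SS_le {b : ℕ} (hb : 0 < b) (h : ℕ) (t : ZMod Q) : ‖SS b h t‖ ≤ (b:ℝ) ^ (h + 1) := by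
  unfold SS
  refine (norm_sum_le _ _).trans ?_
  simp only [AddChar.norm_apply]
  rw [sum_const, card_PP hb, nsmul_eq_mul, mul_one]
  push_cast
  rfl

lemma norm_SS_add {b : ℕ} (hb : 0 < b) (m : ℕ) : ∀ (h : ℕ) (t : ZMod Q),
    ‖SS b (h + m) t‖ ≤ (b:ℝ) ^ m * ‖SS b h (t * (b : ZMod Q) ^ m)‖ := by
  induction m with
  | zero => intro h t; simp
  | succ m ih =>
    intro h t
    rw [← add_assoc, SS_succ hb, norm_mul]
    calc _ ≤ (b:ℝ) * ((b:ℝ) ^ m * ‖SS b h (t * (b : ZMod Q) * (b : ZMod Q) ^ m)‖) := by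
          apply mul_le_mul (norm_DS_le _ _) (ih h _) (norm_nonneg _) (Nat.cast_nonneg _)
      _ = _ := by
          rw [pow_succ (b : ZMod Q) m, show t * ((b : ZMod Q) ^ m * (b : ZMod Q)) = t * (b : ZMod Q) * (b : ZMod Q) ^ m by ring]
          ring

/-- a nontrivial digit sum is smaller than `b` -/
lemma norm_DS_lt {b : ℕ} (hb : 2 ≤ b) {y : ZMod Q} (hy : y ≠ 0) : ‖DS b y‖ < b := by
  obtain ⟨c, rfl⟩ : ∃ c, b = 2 + c := ⟨b - 2, by omega⟩
  unfold DS
  rw [sum_range_add]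
  have h1 : ∑ x ∈ range 2, (ZMod.stdAddChar (y * (x : ZMod Q)) : ℂ) = 1 + ZMod.stdAddChar y := by
    rw [sum_range_succ, sum_range_one]
    simp
  rw [h1]
  have h2 : ‖∑ x ∈ range c, (ZMod.stdAddChar (y * ((2 + x : ℕ) : ZMod Q)) : ℂ)‖ ≤ c := by
    refine (norm_sum_le _ _).trans ?_
    simp only [AddChar.norm_apply]
    rw [sum_const, card_range, nsmul_eq_mul, mul_one]
  have hψ : (ZMod.stdAddChar y : ℂ) ≠ 1 := by
    intro h
    apply hy
    apply ZMod.injective_stdAddChar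
    rw [h, AddChar.map_zero_eq_one]
  have h3 : ‖(1:ℂ) + ZMod.stdAddChar y‖ < 2 := by
    have hn : ‖(ZMod.stdAddChar y : ℂ)‖ = 1 := AddChar.norm_apply _ _
    have h4 : ‖(1:ℂ) + ZMod.stdAddChar y‖ ≤ 2 := by
      refine (norm_add_le _ _).trans ?_
      rw [norm_one, hn]
      norm_num
    refine lt_of_le_of_ne h4 ?_
    intro h5
    apply hψ
    have h6 : ‖(1:ℂ) + ZMod.stdAddChar y‖ = ‖(1:ℂ)‖ + ‖(ZMod.stdAddChar y : ℂ)‖ := by
      rw [h5, norm_one, hn]; norm_num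
    have h7 : SameRay ℝ (1:ℂ) (ZMod.stdAddChar y : ℂ) := sameRay_iff_norm_add.2 h6
    exact (h7.eq_of_norm_eq (by rw [norm_one, hn])).symm
  calc _ ≤ ‖(1:ℂ) + ZMod.stdAddChar y‖ +
        ‖∑ x ∈ range c, (ZMod.stdAddChar (y * ((2 + x : ℕ) : ZMod Q)) : ℂ)‖ := norm_add_le _ _
    _ < 2 + c := by linarith
    _ = _ := by push_cast; ring

/-- uniform saving -/
lemma exists_rho {b : ℕ} (hb : 2 ≤ b) : ∃ ρ : ℝ, 0 ≤ ρ ∧ ρ < 1 ∧ ∀ y : ZMod Q, y ≠ 0 →
    ‖DS b y‖ ≤ ρ * b := by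
  classical
  have hbr : (0:ℝ) < b := by exact_mod_cast (by omega : 0 < b)
  rcases ((univ : Finset (ZMod Q)).filter (fun y => y ≠ 0)).eq_empty_or_nonempty with h0 | hne
  · refine ⟨0, le_rfl, one_pos, fun y hy => ?_⟩
    exfalso
    have : y ∈ (univ : Finset (ZMod Q)).filter (fun y => y ≠ 0) := mem_filter.2 ⟨mem_univ _, hy⟩
    rw [h0] at this
    simp at this
  · obtain ⟨y₀, hy₀, hmax⟩ := Finset.exists_max_image _ (fun y : ZMod Q => ‖DS b y‖) hne
    rw [mem_filter] at hy₀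
    refine ⟨‖DS b y₀‖ / b, by positivity, (div_lt_one hbr).2 (norm_DS_lt hb hy₀.2), ?_⟩
    intro y hy
    rw [div_mul_cancel₀ _ hbr.ne']
    exact hmax y (mem_filter.2 ⟨mem_univ _, hy⟩)

/-- exponential decay of the exponential sums -/
theorem decay {b : ℕ} (hb : 2 ≤ b) (hbQ : b.Coprime Q) : ∃ ρ : ℝ, 0 ≤ ρ ∧ ρ < 1 ∧ ∃ P : ℕ, 0 < P ∧
    ∀ k h : ℕ, k * P ≤ h → ∀ t : ZMod Q, 2 * t ≠ 0 → ‖SS b h t‖ ≤ ρ ^ k * (b:ℝ) ^ (h + 1) := by
  obtain ⟨ρ, hρ0, hρ1, hρ⟩ := exists_rho (Q := Q) hb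
  refine ⟨ρ, hρ0, hρ1, Nat.totient Q, Nat.totient_pos.2 (NeZero.pos Q), ?_⟩
  have hb0 : 0 < b := by omega
  have hPpos : 0 < Nat.totient Q := Nat.totient_pos.2 (NeZero.pos Q)
  obtain ⟨P, hP⟩ : ∃ P, P = Nat.totient Q := ⟨_, rfl⟩
  rw [← hP] at hPpos ⊢
  have hbu : IsUnit (b : ZMod Q) := (ZMod.isUnit_iff_coprime _ _).2 hbQ
  have hone : ∀ c : ℕ, (b : ZMod Q) ^ (P * c) = 1 := by
    intro c
    have h1 := Nat.ModEq.pow_totient hbQ
    rw [← ZMod.natCast_eq_natCast_iff] at h1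
    push_cast at h1
    rw [← hP] at h1
    rw [pow_mul, h1, one_pow]
  have hT : ∀ (m : ℕ) (t : ZMod Q), 2 * t ≠ 0 → 2 * (t * (b : ZMod Q) ^ m) ≠ 0 := by
    intro m t ht h0
    apply ht
    rw [← mul_assoc] at h0
    exact ((hbu.pow m).mul_left_eq_zero).1 h0
  intro k
  induction k with
  | zero =>
    intro h _ t _
    rw [pow_zero, one_mul]
    exact norm_SS_le hb0 h t
  | succ k ih =>
    intro h hh t ht
    have h1 : k + 1 ≤ h / P := (Nat.le_div_iff_mul_le hPpos).2 hh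
    have h2 : P * (h / P) ≤ h := Nat.mul_div_le h P
    have h3 : P * (k + 1) ≤ P * (h / P) := Nat.mul_le_mul_left _ h1
    obtain ⟨g, hg⟩ : ∃ g, g + 1 = P * (h / P) := ⟨P * (h / P) - 1, by
      have : P * (k + 1) = P * k + P := by ring
      omega⟩
    have hgk : k * P ≤ g := by
      have : P * (k + 1) = k * P + P := by ring
      omega
    obtain ⟨m, hm⟩ : ∃ m, h = g + 1 + m := ⟨h - (g + 1), by omega⟩
    rw [hm]
    have h4 := norm_SS_add hb0 m (g + 1) t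
    obtain ⟨t', ht'⟩ : ∃ t', t' = t * (b : ZMod Q) ^ m := ⟨_, rfl⟩
    rw [← ht'] at h4
    have ht2 : 2 * t' ≠ 0 := by rw [ht']; exact hT m t ht
    have h5 : ‖SS b (g + 1) t'‖ ≤ (ρ * b) * (ρ ^ k * (b:ℝ) ^ (g + 1)) := by
      rw [SS_succ hb0, norm_mul]
      have e : t' * (1 + (b : ZMod Q) ^ (2 * (g + 1))) = 2 * t' := by
        rw [hg, show 2 * (P * (h / P)) = P * (2 * (h / P)) by ring, hone]
        ring
      rw [e]
      apply mul_le_mul (hρ _ ht2) _ (norm_nonneg _) (by positivity)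
      apply ih g hgk
      have := hT 1 t' ht2
      rwa [pow_one] at this
    calc _ ≤ (b:ℝ) ^ m * ‖SS b (g + 1) t'‖ := h4
      _ ≤ (b:ℝ) ^ m * ((ρ * b) * (ρ ^ k * (b:ℝ) ^ (g + 1))) := by gcongr
      _ = ρ ^ (k + 1) * (b:ℝ) ^ (g + 1 + m + 1) := by ring

end exp

end Pool.Agent.H610.SqF
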