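import Pool.Agent.H610.SqF.Large

set_option autoImplicit false

/-!
# The tail: palindromes divisible by the square of some `d ≥ b ^ σ`
-/

namespace Pool.Agent.H610.SqF

open Finset Filter

lemma sum_inv_pow {A σ N : ℕ} (hA : 2 ≤ A) (hσ : 1 ≤ σ) :
    ∑ s ∈ Ico σ N, 1 / (s:ℝ) ^ A ≤ 2 / (σ:ℝ) ^ (A - 1) := by
  have hσr : (0:ℝ) < σ := by exact_mod_cast hσ
  have h1 : ∀ s ∈ Ico σ N, 1 / (s:ℝ) ^ A ≤ 1 / (σ:ℝ) ^ (A - 2) * ((s:ℝ) ^ 2)⁻¹ := by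
    intro s hs
    rw [mem_Ico] at hs
    have hs1 : (σ:ℝ) ≤ s := by exact_mod_cast hs.1
    have hs0 : (0:ℝ) < s := by linarith
    have e : (s:ℝ) ^ A = (s:ℝ) ^ (A - 2) * (s:ℝ) ^ 2 := by
      rw [← pow_add]; congr 1; omega
    rw [e, one_div, mul_inv, one_div]
    apply mul_le_mul_of_nonneg_right _ (by positivity)
    apply inv_anti₀ (by positivity)
    exact pow_le_pow_left₀ hσr.le hs1 _
  have h2 : Ico σ N = Ioo (σ - 1) N := by
    ext x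
    rw [mem_Ico, mem_Ioo]
    omega
  have h3 : ∑ s ∈ Ico σ N, ((s:ℝ) ^ 2)⁻¹ ≤ 2 / σ := by
    rw [h2]
    have h4 := sum_Ioo_inv_sq_le (α := ℝ) (σ - 1) N
    have e : (((σ - 1 : ℕ) : ℝ) + 1) = σ := by
      have : ((σ - 1 : ℕ) + 1 : ℕ) = σ := by omega
      exact_mod_cast this
    rwa [e] at h4
  calc _ ≤ ∑ s ∈ Ico σ N, 1 / (σ:ℝ) ^ (A - 2) * ((s:ℝ) ^ 2)⁻¹ := sum_le_sum h1
    _ = 1 / (σ:ℝ) ^ (A - 2) * ∑ s ∈ Ico σ N, ((s:ℝ) ^ 2)⁻¹ := by rw [mul_sum]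
    _ ≤ 1 / (σ:ℝ) ^ (A - 2) * (2 / σ) := by gcongr
    _ = 2 / (σ:ℝ) ^ (A - 1) := by
        have : (σ:ℝ) ^ (A - 1) = (σ:ℝ) ^ (A - 2) * σ := by
          rw [← pow_succ]; congr 1; omega
        rw [this]
        field_simp

open Classical in
/-- **The tail.** -/
theorem tail {b : ℕ} (hb : 2 ≤ b) (A : ℕ) (hA : 2 ≤ A) : ∃ s₀ h₀ : ℕ, ∀ h ≥ h₀, ∀ σ ≥ s₀, σ ≤ h →
    (((FF b h).filter (fun n => ∃ d, b ^ σ ≤ d ∧ d ^ 2 ∣ n)).card : ℝ) ≤
      21 * (b:ℝ) ^ (h + 5) / (σ:ℝ) ^ (A - 1) := by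
  obtain ⟨s₁, hs₁⟩ := mid hb A (by omega)
  obtain ⟨h₁, hh₁⟩ := large hb A
  obtain ⟨h₂, hh₂⟩ := clog_small hb A 45
  refine ⟨max s₁ 1, max (max h₁ h₂) 10, fun h hh σ hσ hσh => ?_⟩
  have hb0 : 0 < b := by omega
  have hbr : (0:ℝ) < b := by exact_mod_cast hb0
  have hb1 : (1:ℝ) ≤ b := by exact_mod_cast (by omega : 1 ≤ b)
  have k1 : h₁ ≤ h := by omega
  have k2 : h₂ ≤ h := by omega
  have k3 : 10 ≤ h := by omega
  have k4 : s₁ ≤ σ := by omega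
  have k5 : 1 ≤ σ := by omega
  have hσr : (0:ℝ) < σ := by exact_mod_cast k5
  have hhr : (σ:ℝ) ≤ h := by exact_mod_cast hσh
  obtain ⟨v, hv⟩ : ∃ v, v = 4 * h / 5 := ⟨_, rfl⟩
  -- large divisors
  have hlarge : (((FF b h).filter (fun n => ∃ d, b ^ v ≤ d ∧ d ^ 2 ∣ n)).card : ℝ) ≤
      (b:ℝ) ^ (h + 5) / (σ:ℝ) ^ (A - 1) := by
    have h1 := hh₁ h k1 v (by omega) (by omega)
    have h2 : ((((FF b h).filter (fun n => ∃ d, b ^ v ≤ d ∧ d ^ 2 ∣ n)).card : ℕ) : ℝ) * (h:ℝ) ^ A ≤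
        (b:ℝ) ^ h := by exact_mod_cast h1
    rw [le_div_iff₀ (by positivity)]
    calc _ ≤ ((((FF b h).filter (fun n => ∃ d, b ^ v ≤ d ∧ d ^ 2 ∣ n)).card : ℕ) : ℝ) *
          (h:ℝ) ^ A := by
          apply mul_le_mul_of_nonneg_left _ (Nat.cast_nonneg _)
          calc (σ:ℝ) ^ (A - 1) ≤ (h:ℝ) ^ (A - 1) := pow_le_pow_left₀ hσr.le hhr _
            _ ≤ (h:ℝ) ^ A := by
                apply pow_le_pow_right₀ _ (by omega)
                have : (10:ℝ) ≤ h := by exact_mod_cast k3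
                linarith
      _ ≤ (b:ℝ) ^ h := h2
      _ ≤ (b:ℝ) ^ (h + 5) := pow_le_pow_right₀ hb1 (by omega)
  have hpos : 0 ≤ (b:ℝ) ^ (h + 5) / (σ:ℝ) ^ (A - 1) := by positivity
  -- medium divisors
  have hsub : (FF b h).filter (fun n => ∃ d, b ^ σ ≤ d ∧ d ^ 2 ∣ n) ⊆
      ((Ico σ v).biUnion (fun s =>
        ((Ico (b ^ s) (b ^ (s + 1))).filter (fun d => d.Coprime b)).biUnion
          (fun d => TT b (2 * h + 1) d))) ∪
      (FF b h).filter (fun n => ∃ d, b ^ v ≤ d ∧ d ^ 2 ∣ n) := by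
    intro n hn
    rw [mem_filter] at hn
    obtain ⟨hnF, d, hd, hdn⟩ := hn
    rw [mem_union]
    by_cases hdv : b ^ v ≤ d
    · right
      exact mem_filter.2 ⟨hnF, d, hdv, hdn⟩
    · left
      push Not at hdv
      have hnF' := mem_FF.1 hnF
      have hd0 : d ≠ 0 := by
        have : 0 < b ^ σ := pow_pos hb0 _
        omega
      rw [mem_biUnion]
      refine ⟨Nat.log b d, ?_, ?_⟩
      · rw [mem_Ico]
        exact ⟨Nat.le_log_of_pow_le (by omega) hd, Nat.log_lt_of_lt_pow hd0 hdv⟩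
      · rw [mem_biUnion]
        refine ⟨d, ?_, mem_TT.2 ⟨hnF'.1, hdn⟩⟩
        rw [mem_filter, mem_Ico]
        refine ⟨⟨Nat.pow_log_le_self b hd0, Nat.lt_pow_succ_log_self (by omega) d⟩, ?_⟩
        exact Nat.Coprime.coprime_dvd_left ((Dvd.intro_left d (by ring)).trans hdn) hnF'.2.2
  have hmid : (((Ico σ v).biUnion (fun s =>
        ((Ico (b ^ s) (b ^ (s + 1))).filter (fun d => d.Coprime b)).biUnion
          (fun d => TT b (2 * h + 1) d))).card : ℝ) ≤ 20 * (b:ℝ) ^ (h + 5) / (σ:ℝ) ^ (A - 1) := by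
    have h1 : ((Ico σ v).biUnion (fun s =>
        ((Ico (b ^ s) (b ^ (s + 1))).filter (fun d => d.Coprime b)).biUnion
          (fun d => TT b (2 * h + 1) d))).card ≤
        ∑ s ∈ Ico σ v, ∑ d ∈ (Ico (b ^ s) (b ^ (s + 1))).filter (fun d => d.Coprime b),
          (TT b (2 * h + 1) d).card :=
      card_biUnion_le.trans (sum_le_sum fun s _ => card_biUnion_le)
    have h2 : (((Ico σ v).biUnion (fun s =>
        ((Ico (b ^ s) (b ^ (s + 1))).filter (fun d => d.Coprime b)).biUnion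
          (fun d => TT b (2 * h + 1) d))).card : ℝ) ≤
        ∑ s ∈ Ico σ v, ∑ d ∈ (Ico (b ^ s) (b ^ (s + 1))).filter (fun d => d.Coprime b),
          ((TT b (2 * h + 1) d).card : ℝ) := by exact_mod_cast h1
    refine h2.trans ?_
    calc _ ≤ ∑ s ∈ Ico σ v, 10 * (b:ℝ) ^ (h + 5) / (s:ℝ) ^ A := by
          refine sum_le_sum fun s hs => ?_
          rw [mem_Ico] at hs
          apply hs₁ s (by omega) h
          have h3 : Nat.clog b (s ^ A) ≤ Nat.clog b (h ^ A) :=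
            Nat.clog_mono_right b (Nat.pow_le_pow_left (by omega) A)
          have h4 := hh₂ h k2
          omega
      _ = 10 * (b:ℝ) ^ (h + 5) * ∑ s ∈ Ico σ v, 1 / (s:ℝ) ^ A := by
          rw [mul_sum]
          exact sum_congr rfl fun s _ => by ring
      _ ≤ 10 * (b:ℝ) ^ (h + 5) * (2 / (σ:ℝ) ^ (A - 1)) := by
          gcongr
          exact sum_inv_pow hA k5
      _ = _ := by ring
  have hcard : (((FF b h).filter (fun n => ∃ d, b ^ σ ≤ d ∧ d ^ 2 ∣ n)).card : ℝ) ≤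
      (((Ico σ v).biUnion (fun s =>
        ((Ico (b ^ s) (b ^ (s + 1))).filter (fun d => d.Coprime b)).biUnion
          (fun d => TT b (2 * h + 1) d))).card : ℝ) +
      (((FF b h).filter (fun n => ∃ d, b ^ v ≤ d ∧ d ^ 2 ∣ n)).card : ℝ) := by
    exact_mod_cast (card_le_card hsub).trans (card_union_le _ _)
  calc _ ≤ _ := hcard
    _ ≤ 20 * (b:ℝ) ^ (h + 5) / (σ:ℝ) ^ (A - 1) + (b:ℝ) ^ (h + 5) / (σ:ℝ) ^ (A - 1) :=
        add_le_add hmid hlarge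
    _ = _ := by ring

end Pool.Agent.H610.SqF
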