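import Pool.Agent.H610.SqF.Dens
import Pool.Agent.H610.SqF.Tail

set_option autoImplicit false

/-!
# Palindromes up to a given bound in residue classes
-/

namespace Pool.Agent.H610.SqF

open Finset Filter

lemma wrap_lt {b h x n y : ℕ} (hb : 0 < b) (hx : x < b) (hn : n < b ^ (2 * h + 1)) :
    wrap b h x n < y ↔ x < y / b ^ (2 * h + 2) ∨ (x = y / b ^ (2 * h + 2) ∧
      n < (y % b ^ (2 * h + 2) + b - 1 - y / b ^ (2 * h + 2)) / b) := by
  have hX : 0 < b ^ (2 * h + 2) := pow_pos hb _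
  have e1 : b ^ (2 * h + 2) = b * b ^ (2 * h + 1) := by ring
  have h0 : x + b * n < b ^ (2 * h + 2) := by
    rw [e1]
    have : b * (n + 1) ≤ b * b ^ (2 * h + 1) := Nat.mul_le_mul_left _ hn
    have e2 : b * (n + 1) = b * n + b := by ring
    omega
  have hw : wrap b h x n = (x + b * n) + b ^ (2 * h + 2) * x := by
    unfold wrap
    rw [e1]
    ring
  have hy := Nat.mod_add_div y (b ^ (2 * h + 2))
  have hy0 := Nat.mod_lt y hX
  rw [hw]
  generalize b ^ (2 * h + 2) = X at *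
  generalize y / X = Y at *
  generalize y % X = y₀ at *
  subst hy
  rw [Nat.lt_div_iff_mul_lt hb]
  have e3 : b * n = n * b := mul_comm _ _
  constructor
  · intro h1
    rcases lt_trichotomy x Y with h2 | h2 | h2
    · exact Or.inl h2
    · right
      refine ⟨h2, ?_⟩
      subst h2
      omega
    · exfalso
      have h3 : X * (Y + 1) ≤ X * x := Nat.mul_le_mul_left _ h2
      have e4 : X * (Y + 1) = X * Y + X := by ring
      omega
  · rintro (h2 | ⟨h2, h3⟩)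
    · have h3 : X * (x + 1) ≤ X * Y := Nat.mul_le_mul_left _ h2
      have e4 : X * (x + 1) = X * x + X := by ring
      omega
    · subst h2
      omega

section
variable {Q : ℕ} [NeZero Q]

/-- centred exponential sums over the palindromes below `y` -/
noncomputable def TP (b h y : ℕ) (t : ZMod Q) : ℂ :=
  ∑ n ∈ PP b h, if n < y then (ZMod.stdAddChar (t * (n : ZMod Q)) - lam b t : ℂ) else 0

omit [NeZero Q] in
lemma lam_mul_b {b : ℕ} (hbQ : b.Coprime Q) (t : ZMod Q) :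
    lam b (t * (b : ZMod Q)) = lam b t := by
  have hbu : IsUnit (b : ZMod Q) := (ZMod.isUnit_iff_coprime _ _).2 hbQ
  unfold lam
  have h1 : t * (b : ZMod Q) = 0 ↔ t = 0 := hbu.mul_left_eq_zero
  have h2 : 2 * (t * (b : ZMod Q)) = 0 ↔ 2 * t = 0 := by
    rw [← mul_assoc]
    exact hbu.mul_left_eq_zero
  simp only [h1, h2]

lemma char_mul_lam {b : ℕ} (hbQ : b.Coprime Q) (t : ZMod Q) (k x : ℕ) :
    (ZMod.stdAddChar (t * (1 + (b : ZMod Q) ^ k) * (x : ZMod Q)) : ℂ) * lam b t = lam b t := by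
  by_cases ht : t = 0
  · rw [ht]
    simp
  by_cases h2 : 2 * t = 0
  · have hodd := odd_of_torsion hbQ ht h2
    have e2 : t * (1 + (b : ZMod Q) ^ k) = 0 := by
      rw [mul_add, mul_one, mul_pow_of_torsion hodd h2]
      rw [← h2]
      ring
    rw [e2, zero_mul, AddChar.map_zero_eq_one, one_mul]
  · have : lam b t = 0 := by
      unfold lam
      rw [if_neg ht, if_neg h2]
    rw [this, mul_zero]

omit [NeZero Q] in
lemma norm_lam_le {b : ℕ} (hb : 2 ≤ b) (t : ZMod Q) : ‖lam b t‖ ≤ 1 := by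
  unfold lam
  split_ifs
  · simp
  · rw [norm_div, norm_one, Complex.norm_natCast]
    rw [div_le_one (by positivity)]
    exact_mod_cast (by omega : 1 ≤ b)
  · simp

/-- a full centred sum is small -/
lemma full_small {b : ℕ} (hb : 2 ≤ b) (hbQ : b.Coprime Q) {ρ : ℝ} (hρ0 : 0 ≤ ρ) {P : ℕ}
    (hd : ∀ k h : ℕ, k * P ≤ h → ∀ t : ZMod Q, 2 * t ≠ 0 → ‖SS b h t‖ ≤ ρ ^ k * (b:ℝ) ^ (h + 1))
    (h x : ℕ) (t : ZMod Q) :
    ‖∑ n ∈ PP b h, (ZMod.stdAddChar (t * ((wrap b h x n : ℕ) : ZMod Q)) - lam b t : ℂ)‖ ≤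
      ρ ^ (h / P) * (b:ℝ) ^ (h + 1) := by
  have hb0 : 0 < b := by omega
  have hbc : (b:ℂ) ≠ 0 := by exact_mod_cast hb0.ne'
  have hbu : IsUnit (b : ZMod Q) := (ZMod.isUnit_iff_coprime _ _).2 hbQ
  have hr : 0 ≤ ρ ^ (h / P) * (b:ℝ) ^ (h + 1) := by positivity
  rw [sum_sub_distrib, sum_const, card_PP hb0, nsmul_eq_mul]
  have e : ∑ n ∈ PP b h, (ZMod.stdAddChar (t * ((wrap b h x n : ℕ) : ZMod Q)) : ℂ) =
      ZMod.stdAddChar (t * (1 + (b : ZMod Q) ^ (2 * (h + 1))) * (x : ZMod Q)) *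
        SS b h (t * (b : ZMod Q)) := by
    unfold SS
    rw [mul_sum]
    exact sum_congr rfl fun n _ => char_wrap b h x n t
  rw [e]
  by_cases ht : t = 0
  · have h1 : SS b h (t * (b : ZMod Q)) = (b:ℂ) ^ (h + 1) := by
      unfold SS
      rw [ht]
      simp only [zero_mul, AddChar.map_zero_eq_one]
      rw [sum_const, card_PP hb0, nsmul_eq_mul, mul_one]
      push_cast
      rfl
    rw [h1, ht]
    have h2 : lam b (0 : ZMod Q) = 1 := by unfold lam; rw [if_pos rfl]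
    rw [h2]
    simp only [zero_mul, AddChar.map_zero_eq_one, one_mul, mul_one]
    push_cast
    rw [sub_self, norm_zero]
    exact hr
  by_cases h2 : 2 * t = 0
  · have hodd := odd_of_torsion hbQ ht h2
    have e1 : t * (b : ZMod Q) = t := by
      have := mul_pow_of_torsion hodd h2 1
      rwa [pow_one] at this
    have e2 : t * (1 + (b : ZMod Q) ^ (2 * (h + 1))) = 0 := by
      rw [mul_add, mul_one, mul_pow_of_torsion hodd h2]
      rw [← h2]
      ring
    have e3 : lam b t = 1 / b := by unfold lam; rw [if_neg ht, if_pos h2]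
    rw [e1, e2, zero_mul, AddChar.map_zero_eq_one, one_mul, SS_torsion hodd ht h2, e3]
    have e4 : (b:ℂ) ^ h - ((b ^ (h + 1) : ℕ) : ℂ) * (1 / b) = 0 := by
      push_cast
      field_simp
      ring
    rw [e4, norm_zero]
    exact hr
  · have e3 : lam b t = 0 := by unfold lam; rw [if_neg ht, if_neg h2]
    rw [e3, mul_zero, sub_zero, norm_mul, AddChar.norm_apply, one_mul]
    apply hd (h / P) h (Nat.div_mul_le_self h P)
    intro h3
    apply h2
    rw [← mul_assoc] at h3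
    exact (hbu.mul_left_eq_zero).1 h3

/-- the recursive bound -/
noncomputable def Bd (b : ℕ) (ρ : ℝ) (P : ℕ) : ℕ → ℝ
  | 0 => 2 * b
  | h + 1 => b * (ρ ^ (h / P) * (b:ℝ) ^ (h + 1)) + Bd b ρ P h

lemma step {b : ℕ} (hb : 2 ≤ b) (hbQ : b.Coprime Q) {ρ : ℝ} (hρ0 : 0 ≤ ρ) {P : ℕ}
    (hd : ∀ k h : ℕ, k * P ≤ h → ∀ t : ZMod Q, 2 * t ≠ 0 → ‖SS b h t‖ ≤ ρ ^ k * (b:ℝ) ^ (h + 1))
    (h : ℕ) (M : ℝ) (hM : ∀ (y : ℕ) (t : ZMod Q), ‖TP b h y t‖ ≤ M) (U : Finset ℕ)
    (hU : U ⊆ range b) (y : ℕ) (t : ZMod Q) :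
    ‖∑ x ∈ U, ∑ n ∈ PP b h, (if wrap b h x n < y then
      (ZMod.stdAddChar (t * ((wrap b h x n : ℕ) : ZMod Q)) - lam b t : ℂ) else 0)‖ ≤
      b * (ρ ^ (h / P) * (b:ℝ) ^ (h + 1)) + M := by
  have hb0 : 0 < b := by omega
  have hM0 : 0 ≤ M := (norm_nonneg _).trans (hM 0 0)
  set Y := y / b ^ (2 * h + 2) with hY
  have key : ∀ x ∈ U, ‖∑ n ∈ PP b h, (if wrap b h x n < y then
      (ZMod.stdAddChar (t * ((wrap b h x n : ℕ) : ZMod Q)) - lam b t : ℂ) else 0)‖ ≤
      ρ ^ (h / P) * (b:ℝ) ^ (h + 1) + (if x = Y then M else 0) := by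
    intro x hx
    have hxb : x < b := mem_range.1 (hU hx)
    have hr : 0 ≤ ρ ^ (h / P) * (b:ℝ) ^ (h + 1) := by positivity
    rcases lt_trichotomy x Y with h1 | h1 | h1
    · have e : ∀ n ∈ PP b h, (if wrap b h x n < y then
          (ZMod.stdAddChar (t * ((wrap b h x n : ℕ) : ZMod Q)) - lam b t : ℂ) else 0) =
          (ZMod.stdAddChar (t * ((wrap b h x n : ℕ) : ZMod Q)) - lam b t : ℂ) := by
        intro n hn
        rw [if_pos ((wrap_lt hb0 hxb (mem_PP.1 hn).1).2 (Or.inl h1))]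
      rw [sum_congr rfl e, if_neg h1.ne, add_zero]
      exact full_small hb hbQ hρ0 hd h x t
    · obtain ⟨y', hy'⟩ : ∃ y', y' = (y % b ^ (2 * h + 2) + b - 1 - y / b ^ (2 * h + 2)) / b := ⟨_, rfl⟩
      have e : ∀ n ∈ PP b h, (if wrap b h x n < y then
          (ZMod.stdAddChar (t * ((wrap b h x n : ℕ) : ZMod Q)) - lam b t : ℂ) else 0) =
          ZMod.stdAddChar (t * (1 + (b : ZMod Q) ^ (2 * (h + 1))) * (x : ZMod Q)) *
          (if n < y' then (ZMod.stdAddChar (t * (b : ZMod Q) * (n : ZMod Q)) -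
            lam b (t * (b : ZMod Q)) : ℂ) else 0) := by
        intro n hn
        have hiff : wrap b h x n < y ↔ n < y' := by
          rw [wrap_lt hb0 hxb (mem_PP.1 hn).1, hy']
          constructor
          · rintro (h2 | h2)
            · exact absurd h1 h2.ne
            · exact h2.2
          · intro h2
            exact Or.inr ⟨h1, h2⟩
        by_cases h2 : n < y'
        · rw [if_pos (hiff.2 h2), if_pos h2, char_wrap, lam_mul_b hbQ, mul_sub,
            char_mul_lam hbQ]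
        · rw [if_neg (fun h3 => h2 (hiff.1 h3)), if_neg h2, mul_zero]
      rw [sum_congr rfl e, ← mul_sum, norm_mul, AddChar.norm_apply, one_mul, if_pos h1]
      have := hM y' (t * (b : ZMod Q))
      unfold TP at this
      linarith
    · have e : ∀ n ∈ PP b h, (if wrap b h x n < y then
          (ZMod.stdAddChar (t * ((wrap b h x n : ℕ) : ZMod Q)) - lam b t : ℂ) else 0) = 0 := by
        intro n hn
        rw [if_neg]
        rw [wrap_lt hb0 hxb (mem_PP.1 hn).1]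
        rintro (h2 | h2)
        · exact absurd h1 (not_lt.2 h2.le)
        · exact h1.ne h2.1.symm
      rw [sum_congr rfl e, sum_const_zero, norm_zero, if_neg h1.ne']
      linarith
  calc _ ≤ ∑ x ∈ U, ‖∑ n ∈ PP b h, (if wrap b h x n < y then
      (ZMod.stdAddChar (t * ((wrap b h x n : ℕ) : ZMod Q)) - lam b t : ℂ) else 0)‖ := norm_sum_le _ _
    _ ≤ ∑ x ∈ U, (ρ ^ (h / P) * (b:ℝ) ^ (h + 1) + (if x = Y then M else 0)) := sum_le_sum key
    _ ≤ ∑ x ∈ range b, (ρ ^ (h / P) * (b:ℝ) ^ (h + 1) + (if x = Y then M else 0)) := by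
        apply sum_le_sum_of_subset_of_nonneg hU
        intro x _ _
        have hr : 0 ≤ ρ ^ (h / P) * (b:ℝ) ^ (h + 1) := by positivity
        split_ifs <;> linarith
    _ ≤ _ := by
        rw [sum_add_distrib, sum_const, card_range, nsmul_eq_mul]
        have : ∑ x ∈ range b, (if x = Y then M else 0) ≤ M := by
          rw [Finset.sum_ite_eq']
          split_ifs <;> linarith
        linarith

lemma TP_le {b : ℕ} (hb : 2 ≤ b) (hbQ : b.Coprime Q) {ρ : ℝ} (hρ0 : 0 ≤ ρ) {P : ℕ}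
    (hd : ∀ k h : ℕ, k * P ≤ h → ∀ t : ZMod Q, 2 * t ≠ 0 → ‖SS b h t‖ ≤ ρ ^ k * (b:ℝ) ^ (h + 1))
    (h : ℕ) : ∀ (y : ℕ) (t : ZMod Q), ‖TP b h y t‖ ≤ Bd b ρ P h := by
  have hb0 : 0 < b := by omega
  induction h with
  | zero =>
    intro y t
    unfold TP Bd
    calc _ ≤ ∑ n ∈ PP b 0, ‖(if n < y then (ZMod.stdAddChar (t * (n : ZMod Q)) - lam b t : ℂ) else 0)‖ :=
          norm_sum_le _ _
      _ ≤ ∑ n ∈ PP b 0, (2:ℝ) := by
          apply sum_le_sum
          intro n _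
          split_ifs
          · refine (norm_sub_le _ _).trans ?_
            rw [AddChar.norm_apply]
            have := norm_lam_le hb t
            linarith
          · rw [norm_zero]; norm_num
      _ = 2 * b := by
          rw [sum_const, card_PP hb0, nsmul_eq_mul]
          push_cast
          ring
  | succ h ih =>
    intro y t
    unfold TP
    rw [sum_PP_succ hb0]
    exact step hb hbQ hρ0 hd h _ ih (range b) (Subset.refl _) y t

lemma TF_le {b : ℕ} (hb : 2 ≤ b) (hbQ : b.Coprime Q) {ρ : ℝ} (hρ0 : 0 ≤ ρ) {P : ℕ}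
    (hd : ∀ k h : ℕ, k * P ≤ h → ∀ t : ZMod Q, 2 * t ≠ 0 → ‖SS b h t‖ ≤ ρ ^ k * (b:ℝ) ^ (h + 1))
    (h : ℕ) (y : ℕ) (t : ZMod Q) :
    ‖∑ n ∈ (FF b (h + 1)).filter (fun n => n < y),
      (ZMod.stdAddChar (t * (n : ZMod Q)) - lam b t : ℂ)‖ ≤ Bd b ρ P (h + 1) := by
  rw [sum_filter, sum_FF_succ hb]
  refine step hb hbQ hρ0 hd h _ (TP_le hb hbQ hρ0 hd h) (UU b) ?_ y t
  unfold UU
  exact filter_subset _ _

/-- from exponential sums to periodic functions -/
lemma mean_bound {b : ℕ} (hbQ : b.Coprime Q) (A : Finset ℕ) (F : ℕ → ℝ) (M : ℝ)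
    (hM : ∀ t : ZMod Q, ‖∑ n ∈ A, (ZMod.stdAddChar (t * (n : ZMod Q)) - lam b t : ℂ)‖ ≤ M) :
    |∑ n ∈ A, F (n % Q) - A.card * ∑ r ∈ range Q, F r * wgt b Q r| ≤
      (∑ r ∈ range Q, |F r|) * M := by
  classical
  have hQ : (Q:ℂ) ≠ 0 := by exact_mod_cast NeZero.ne Q
  have hQr : (0:ℝ) < Q := by exact_mod_cast NeZero.pos Q
  have h1 : ∀ r : ℕ, |((A.filter (fun n : ℕ => (n : ZMod Q) = r)).card : ℝ) - A.card * wgt b Q r| ≤ M := by
    intro r
    have e1 : ((((A.filter (fun n : ℕ => (n : ZMod Q) = r)).card : ℝ) - A.card * wgt b Q r : ℝ) : ℂ) =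
        (1 / (Q:ℂ)) * ∑ t : ZMod Q, ZMod.stdAddChar (-(t * (r : ZMod Q))) *
          ∑ n ∈ A, (ZMod.stdAddChar (t * (n : ZMod Q)) - lam b t : ℂ) := by
      have e2 : ∀ t : ZMod Q, (ZMod.stdAddChar (-(t * (r : ZMod Q))) : ℂ) *
          ∑ n ∈ A, (ZMod.stdAddChar (t * (n : ZMod Q)) - lam b t : ℂ) =
          ∑ n ∈ A, (ZMod.stdAddChar (t * ((n : ZMod Q) - (r : ZMod Q))) : ℂ) -
            A.card * (ZMod.stdAddChar (-(t * (r : ZMod Q))) * lam b t) := by
        intro t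
        rw [sum_sub_distrib, sum_const, nsmul_eq_mul, mul_sub, mul_sum]
        congr 1
        · refine sum_congr rfl fun n _ => ?_
          rw [← AddChar.map_add_eq_mul]
          congr 1
          ring
        · ring
      rw [sum_congr rfl (fun t _ => e2 t), sum_sub_distrib, ← mul_sum, sum_comm]
      have e3 : ∀ n ∈ A, ∑ t : ZMod Q, (ZMod.stdAddChar (t * ((n : ZMod Q) - (r : ZMod Q))) : ℂ) =
          if (n : ZMod Q) = r then (Q:ℂ) else 0 := by
        intro n _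
        rw [AddChar.sum_mulShift _ (ZMod.isPrimitive_stdAddChar Q), ZMod.card]
        simp only [sub_eq_zero]
        split_ifs <;> simp
      rw [sum_congr rfl e3, ← sum_filter, sum_const, nsmul_eq_mul, mul_sub]
      have e4 := lam_sum hbQ r
      rw [show (1 / (Q:ℂ)) * ((A.card : ℂ) * ∑ t : ZMod Q, ZMod.stdAddChar (-(t * (r : ZMod Q))) * lam b t) =
        A.card * ((1 / (Q:ℂ)) * ∑ t : ZMod Q, ZMod.stdAddChar (-(t * (r : ZMod Q))) * lam b t) by ring, e4]
      push_cast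
      field_simp
    have e5 : |((A.filter (fun n : ℕ => (n : ZMod Q) = r)).card : ℝ) - A.card * wgt b Q r| =
        ‖((((A.filter (fun n : ℕ => (n : ZMod Q) = r)).card : ℝ) - A.card * wgt b Q r : ℝ) : ℂ)‖ := by
      rw [Complex.norm_real, Real.norm_eq_abs]
    rw [e5, e1, norm_mul, norm_div, norm_one, Complex.norm_natCast]
    have e6 : ‖∑ t : ZMod Q, (ZMod.stdAddChar (-(t * (r : ZMod Q))) : ℂ) *
          ∑ n ∈ A, (ZMod.stdAddChar (t * (n : ZMod Q)) - lam b t : ℂ)‖ ≤ Q * M := by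
      calc _ ≤ ∑ t : ZMod Q, ‖(ZMod.stdAddChar (-(t * (r : ZMod Q))) : ℂ) *
          ∑ n ∈ A, (ZMod.stdAddChar (t * (n : ZMod Q)) - lam b t : ℂ)‖ := norm_sum_le _ _
        _ ≤ ∑ t : ZMod Q, M := by
            apply sum_le_sum
            intro t _
            rw [norm_mul, AddChar.norm_apply, one_mul]
            exact hM t
        _ = Q * M := by
            rw [sum_const, card_univ, ZMod.card, nsmul_eq_mul]
    calc _ ≤ 1 / (Q:ℝ) * (Q * M) := by gcongr
      _ = M := by field_simp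
  have h2 : ∑ n ∈ A, F (n % Q) = ∑ r ∈ range Q, F r *
      ((A.filter (fun n : ℕ => (n : ZMod Q) = r)).card : ℝ) := by
    have e1 : ∑ n ∈ A, F (n % Q) = ∑ r ∈ range Q, ∑ n ∈ A.filter (fun n : ℕ => n % Q = r), F (n % Q) := by
      rw [Finset.sum_fiberwise_of_maps_to]
      intro n _
      exact mem_range.2 (Nat.mod_lt _ (NeZero.pos Q))
    rw [e1]
    refine sum_congr rfl fun r hr => ?_
    rw [mem_range] at hr
    have h3 : A.filter (fun n : ℕ => (n : ZMod Q) = r) = A.filter (fun n : ℕ => n % Q = r) := by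
      apply filter_congr
      intro n _
      rw [ZMod.natCast_eq_natCast_iff', Nat.mod_eq_of_lt hr]
    rw [h3, mul_comm, ← nsmul_eq_mul, ← sum_const]
    refine sum_congr rfl fun n hn => ?_
    rw [(mem_filter.1 hn).2]
  have h3 : ∑ n ∈ A, F (n % Q) - A.card * ∑ r ∈ range Q, F r * wgt b Q r =
      ∑ r ∈ range Q, F r * (((A.filter (fun n : ℕ => (n : ZMod Q) = r)).card : ℝ) -
        A.card * wgt b Q r) := by
    rw [h2, mul_sum, ← sum_sub_distrib]
    refine sum_congr rfl fun r _ => ?_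
    ring
  rw [h3, sum_mul]
  refine (abs_sum_le_sum_abs _ _).trans ?_
  apply sum_le_sum
  intro r _
  rw [abs_mul]
  exact mul_le_mul_of_nonneg_left (h1 r) (abs_nonneg _)

end

/-- a contraction with a small perturbation -/
lemma tendsto_contr (u v : ℕ → ℝ) (hu : ∀ h, 0 ≤ u h) (hv : Tendsto v atTop (nhds 0))
    (huv : ∀ h, u (h + 1) ≤ u h / 2 + v h) : Tendsto u atTop (nhds 0) := by
  rw [Metric.tendsto_atTop]
  intro ε hε
  rw [Metric.tendsto_atTop] at hv
  obtain ⟨N, hN⟩ := hv (ε / 4) (by linarith)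
  have h1 : ∀ m, u (N + m) ≤ u N * (1 / 2) ^ m + ε / 2 := by
    intro m
    induction m with
    | zero =>
      rw [add_zero, pow_zero, mul_one]
      linarith
    | succ m ih =>
      have h2 := huv (N + m)
      have h3 := hN (N + m) (by omega)
      rw [Real.dist_eq, sub_zero] at h3
      have h4 := (abs_lt.1 h3).2
      rw [← add_assoc, pow_succ]
      linarith
  have h2 : Tendsto (fun m : ℕ => u N * (1 / 2 : ℝ) ^ m) atTop (nhds (u N * 0)) :=
    (tendsto_pow_atTop_nhds_zero_of_lt_one (by norm_num) (by norm_num)).const_mul _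
  rw [mul_zero, Metric.tendsto_atTop] at h2
  obtain ⟨m₀, hm₀⟩ := h2 (ε / 2) (by linarith)
  refine ⟨N + m₀, fun n hn => ?_⟩
  obtain ⟨m, rfl⟩ : ∃ m, n = N + m := ⟨n - N, by omega⟩
  have h3 := h1 m
  have h4 := hm₀ m (by omega)
  rw [Real.dist_eq, sub_zero] at h4 ⊢
  have h5 := (abs_lt.1 h4).2
  rw [abs_of_nonneg (hu _)]
  linarith

lemma Bd_tendsto {b : ℕ} (hb : 2 ≤ b) {ρ : ℝ} (hρ0 : 0 ≤ ρ) (hρ1 : ρ < 1) {P : ℕ} (hP : 0 < P) :
    Tendsto (fun h => Bd b ρ P h / (b:ℝ) ^ h) atTop (nhds 0) := by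
  have hbr : (2:ℝ) ≤ b := by exact_mod_cast hb
  have hB : ∀ h, 0 ≤ Bd b ρ P h := by
    intro h
    induction h with
    | zero => unfold Bd; positivity
    | succ h ih => unfold Bd; positivity
  apply tendsto_contr _ (fun h => b * ρ ^ (h / P)) (fun h => div_nonneg (hB h) (by positivity))
  · have := (tendsto_pow_atTop_nhds_zero_of_lt_one hρ0 hρ1).comp (Nat.tendsto_div_const_atTop hP.ne')
    have h2 := this.const_mul (b:ℝ)
    rw [mul_zero] at h2
    exact h2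
  · intro h
    rw [Bd, add_div, pow_succ]
    have h1 : (b:ℝ) * (ρ ^ (h / P) * ((b:ℝ) ^ h * b)) / ((b:ℝ) ^ h * b) = b * ρ ^ (h / P) := by
      field_simp
    rw [h1]
    have h2 : Bd b ρ P h / ((b:ℝ) ^ h * b) ≤ Bd b ρ P h / (b:ℝ) ^ h / 2 := by
      rw [div_div]
      apply div_le_div_of_nonneg_left (hB h) (by positivity)
      gcongr
    linarith

/-- palindromes up to `y` not divisible by the square of a prime in `S` -/
theorem seg_prod {b : ℕ} (hb : 2 ≤ b) (S : Finset ℕ) (hS : ∀ p ∈ S, p.Prime)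
    (hSb : ∀ p ∈ S, ¬ p ∣ b) : ∃ B : ℕ → ℝ, Tendsto (fun h => B h / (b:ℝ) ^ h) atTop (nhds 0) ∧
    ∀ h y : ℕ, |(((FF b (h + 1)).filter (fun n => n < y ∧ ∀ p ∈ S, ¬ p ^ 2 ∣ n)).card : ℝ) -
      (∏ p ∈ S, kap b p) * ((FF b (h + 1)).filter (fun n => n < y)).card| ≤ B (h + 1) := by
  have hQ0 := QQ_pos hS
  have : NeZero (QQ S) := ⟨hQ0.ne'⟩
  have hbQ : b.Coprime (QQ S) := by
    unfold QQ
    apply Nat.Coprime.prod_right
    intro p hp
    apply Nat.Coprime.pow_right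
    rw [Nat.coprime_comm, (hS p hp).coprime_iff_not_dvd]
    exact hSb p hp
  obtain ⟨ρ, hρ0, hρ1, P, hP, hd⟩ := decay (Q := QQ S) hb hbQ
  refine ⟨fun h => (∑ r ∈ range (QQ S), |(if ∀ p ∈ S, ¬ p ^ 2 ∣ r then (1:ℝ) else 0)|) * Bd b ρ P h,
    ?_, ?_⟩
  · have h1 := (Bd_tendsto hb hρ0 hρ1 hP).const_mul
      (∑ r ∈ range (QQ S), |(if ∀ p ∈ S, ¬ p ^ 2 ∣ r then (1:ℝ) else 0)|)
    rw [mul_zero] at h1
    refine h1.congr fun h => ?_
    rw [mul_div_assoc]
  · intro h y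
    have h1 := mean_bound hbQ ((FF b (h + 1)).filter (fun n => n < y))
      (fun r => if ∀ p ∈ S, ¬ p ^ 2 ∣ r then (1:ℝ) else 0) (Bd b ρ P (h + 1))
      (TF_le hb hbQ hρ0 hd h y)
    rw [sum_wgt hb S hS] at h1
    have h2 : ∑ n ∈ (FF b (h + 1)).filter (fun n => n < y),
        (if ∀ p ∈ S, ¬ p ^ 2 ∣ n % QQ S then (1:ℝ) else 0) =
        (((FF b (h + 1)).filter (fun n => n < y ∧ ∀ p ∈ S, ¬ p ^ 2 ∣ n)).card : ℝ) := by
      rw [← filter_filter, ← sum_boole]
      refine sum_congr rfl fun n _ => ?_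
      have h3 : (∀ p ∈ S, ¬ p ^ 2 ∣ n % QQ S) ↔ (∀ p ∈ S, ¬ p ^ 2 ∣ n) := by
        constructor
        · intro h4 p hp h5
          exact h4 p hp ((Nat.dvd_mod_iff (dvd_QQ hp)).2 h5)
        · intro h4 p hp h5
          exact h4 p hp ((Nat.dvd_mod_iff (dvd_QQ hp)).1 h5)
      simp only [h3]
    rw [h2] at h1
    rw [mul_comm (∏ p ∈ S, kap b p)]
    exact h1

end Pool.Agent.H610.SqF
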